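import Mathlib

set_option autoImplicit false

namespace Pool.Agent.Lib.MP_6b8987_gt

open MeasureTheory Module Set Filter Topology
open scoped RealInnerProductSpace

variable {E : Type*} [NormedAddCommGroup E] [InnerProductSpace ℝ E] [FiniteDimensional ℝ E]

/-- The trace of a continuous linear endomorphism. -/
noncomputable def tr : (E →L[ℝ] E) →L[ℝ] ℝ :=
  LinearMap.toContinuousLinearMap
    { toFun := fun L => LinearMap.trace ℝ E (L : E →ₗ[ℝ] E)
      map_add' := by intro L L'; simp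
      map_smul' := by intro c L; simp }

theorem tr_apply (L : E →L[ℝ] E) : tr L = LinearMap.trace ℝ E (L : E →ₗ[ℝ] E) := rfl

theorem tr_eq_sum (L : E →L[ℝ] E) :
    tr L = ∑ i, ⟪stdOrthonormalBasis ℝ E i, L (stdOrthonormalBasis ℝ E i)⟫ :=
  LinearMap.trace_eq_sum_inner _ _

theorem tr_id : tr (ContinuousLinearMap.id ℝ E) = finrank ℝ E := by
  rw [tr_apply]; simp

theorem tr_smulRight (f : E →L[ℝ] ℝ) (v : E) : tr (f.smulRight v) = f v :=
  LinearMap.trace_smulRight (f : E →ₗ[ℝ] ℝ) v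

theorem tr_comp_comm (A B : E →L[ℝ] E) : tr (A.comp B) = tr (B.comp A) :=
  LinearMap.trace_comp_comm' (B : E →ₗ[ℝ] E) (A : E →ₗ[ℝ] E)

theorem tr_skew_symm {J B : E →L[ℝ] E} (hJ : ∀ u v, ⟪J u, v⟫ = -⟪u, J v⟫)
    (hB : ∀ u v, ⟪B u, v⟫ = ⟪u, B v⟫) : tr (J.comp B) = 0 := by
  have h : tr (J.comp B) = -tr (B.comp J) := by
    rw [tr_eq_sum, tr_eq_sum, ← Finset.sum_neg_distrib]
    refine Finset.sum_congr rfl fun i _ => ?_
    simp only [ContinuousLinearMap.comp_apply]
    rw [← hB, ← real_inner_comm, hJ]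
  rw [tr_comp_comm B J] at h
  linarith

/-- The vector dual to a linear form. -/
noncomputable def sharp : (E →L[ℝ] ℝ) →L[ℝ] E :=
  haveI : CompleteSpace E := FiniteDimensional.complete ℝ E
  LinearMap.toContinuousLinearMap
    { toFun := fun β => (InnerProductSpace.toDual ℝ E).symm β
      map_add' := by intro L L'; simp
      map_smul' := by intro c L; simp }

theorem inner_sharp (β : E →L[ℝ] ℝ) (v : E) : ⟪sharp β, v⟫ = β v := by
  have : CompleteSpace E := FiniteDimensional.complete ℝ E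
  exact InnerProductSpace.toDual_symm_apply

theorem tr_of_smul {f : E → ℝ} {V : E → E} {f' : E →L[ℝ] ℝ} {V' : E →L[ℝ] E} {x : E}
    (hf : HasFDerivAt f f' x) (hV : HasFDerivAt V V' x) :
    ∃ L, HasFDerivAt (fun y => f y • V y) L x ∧ tr L = f' (V x) + f x * tr V' :=
  ⟨_, hf.smul hV, by rw [map_add, map_smul, tr_smulRight, smul_eq_mul, add_comm]⟩

theorem div_identity {J : E →L[ℝ] E} (hJ : ∀ u v, ⟪J u, v⟫ = -⟪u, J v⟫) {a b : E → E}
    {A B : E →L[ℝ] E} {x : E} (ha : HasFDerivAt a A x) (hb : HasFDerivAt b B x)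
    (hA : ∀ u v, ⟪A u, v⟫ = ⟪u, A v⟫) (hB : ∀ u v, ⟪B u, v⟫ = ⟪u, B v⟫) :
    tr (fderiv ℝ (fun y => ⟪a y, J (b y)⟫ • y - ⟪a y, y⟫ • J (b y) + ⟪b y, y⟫ • J (a y)) x) =
      (finrank ℝ E - 2) * ⟪a x, J (b x)⟫ := by
  have hJb := J.hasFDerivAt.comp x hb
  have hJa := J.hasFDerivAt.comp x ha
  have hid := hasFDerivAt_id (𝕜 := ℝ) x
  obtain ⟨L1, h1, e1⟩ := tr_of_smul (ha.inner ℝ hJb) hid
  obtain ⟨L2, h2, e2⟩ := tr_of_smul (ha.inner ℝ hid) hJb
  obtain ⟨L3, h3, e3⟩ := tr_of_smul (hb.inner ℝ hid) hJa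
  have h : HasFDerivAt (fun y => ⟪a y, J (b y)⟫ • y - ⟪a y, y⟫ • J (b y) + ⟪b y, y⟫ • J (a y))
      (L1 - L2 + L3) x := (h1.sub h2).add h3
  rw [h.fderiv, map_add, map_sub, e1, e2, e3, tr_skew_symm hJ hA, tr_skew_symm hJ hB, tr_id]
  simp only [ContinuousLinearMap.comp_apply, ContinuousLinearMap.prod_apply, fderivInnerCLM_apply,
    Function.comp_apply, id_eq, ContinuousLinearMap.id_apply]
  have f1 : ⟪A (J (b x)), x⟫ = ⟪A x, J (b x)⟫ := by rw [hA, real_inner_comm]
  have f2 : ⟪B (J (a x)), x⟫ = -⟪a x, J (B x)⟫ := by rw [hB, hJ]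
  have f3 : ⟪b x, J (a x)⟫ = -⟪a x, J (b x)⟫ := by rw [real_inner_comm, hJ]
  rw [f1, f2, f3]
  ring

variable [MeasurableSpace E] [BorelSpace E] (μ : Measure E) [μ.IsAddHaarMeasure]

theorem integral_tr_fderiv {Y : E → E} (hY : ContDiff ℝ 1 Y) (hc : HasCompactSupport Y) :
    ∫ x, tr (fderiv ℝ Y x) ∂μ = 0 := by
  have hY' : Continuous (fderiv ℝ Y) := hY.continuous_fderiv one_ne_zero
  have hint : ∀ e : E, Integrable (fun x => ⟪e, fderiv ℝ Y x e⟫) μ := by
    intro e
    refine Continuous.integrable_of_hasCompactSupport (by fun_prop) ?_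
    exact (hc.fderiv ℝ).comp_left (g := fun L : E →L[ℝ] E => ⟪e, L e⟫) (by simp)
  simp only [tr_eq_sum]
  rw [integral_finsetSum _ fun i _ => hint _]
  refine Finset.sum_eq_zero fun i _ => ?_
  set e := stdOrthonormalBasis ℝ E i
  have := integral_bilinear_hasFDerivAt_right_eq_neg_left_of_integrable (μ := μ)
    (f := fun _ => e) (f' := fun _ => 0) (g := Y) (g' := fderiv ℝ Y) (v := e) (B := innerSL ℝ)
    (by simp) (hint e) (Continuous.integrable_of_hasCompactSupport
      ((innerSL ℝ e).continuous.comp hY.continuous)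
      (hc.comp_left (g := fun v : E => innerSL ℝ e v) (by simp)))
    (fun x _ => hasFDerivAt_const e x)
    (fun x _ => (hY.differentiable one_ne_zero x).hasFDerivAt)
  simp only [ContinuousLinearMap.zero_apply, map_zero, integral_zero, neg_zero] at this
  exact this

theorem integral_fderiv_self {f : E → ℝ} (hf : ContDiff ℝ 1 f) (hc : HasCompactSupport f) :
    ∫ x, fderiv ℝ f x x ∂μ = -(finrank ℝ E * ∫ x, f x ∂μ) := by
  have h := integral_tr_fderiv μ (Y := fun x => f x • x) (hf.smul contDiff_id) hc.smul_right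
  have h2 : ∀ x, tr (fderiv ℝ (fun x => f x • x) x) = fderiv ℝ f x x + finrank ℝ E * f x := by
    intro x
    obtain ⟨L, h1, e1⟩ := tr_of_smul (hf.differentiable one_ne_zero x).hasFDerivAt
      (hasFDerivAt_id (𝕜 := ℝ) x)
    have : HasFDerivAt (fun x => f x • x) L x := h1
    rw [this.fderiv, e1, tr_id, mul_comm]; rfl
  have hf' : Continuous (fderiv ℝ f) := hf.continuous_fderiv one_ne_zero
  simp only [h2] at h
  rw [integral_add, integral_const_mul] at h
  · linarith
  · refine Continuous.integrable_of_hasCompactSupport (by fun_prop) ?_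
    exact HasCompactSupport.intro (hc.fderiv ℝ).isCompact fun x hx => by
      rw [image_eq_zero_of_notMem_tsupport hx]; rfl
  · exact (hf.continuous.integrable_of_hasCompactSupport hc).const_mul _

/-- The symplectic pairing of a compactly supported closed one-form with a closed one-form has
integral zero in dimension at least four. -/
theorem integral_pairing {J : E →L[ℝ] E} (hJ : ∀ u v, ⟪J u, v⟫ = -⟪u, J v⟫)
    (hN : 2 < finrank ℝ E) {S K : Set E} (hK : IsCompact K) (hKS : K ⊆ S)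
    {θ β : E → E →L[ℝ] ℝ} (hθ0 : ∀ x ∉ K, θ x = 0) (hθ : ∀ x ∈ S, ContDiffAt ℝ 1 θ x)
    (hβ : ∀ x ∈ S, ContDiffAt ℝ 1 β x)
    (hθs : ∀ x ∈ S, ∀ u v, fderiv ℝ θ x u v = fderiv ℝ θ x v u)
    (hβs : ∀ x ∈ S, ∀ u v, fderiv ℝ β x u v = fderiv ℝ β x v u) :
    ∫ x, θ x (J (sharp (β x))) ∂μ = 0 := by
  let Y : E → E := fun y => ⟪sharp (θ y), J (sharp (β y))⟫ • y - ⟪sharp (θ y), y⟫ • J (sharp (β y))
    + ⟪sharp (β y), y⟫ • J (sharp (θ y))
  have hY0 : ∀ x ∉ K, Y x = 0 := fun x hx => by simp [Y, hθ0 x hx]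
  have hYev : ∀ x ∉ K, Y =ᶠ[𝓝 x] fun _ => 0 := fun x hx => by
    filter_upwards [hK.isClosed.isOpen_compl.mem_nhds hx] with y hy using hY0 y hy
  have hY : ContDiff ℝ 1 Y := by
    rw [contDiff_iff_contDiffAt]
    intro x
    by_cases hx : x ∈ K
    · have ha : ContDiffAt ℝ 1 (fun y => sharp (θ y)) x :=
        sharp.contDiff.contDiffAt.comp x (hθ x (hKS hx))
      have hb : ContDiffAt ℝ 1 (fun y => sharp (β y)) x :=
        sharp.contDiff.contDiffAt.comp x (hβ x (hKS hx))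
      have hJa : ContDiffAt ℝ 1 (fun y => J (sharp (θ y))) x := J.contDiff.contDiffAt.comp x ha
      have hJb : ContDiffAt ℝ 1 (fun y => J (sharp (β y))) x := J.contDiff.contDiffAt.comp x hb
      exact (((ha.inner ℝ hJb).smul contDiffAt_id).sub ((ha.inner ℝ contDiffAt_id).smul hJb)).add
        ((hb.inner ℝ contDiffAt_id).smul hJa)
    · exact contDiffAt_const.congr_of_eventuallyEq (hYev x hx)
  have h := integral_tr_fderiv μ hY (HasCompactSupport.intro hK hY0)
  have h2 : ∀ x, tr (fderiv ℝ Y x) = (finrank ℝ E - 2) * θ x (J (sharp (β x))) := by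
    intro x
    by_cases hx : x ∈ K
    · rw [← inner_sharp]
      refine div_identity hJ
        (sharp.hasFDerivAt.comp x ((hθ x (hKS hx)).differentiableAt one_ne_zero).hasFDerivAt)
        (sharp.hasFDerivAt.comp x ((hβ x (hKS hx)).differentiableAt one_ne_zero).hasFDerivAt)
        (fun u v => ?_) (fun u v => ?_)
      · simp only [ContinuousLinearMap.comp_apply]
        rw [real_inner_comm (sharp _) u, inner_sharp, inner_sharp, hθs x (hKS hx)]
      · simp only [ContinuousLinearMap.comp_apply]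
        rw [real_inner_comm (sharp _) u, inner_sharp, inner_sharp, hβs x (hKS hx)]
    · rw [(hYev x hx).fderiv_eq, hθ0 x hx]; simp
  simp only [h2] at h
  rw [integral_const_mul] at h
  have : (2 : ℝ) < finrank ℝ E := by exact_mod_cast hN
  exact (mul_eq_zero.mp h).resolve_left (by linarith)

end Pool.Agent.Lib.MP_6b8987_gt
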