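import Mathlib

set_option autoImplicit false

namespace Pool.Agent.Lib.MP_6b8987_gt

open MeasureTheory Set Filter
open scoped ENNReal Pointwise ContDiff

/-- Euclidean space `ℝ^{2n}` with coordinates `(q, p)`. -/
abbrev R2n (n : ℕ) := EuclideanSpace ℝ (Fin n ⊕ Fin n)

/-- The standard symplectic form. -/
def omega0 {n : ℕ} (u v : R2n n) : ℝ :=
  ∑ i, (u (Sum.inl i) * v (Sum.inr i) - u (Sum.inr i) * v (Sum.inl i))

/-- `φ` is a smooth symplectic embedding of the open set `U` into `X`. -/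
def IsSympEmb {n : ℕ} (U X : Set (R2n n)) (φ : R2n n → R2n n) : Prop :=
  ContDiffOn ℝ ∞ φ U ∧ InjOn φ U ∧ MapsTo φ U X ∧
    ∀ x ∈ U, ∀ u v, omega0 (fderiv ℝ φ x u) (fderiv ℝ φ x v) = omega0 u v

/-- The `k`-th packing number `p_{k,D}(X)`. -/
noncomputable def packingNumber {n : ℕ} (k : ℕ) (D X : Set (R2n n)) : ℝ≥0∞ :=
  ⨆ (l : ℝ) (_ : 0 < l) (_ : ∃ φ : Fin k → R2n n → R2n n, (∀ i, IsSympEmb (l • D) X (φ i)) ∧
    Pairwise fun i j => Disjoint (φ i '' (l • D)) (φ j '' (l • D))),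
    k * volume (l • D) / volume X

/-- The asymptotic packing number `p_D(X)`. -/
noncomputable def asymptoticPacking {n : ℕ} (D X : Set (R2n n)) : ℝ≥0∞ :=
  liminf (fun k => packingNumber k D X) atTop

/-- The spherical shell `a < |x| < 1`. -/
def shell (n : ℕ) (a : ℝ) : Set (R2n n) := {x | a < ‖x‖ ∧ ‖x‖ < 1}

end Pool.Agent.Lib.MP_6b8987_gt
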