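import Pool.Agent.Lib.MP_6b8987_gt.Calc

set_option autoImplicit false

namespace Pool.Agent.Lib.MP_6b8987_gt

open MeasureTheory Module Set Filter Topology Metric
open scoped RealInnerProductSpace

variable {E : Type*} [NormedAddCommGroup E] [InnerProductSpace ℝ E] [FiniteDimensional ℝ E]

theorem symp_linear {J A : E →L[ℝ] E} (hJ2 : ∀ v, J (J v) = -v)
    (hA : ∀ u v, ⟪J (A u), A v⟫ = ⟪J u, v⟫) :
    (∃ A' : E ≃L[ℝ] E, (A' : E →L[ℝ] E) = A) ∧ |A.det| = 1 := by
  have hdet : |A.det| = 1 := by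
    have h1 : LinearMap.adjoint (A : E →ₗ[ℝ] E) ∘ₗ ((J : E →ₗ[ℝ] E) ∘ₗ (A : E →ₗ[ℝ] E)) =
        (J : E →ₗ[ℝ] E) := by
      ext u
      refine ext_inner_right ℝ fun v => ?_
      simp only [LinearMap.comp_apply, LinearMap.adjoint_inner_left, ContinuousLinearMap.coe_coe]
      exact hA u v
    have h2 : LinearMap.det (LinearMap.adjoint (A : E →ₗ[ℝ] E)) = A.det := by
      let b := stdOrthonormalBasis ℝ E
      rw [← LinearMap.det_toMatrix b.toBasis, LinearMap.toMatrix_adjoint, Matrix.det_conjTranspose,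
        LinearMap.det_toMatrix]
      rfl
    have h3 : LinearMap.det (J : E →ₗ[ℝ] E) ≠ 0 := by
      have : Function.Injective (J : E →ₗ[ℝ] E) := fun u v h => by
        have := congrArg J h
        simp only [ContinuousLinearMap.coe_coe, hJ2, neg_inj] at this
        exact this
      exact (LinearEquiv.isUnit_det' (LinearEquiv.ofInjectiveEndo _ this)).ne_zero
    have h4 := congrArg LinearMap.det h1
    rw [LinearMap.det_comp, LinearMap.det_comp, h2] at h4
    have h5 : A.det ^ 2 = 1 := by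
      apply mul_left_cancel₀ h3
      rw [mul_one]
      conv_rhs => rw [← h4]
      simp only [ContinuousLinearMap.det]
      ring
    rcases sq_eq_one_iff.mp h5 with h | h <;> simp [h]
  refine ⟨⟨A.toContinuousLinearEquivOfDetNeZero fun h => ?_, by simp⟩, hdet⟩
  rw [h] at hdet
  simp at hdet

/-- An injective symplectic map of class `C²` on an open set. -/
structure Symp (J : E →L[ℝ] E) (S : Set E) (φ : E → E) : Prop where
  isOpen : IsOpen S
  contDiffOn : ContDiffOn ℝ 2 φ S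
  injOn : InjOn φ S
  symp : ∀ x ∈ S, ∀ u v, ⟪J (fderiv ℝ φ x u), fderiv ℝ φ x v⟫ = ⟪J u, v⟫

variable {J : E →L[ℝ] E} {S : Set E} {φ : E → E}

omit [FiniteDimensional ℝ E] in
theorem Symp.contDiffAt (h : Symp J S φ) {x : E} (hx : x ∈ S) : ContDiffAt ℝ 2 φ x :=
  h.contDiffOn.contDiffAt (h.isOpen.mem_nhds hx)

omit [FiniteDimensional ℝ E] in
theorem Symp.hasFDerivAt (h : Symp J S φ) {x : E} (hx : x ∈ S) :
    HasFDerivAt φ (fderiv ℝ φ x) x :=
  ((h.contDiffAt hx).differentiableAt two_ne_zero).hasFDerivAt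

theorem Symp.inverse (h : Symp J S φ) (hJ2 : ∀ v, J (J v) = -v) {x : E} (hx : x ∈ S) :
    φ '' S ∈ 𝓝 (φ x) ∧ ContDiffAt ℝ 2 (Function.invFunOn φ S) (φ x) := by
  have : CompleteSpace E := FiniteDimensional.complete ℝ E
  obtain ⟨⟨A', hA'⟩, -⟩ := symp_linear hJ2 (h.symp x hx)
  have h1 : HasFDerivAt φ (A' : E →L[ℝ] E) x := hA' ▸ h.hasFDerivAt hx
  have h2 := (h.contDiffAt hx).hasStrictFDerivAt' h1 two_ne_zero
  have h3 : φ '' S ∈ 𝓝 (φ x) := by
    rw [← h2.map_nhds_eq_of_equiv]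
    exact image_mem_map (h.isOpen.mem_nhds hx)
  refine ⟨h3, ((h.contDiffAt hx).to_localInverse h1 two_ne_zero).congr_of_eventuallyEq ?_⟩
  rw [← h2.map_nhds_eq_of_equiv, EventuallyEq, eventually_map]
  filter_upwards [h.isOpen.mem_nhds hx, h2.eventually_left_inverse] with y hy hy'
  rw [h.injOn.leftInvOn_invFunOn hy]
  exact hy'.symm

theorem Symp.isOpen_image (h : Symp J S φ) (hJ2 : ∀ v, J (J v) = -v) : IsOpen (φ '' S) := by
  rw [isOpen_iff_mem_nhds]
  rintro _ ⟨x, hx, rfl⟩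
  exact (h.inverse hJ2 hx).1

theorem isPreconnected_norm_mem (hN : 1 < finrank ℝ E) {I : Set ℝ} (hI : IsPreconnected I)
    (hI0 : ∀ r ∈ I, 0 < r) : IsPreconnected {x : E | ‖x‖ ∈ I} := by
  have h1 : IsPreconnected (sphere (0 : E) 1) :=
    isPreconnected_sphere (by rw [← finrank_eq_rank]; exact_mod_cast hN) 0 1
  have h2 := (hI.prod h1).image (fun p : ℝ × E => p.1 • p.2) (by fun_prop)
  have h3 : (fun p : ℝ × E => p.1 • p.2) '' (I ×ˢ sphere (0 : E) 1) = {x : E | ‖x‖ ∈ I} := by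
    ext x
    constructor
    · rintro ⟨⟨r, u⟩, ⟨hr, hu⟩, rfl⟩
      simp only [mem_sphere_iff_norm, sub_zero] at hu
      simp only [mem_ofPred_eq, norm_smul, hu, mul_one, Real.norm_eq_abs, abs_of_pos (hI0 r hr)]
      exact hr
    · intro hx
      have hx0 : 0 < ‖x‖ := hI0 _ hx
      refine ⟨(‖x‖, ‖x‖⁻¹ • x), ⟨hx, ?_⟩, ?_⟩
      · simp [norm_smul, hx0.ne']
      · simp [smul_smul, hx0.ne']
  rwa [h3] at h2

variable [MeasurableSpace E] [BorelSpace E] (μ : Measure E) [μ.IsAddHaarMeasure]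

/-- A cut-off function on a symplectically embedded domain extends to the whole space, and the
extension has the same integral. -/
theorem Symp.exists_fill (h : Symp J S φ) (hJ : ∀ u v, ⟪J u, v⟫ = -⟪u, J v⟫)
    (hJ2 : ∀ v, J (J v) = -v) (hN : 2 < finrank ℝ E) (hS : IsPreconnected S) {K : Set E}
    (hK : IsCompact K) (hKS : K ⊆ S) {χ : E → ℝ} (hχ : ContDiff ℝ 2 χ)
    (hχc : HasCompactSupport χ) (hχK : ∀ x ∉ K, fderiv ℝ χ x = 0) :
    ∃ (Ψ : E → ℝ) (m R : ℝ), Differentiable ℝ Ψ ∧ (∀ y, R < ‖y‖ → Ψ y = 0) ∧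
      (∀ y ∉ φ '' K, fderiv ℝ Ψ y = 0) ∧ (∀ x ∈ S, Ψ (φ x) = χ x + m) ∧
      ∫ y, Ψ y ∂μ = ∫ x, χ x ∂μ := by
  classical
  set g := Function.invFunOn φ S with hg
  have hgφ : ∀ x ∈ S, g (φ x) = x := fun x hx => h.injOn.leftInvOn_invFunOn hx
  have hΩ := h.isOpen_image hJ2
  have hC : IsCompact (φ '' K) := hK.image_of_continuousOn (h.contDiffOn.continuousOn.mono hKS)
  have hψ : ∀ y ∈ φ '' S, ContDiffAt ℝ 2 (χ ∘ g) y := by
    rintro _ ⟨x, hx, rfl⟩
    exact hχ.contDiffAt.comp _ (h.inverse hJ2 hx).2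
  let θ : E → E →L[ℝ] ℝ := (φ '' S).indicator (fderiv ℝ (χ ∘ g))
  have hθφ : ∀ x ∈ S, (θ (φ x)).comp (fderiv ℝ φ x) = fderiv ℝ χ x := by
    intro x hx
    have h1 : HasFDerivAt ((χ ∘ g) ∘ φ) ((θ (φ x)).comp (fderiv ℝ φ x)) x := by
      simp only [θ, indicator_of_mem (mem_image_of_mem φ hx)]
      exact ((hψ _ ⟨x, hx, rfl⟩).differentiableAt two_ne_zero).hasFDerivAt.comp x
        (h.hasFDerivAt hx)
    have h2 : (χ ∘ g) ∘ φ =ᶠ[𝓝 x] χ := by
      filter_upwards [h.isOpen.mem_nhds hx] with y hy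
      simp [hgφ y hy]
    rw [← h1.fderiv, h2.fderiv_eq]
  have hθ0 : ∀ y ∉ φ '' K, θ y = 0 := by
    intro y hy
    by_cases hy' : y ∈ φ '' S
    · obtain ⟨x, hx, rfl⟩ := hy'
      obtain ⟨⟨A', hA'⟩, -⟩ := symp_linear hJ2 (h.symp x hx)
      have h1 := hθφ x hx
      rw [hχK x fun hxK => hy ⟨x, hxK, rfl⟩, ← hA'] at h1
      ext v
      have := congrArg (fun L : E →L[ℝ] ℝ => L (A'.symm v)) h1
      simpa using this
    · exact indicator_of_notMem hy' _
  have hθev : ∀ y ∈ φ '' S, θ =ᶠ[𝓝 y] fderiv ℝ (χ ∘ g) := fun y hy => by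
    filter_upwards [hΩ.mem_nhds hy] with z hz using indicator_of_mem hz _
  have hθev0 : ∀ y ∉ φ '' K, θ =ᶠ[𝓝 y] fun _ => 0 := fun y hy => by
    filter_upwards [hC.isClosed.isOpen_compl.mem_nhds hy] with z hz using hθ0 z hz
  have hθ1 : ContDiff ℝ 1 θ := by
    rw [contDiff_iff_contDiffAt]
    intro y
    by_cases hy : y ∈ φ '' K
    · have hy' := image_mono hKS hy
      exact ((hψ y hy').fderiv_right (m := 1) (by norm_num)).congr_of_eventuallyEq (hθev y hy')
    · exact contDiffAt_const.congr_of_eventuallyEq (hθev0 y hy)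
  obtain ⟨Ψ₀, hΨ₀⟩ := (convex_univ (𝕜 := ℝ) (E := E)).exists_forall_hasFDerivAt_of_fderiv_symmetric
    isOpen_univ (ω := θ) (hθ1.differentiable one_ne_zero).differentiableOn (by
      intro y _ u v
      by_cases hy : y ∈ φ '' K
      · have hy' := image_mono hKS hy
        rw [(hθev y hy').fderiv_eq]
        exact ((hψ y hy').isSymmSndFDerivAt (by simp)).eq u v
      · rw [(hθev0 y hy).fderiv_eq]; simp)
  obtain ⟨R, hR0, hR⟩ := hC.isBounded.exists_pos_norm_le
  have hfar : IsPreconnected {y : E | ‖y‖ ∈ Ioi R} :=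
    isPreconnected_norm_mem (by omega) isPreconnected_Ioi fun r hr => hR0.trans hr
  obtain ⟨c, hc⟩ := IsOpen.exists_is_const_of_fderiv_eq_zero (𝕜 := ℝ) (f := Ψ₀)
    (isOpen_Ioi.preimage continuous_norm) hfar
    (fun y _ => (hΨ₀ y trivial).differentiableAt.differentiableWithinAt) (fun y hy => by
      rw [(hΨ₀ y trivial).fderiv]
      exact hθ0 y fun hy' => not_le.mpr hy (hR y hy'))
  let Ψ : E → ℝ := fun y => Ψ₀ y - c
  have hΨ : ∀ y, HasFDerivAt Ψ (θ y) y := fun y => (hΨ₀ y trivial).sub_const c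
  have hΨf : fderiv ℝ Ψ = θ := funext fun y => (hΨ y).fderiv
  have hΨfar : ∀ y, R < ‖y‖ → Ψ y = 0 := fun y hy => sub_eq_zero.mpr (hc y hy)
  have hχd : ∀ x, HasFDerivAt χ (fderiv ℝ χ x) x := fun x =>
    (hχ.differentiable two_ne_zero x).hasFDerivAt
  have hsub : ∀ x ∈ S, HasFDerivAt (fun x => Ψ (φ x) - χ x) (0 : E →L[ℝ] ℝ) x := by
    intro x hx
    have := ((hΨ (φ x)).comp x (h.hasFDerivAt hx)).sub (hχd x)
    rwa [hθφ x hx, sub_self] at this
  obtain ⟨m, hm⟩ := IsOpen.exists_is_const_of_fderiv_eq_zero (𝕜 := ℝ)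
    (f := fun x => Ψ (φ x) - χ x) h.isOpen hS
    (fun x hx => (hsub x hx).differentiableAt.differentiableWithinAt)
    (fun x hx => (hsub x hx).fderiv)
  refine ⟨Ψ, m, R, fun y => (hΨ y).differentiableAt, hΨfar, fun y hy => by rw [hΨf, hθ0 y hy],
    fun x hx => by linarith [hm x hx], ?_⟩
  have hΨ1 : ContDiff ℝ 1 Ψ :=
    contDiff_one_iff_fderiv.mpr ⟨fun y => (hΨ y).differentiableAt, hΨf ▸ hθ1.continuous⟩
  have e1 := integral_fderiv_self μ hΨ1 (HasCompactSupport.intro (isCompact_closedBall 0 R)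
    fun y hy => hΨfar y (by simpa using hy))
  have e2 := integral_fderiv_self μ (hχ.of_le (by norm_num)) hχc
  let β : E → E →L[ℝ] ℝ := fun x =>
    innerSL ℝ (J x) - (innerSL ℝ (J (φ x))).comp (fderiv ℝ φ x)
  have hβd : ∀ x ∈ S, ContDiffAt ℝ 1 β x := by
    intro x hx
    have h1 : ContDiffAt ℝ 1 φ x := (h.contDiffAt hx).of_le (by norm_num)
    have h2 : ContDiffAt ℝ 1 (fderiv ℝ φ) x := (h.contDiffAt hx).fderiv_right (by norm_num)
    have h3 : ContDiff ℝ 1 (fun v : E => innerSL ℝ (J v)) :=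
      ((innerSL ℝ : E →L[ℝ] E →L[ℝ] ℝ).comp J).contDiff
    exact h3.contDiffAt.sub ((h3.contDiffAt.comp x h1).clm_comp h2)
  have e3 := integral_pairing μ hJ hN hK hKS hχK
    (fun x _ => hχ.contDiffAt.fderiv_right (m := 1) (by norm_num)) hβd
    (fun x _ u v => (hχ.contDiffAt.isSymmSndFDerivAt (by simp)).eq u v) (by
      intro x hx
      have h2 : HasFDerivAt (fderiv ℝ φ) (fderiv ℝ (fderiv ℝ φ) x) x :=
        (((h.contDiffAt hx).fderiv_right (m := 1) (by norm_num)).differentiableAt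
          one_ne_zero).hasFDerivAt
      let L : E →L[ℝ] E →L[ℝ] ℝ := (innerSL ℝ : E →L[ℝ] E →L[ℝ] ℝ).comp J
      have h3 : HasFDerivAt β _ x :=
        L.hasFDerivAt.sub ((L.hasFDerivAt.comp x (h.hasFDerivAt hx)).clm_comp h2)
      have h4 : ∀ u v, fderiv ℝ β x u v = -⟪J (φ x), fderiv ℝ (fderiv ℝ φ) x u v⟫ := by
        intro u v
        rw [h3.fderiv]
        have := h.symp x hx u v
        simp [L, this]
      intro u v
      rw [h4, h4, ((h.contDiffAt hx).isSymmSndFDerivAt (by simp)).eq u v])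
  have e4 : ∫ y, θ y y ∂μ = ∫ x, (fderiv ℝ χ x x + fderiv ℝ χ x (J (sharp (β x)))) ∂μ := by
    rw [← setIntegral_eq_integral_of_forall_compl_eq_zero (s := φ '' S) (fun y hy => by
        rw [hθ0 y fun hy' => hy (image_mono hKS hy')]; rfl),
      ← setIntegral_eq_integral_of_forall_compl_eq_zero (s := S)
        (f := fun x => fderiv ℝ χ x x + fderiv ℝ χ x (J (sharp (β x)))) (fun x hx => by
        rw [hχK x fun hx' => hx (hKS hx')]; simp),
      integral_image_eq_integral_abs_det_fderiv_smul μ h.isOpen.measurableSet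
        (fun x hx => (h.hasFDerivAt hx).hasFDerivWithinAt) h.injOn]
    refine setIntegral_congr_fun h.isOpen.measurableSet fun x hx => ?_
    obtain ⟨⟨A', hA'⟩, hdet⟩ := symp_linear hJ2 (h.symp x hx)
    have h1 : sharp (β x) = J x - J (A'.symm (φ x)) := by
      refine ext_inner_right ℝ fun v => ?_
      rw [inner_sharp, inner_sub_left, ← h.symp x hx (A'.symm (φ x)) v, ← hA']
      simp [β, ← hA']
    have h2 : x + J (sharp (β x)) = A'.symm (φ x) := by
      rw [h1, map_sub, hJ2, hJ2]; abel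
    simp only [hdet, one_smul]
    rw [← map_add, h2, ← hθφ x hx, ← hA']
    simp
  have hχ' : Continuous (fderiv ℝ χ) := hχ.continuous_fderiv two_ne_zero
  rw [integral_add, e3, e2, ← hΨf, e1] at e4
  · have : (0 : ℝ) < finrank ℝ E := by exact_mod_cast (by omega : 0 < finrank ℝ E)
    exact mul_left_cancel₀ this.ne' (by linarith)
  · refine Continuous.integrable_of_hasCompactSupport (by fun_prop) ?_
    exact HasCompactSupport.intro hK fun x hx => by rw [hχK x hx]; rfl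
  · refine Continuous.integrable_of_hasCompactSupport ?_
      (HasCompactSupport.intro hK fun x hx => by rw [hχK x hx]; rfl)
    rw [continuous_iff_continuousAt]
    intro x
    by_cases hx : x ∈ K
    · have := (hβd x (hKS hx)).continuousAt
      fun_prop
    · refine continuousAt_const.congr (f := fun _ => (0 : ℝ)) ?_
      filter_upwards [hK.isClosed.isOpen_compl.mem_nhds hx] with y hy
      rw [hχK y hy]; rfl

end Pool.Agent.Lib.MP_6b8987_gt
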