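import Pool.Agent.Lib.MP_6b8987_gt.PDefs

set_option autoImplicit false

namespace Pool.Agent.Lib.MP_6b8987_gt

/-- The set `D` together with all bounded connected components of its complement. -/
def fill {n : ℕ} (D : Set (R2n n)) : Set (R2n n) :=
  D ∪ {y | y ∉ D ∧ Bornology.IsBounded (connectedComponentIn Dᶜ y)}

end Pool.Agent.Lib.MP_6b8987_gt
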