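import Pool.Agent.Lib.MP_6b8987_gt.HMain
import Pool.Agent.Lib.MP_6b8987_gt.HDefs

set_option autoImplicit false

namespace Pool.Agent.Lib.MP_6b8987_gt

open MeasureTheory Module Set Filter Topology Metric
open scoped ENNReal Pointwise

variable {n : ℕ}

/-- A bounded component of the complement of an open set lies in a compact piece of the
complement that is relatively open. -/
theorem exists_compact_piece {D : Set (R2n n)} (hD : IsOpen D) {y : R2n n} (hy : y ∉ D)
    (hb : Bornology.IsBounded (connectedComponentIn Dᶜ y)) :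
    ∃ K, IsCompact K ∧ y ∈ K ∧ K ⊆ Dᶜ ∧ IsOpen (D ∪ K) := by
  obtain ⟨R, hR⟩ := hb.subset_ball 0
  have hF : IsCompact (Dᶜ ∩ closedBall (0 : R2n n) R) :=
    (isCompact_closedBall 0 R).inter_left hD.isClosed_compl
  have : CompactSpace ↥(Dᶜ ∩ closedBall (0 : R2n n) R) := isCompact_iff_compactSpace.1 hF
  have hyF : y ∈ Dᶜ ∩ closedBall (0 : R2n n) R :=
    ⟨hy, ball_subset_closedBall (hR (mem_connectedComponentIn hy))⟩
  have hT : IsCompact {z : ↥(Dᶜ ∩ closedBall (0 : R2n n) R) | z.1 ∉ ball (0 : R2n n) R} :=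
    (isOpen_ball.isClosed_compl.preimage continuous_subtype_val).isCompact
  obtain ⟨u, hu⟩ := hT.elim_finite_subfamily_closed
    (fun s : {s : Set ↥(Dᶜ ∩ closedBall (0 : R2n n) R) // IsClopen s ∧ ⟨y, hyF⟩ ∈ s} => s.1)
    (fun s => s.2.1.isClosed) (by
      rw [← connectedComponent_eq_iInter_isClopen, eq_empty_iff_forall_notMem]
      rintro z ⟨h1, h2⟩
      refine h1 (hR (connectedComponentIn_mono y
        (inter_subset_left (t := closedBall (0 : R2n n) R)) ?_))
      rw [connectedComponentIn_eq_image hyF]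
      exact ⟨z, h2, rfl⟩)
  have hs : IsClopen (⋂ s ∈ u, s.1) := isClopen_biInter_finset fun s _ => s.2.1
  obtain ⟨V, hV, hV'⟩ := isOpen_induced_iff.1 hs.isOpen
  refine ⟨Subtype.val '' ⋂ s ∈ u, s.1, hs.isClosed.isCompact.image continuous_subtype_val,
    ⟨⟨y, hyF⟩, mem_iInter₂.2 fun s _ => s.2.2, rfl⟩, ?_, ?_⟩
  · rintro _ ⟨z, -, rfl⟩
    exact z.2.1
  · have : D ∪ Subtype.val '' ⋂ s ∈ u, s.1 = D ∪ V ∩ ball 0 R := by
      ext z
      constructor
      · rintro (h | ⟨w, hw, rfl⟩)
        · exact Or.inl h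
        · refine Or.inr ⟨(hV' ▸ hw : w ∈ Subtype.val ⁻¹' V), ?_⟩
          by_contra h
          exact (eq_empty_iff_forall_notMem.1 hu) w ⟨h, hw⟩
      · rintro (h | ⟨h1, h2⟩)
        · exact Or.inl h
        · by_cases h : z ∈ D
          · exact Or.inl h
          · exact Or.inr ⟨⟨z, h, ball_subset_closedBall h2⟩, hV' ▸ h1, rfl⟩
    rw [this]
    exact hD.union (hV.inter isOpen_ball)

theorem subset_fill_of_piece {D K : Set (R2n n)} (hK : IsCompact K) (hKD : K ⊆ Dᶜ)
    (ho : IsOpen (D ∪ K)) : D ∪ K ⊆ fill D := by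
  refine union_subset_union_right D fun z hz => ⟨hKD hz, hK.isBounded.subset ?_⟩
  have h1 := isPreconnected_iff_subset_of_disjoint.1
    (isPreconnected_connectedComponentIn (x := z) (F := Dᶜ)) _ _ ho hK.isClosed.isOpen_compl
    (fun w _ => by
      by_cases h : w ∈ K
      · exact Or.inl (Or.inr h)
      · exact Or.inr h) (by
      rw [eq_empty_iff_forall_notMem]
      rintro w ⟨h1, h2 | h2, h3⟩
      · exact (connectedComponentIn_subset Dᶜ z h1 : w ∉ D) h2
      · exact h3 h2)
  rcases h1 with h | h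
  · exact fun w hw => (h hw).resolve_left (connectedComponentIn_subset Dᶜ z hw)
  · exact absurd hz (h (mem_connectedComponentIn (hKD hz)))

theorem exists_piece_nhds {D : Set (R2n n)} (hD : IsOpen D) {y : R2n n} (hy : y ∈ fill D) :
    ∃ K, IsCompact K ∧ y ∈ D ∪ K ∧ K ⊆ Dᶜ ∧ IsOpen (D ∪ K) := by
  rcases hy with h | h
  · exact ⟨∅, isCompact_empty, Or.inl h, empty_subset _, by simpa using hD⟩
  · obtain ⟨K, h1, h2, h3, h4⟩ := exists_compact_piece hD h.1 h.2
    exact ⟨K, h1, Or.inr h2, h3, h4⟩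

theorem isOpen_fill {D : Set (R2n n)} (hD : IsOpen D) : IsOpen (fill D) := by
  rw [isOpen_iff_mem_nhds]
  intro y hy
  obtain ⟨K, h1, h2, h3, h4⟩ := exists_piece_nhds hD hy
  exact mem_of_superset (h4.mem_nhds h2) (subset_fill_of_piece h1 h3 h4)

theorem exists_open_between {D L : Set (R2n n)} (hD : IsOpen D) (hL : IsCompact L)
    (hLD : L ⊆ fill D) : ∃ G, IsOpen G ∧ D ⊆ G ∧ L ⊆ G ∧ G ⊆ fill D ∧ IsCompact (G \ D) := by
  choose! K h1 h2 h3 h4 using fun y (hy : y ∈ L) => exists_piece_nhds hD (hLD hy)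
  obtain ⟨t, ht, ht'⟩ := hL.elim_nhds_subcover (fun y => D ∪ K y)
    fun y hy => (h4 y hy).mem_nhds (h2 y hy)
  refine ⟨D ∪ ⋃ y ∈ t, (D ∪ K y), hD.union (isOpen_biUnion fun y hy => h4 y (ht y hy)),
    subset_union_left, ht'.trans subset_union_right, union_subset subset_union_left
      (iUnion₂_subset fun y hy =>
        subset_fill_of_piece (h1 y (ht y hy)) (h3 y (ht y hy)) (h4 y (ht y hy))), ?_⟩
  have : (D ∪ ⋃ y ∈ t, (D ∪ K y)) \ D = ⋃ y ∈ t, K y := by
    ext z
    simp only [Set.mem_sdiff, mem_union, mem_iUnion]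
    constructor
    · rintro ⟨h | ⟨y, hy, h | h⟩, h'⟩
      · exact absurd h h'
      · exact absurd h h'
      · exact ⟨y, hy, h⟩
    · rintro ⟨y, hy, h⟩
      exact ⟨Or.inr ⟨y, hy, Or.inr h⟩, h3 y (ht y hy) h⟩
  rw [this]
  exact t.isCompact_biUnion fun y hy => h1 y (ht y hy)

theorem fill_subset_of_convex {D X : Set (R2n n)} (hX : Convex ℝ X) (hne : X.Nonempty)
    (hDX : D ⊆ X) : fill D ⊆ X := by
  rintro y (h | h)
  · exact hDX h
  · by_contra hy
    exact not_isBounded_component_of_convex hX hne hy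
      (h.2.subset (connectedComponentIn_mono y (compl_subset_compl.2 hDX)))

/-- Nonempty convex sets have no holes. -/
theorem fill_eq_of_convex {X : Set (R2n n)} (hX : Convex ℝ X) (hne : X.Nonempty) : fill X = X :=
  (fill_subset_of_convex hX hne subset_rfl).antisymm subset_union_left

theorem isBounded_fill {D : Set (R2n n)} (hb : Bornology.IsBounded D) :
    Bornology.IsBounded (fill D) := by
  obtain ⟨R, hR, h⟩ := hb.subset_ball_lt 0 0
  exact isBounded_ball.subset (fill_subset_of_convex (convex_ball 0 R) (nonempty_ball.2 hR) h)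

theorem unbounded_of_fill_eq {X : Set (R2n n)} (hX : fill X = X) :
    ∀ y ∉ X, ¬ Bornology.IsBounded (connectedComponentIn Xᶜ y) :=
  fun _ hy hb => hy (hX ▸ Or.inr ⟨hy, hb⟩)

/-- The upper bound for an arbitrary bounded domain. -/
theorem packingNumber_le_fill (hn : 2 ≤ n) {D X : Set (R2n n)} (hDo : IsOpen D)
    (hD : IsConnected D) (hb : Bornology.IsBounded D) (hXo : IsOpen X) (hX : fill X = X) (k : ℕ) :
    packingNumber k D X ≤ volume D / volume (fill D) := by
  have hv : volume (fill D) ≠ ⊤ := (isBounded_fill hb).measure_lt_top.ne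
  have h0 : volume (fill D) ≠ 0 :=
    ((isOpen_fill hDo).measure_pos _ (hD.nonempty.mono subset_union_left)).ne'
  rw [ENNReal.le_div_iff_mul_le (Or.inl h0) (Or.inl hv),
    (isOpen_fill hDo).measure_eq_iSup_isCompact volume]
  simp only [ENNReal.mul_iSup, iSup_le_iff]
  intro L hL hL'
  obtain ⟨G, h1, h2, h3, h4, h5⟩ := exists_open_between hDo hL' hL
  have h6 : volume G ≠ ⊤ := ne_top_of_le_ne_top hv (measure_mono h4)
  have h7 := packingNumber_le_hole hn hDo hD h1 h6 h2 h5 hXo (unbounded_of_fill_eq hX) k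
  rw [ENNReal.le_div_iff_mul_le (Or.inl (h1.measure_pos _ (hD.nonempty.mono h2)).ne')
    (Or.inl h6)] at h7
  exact le_trans (by gcongr) h7

/-- The exact value when the filled domain is complete Reinhardt. -/
theorem asymptoticPacking_fill (hn : 2 ≤ n) {D X : Set (R2n n)} (hDo : IsOpen D)
    (hD : IsConnected D) (hb : Bornology.IsBounded D) (hR : IsCompleteReinhardt (fill D))
    (hXo : IsOpen X) (hXne : X.Nonempty) (hXv : volume X ≠ ⊤) (hX : fill X = X) :
    asymptoticPacking D X = volume D / volume (fill D) := by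
  have hG := isOpen_fill hDo
  have hDG : D ⊆ fill D := subset_union_left
  have hGne := hD.nonempty.mono hDG
  have hG0 : volume (fill D) ≠ 0 := (hG.measure_pos _ hGne).ne'
  have hGv : volume (fill D) ≠ ⊤ := (isBounded_fill hb).measure_lt_top.ne
  refine le_antisymm (liminf_le_of_frequently_le (Frequently.of_forall
    (packingNumber_le_fill hn hDo hD hb hXo hX))) ?_
  have h1 : volume D / volume (fill D) ≠ ⊤ := ENNReal.div_ne_top hb.measure_lt_top.ne hG0
  calc volume D / volume (fill D) = volume D / volume (fill D) * 1 := (mul_one _).symm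
    _ ≤ volume D / volume (fill D) * asymptoticPacking (fill D) X := by
        gcongr
        exact one_le_asymptoticPacking (by omega) hG hGne (isBounded_fill hb) hR hXo hXne hXv
    _ = liminf (fun k => volume D / volume (fill D) * packingNumber k (fill D) X) atTop :=
        (ENNReal.liminf_const_mul_of_ne_top h1).symm
    _ ≤ _ := liminf_le_liminf (Eventually.of_forall (mul_packingNumber_le hG0 hGv hDG))

theorem shell_subset_ball (a : ℝ) : shell n a ⊆ ball 0 1 := fun x hx => by simpa using hx.2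

theorem fill_shell {a : ℝ} (ha1 : a < 1) : fill (shell n a) = ball 0 1 := by
  have h1 : shell n a ∪ closedBall 0 a = ball 0 1 := by
    rw [← ball_diff_shell ha1, union_sdiff_cancel (shell_subset_ball a)]
  refine (fill_subset_of_convex (convex_ball 0 1) (nonempty_ball.2 one_pos)
    (shell_subset_ball a)).antisymm ?_
  rw [← h1]
  refine subset_fill_of_piece (isCompact_closedBall 0 a) ?_ (h1 ▸ isOpen_ball)
  rw [← ball_diff_shell ha1]
  exact fun x hx => hx.2

end Pool.Agent.Lib.MP_6b8987_gt
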