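import Pool.Agent.Lib.MP_6b8987_gt.PPack

set_option autoImplicit false

namespace Pool.Agent.Lib.MP_6b8987_gt

open MeasureTheory Set Filter Topology
open scoped ENNReal NNReal Pointwise ContDiff

variable {n : ℕ} {X : Type} [TopologicalSpace X] [ChartedSpace (R2n n) X] [T2Space X]
  [MeasurableSpace X] [BorelSpace X] {μ : Measure X} {D : Set (R2n n)}

/-- Compact sets that are asymptotically filled with the rate given by `κ`. -/
def Good (μ : Measure X) (D : Set (R2n n)) (κ : ℝ) (W : Set X) : Prop :=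
  IsCompact W ∧ Fills D W (μ.real W / κ)

omit [T2Space X] [BorelSpace X] in
theorem Good.empty {κ : ℝ} : Good μ D κ ∅ := ⟨isCompact_empty, by simpa using Fills.empty⟩

theorem Good.union [IsFiniteMeasure μ] {κ : ℝ} {W W' : Set X} (h : Good μ D κ W)
    (h' : Good μ D κ W') (hd : Disjoint W W') : Good μ D κ (W ∪ W') := by
  refine ⟨h.1.union h'.1, ?_⟩
  rw [measureReal_union hd h'.1.measurableSet, add_div]
  exact h.2.union h'.2 hd

theorem Good.biUnion [IsFiniteMeasure μ] {κ : ℝ} {ι : Type} {W : ι → Set X} (t : Finset ι)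
    (h : ∀ i ∈ t, Good μ D κ (W i)) (hd : (t : Set ι).PairwiseDisjoint W) :
    Good μ D κ (⋃ i ∈ t, W i) := by
  classical
  induction t using Finset.induction_on with
  | empty => simpa using Good.empty
  | insert a t ha ih =>
    rw [Finset.set_biUnion_insert]
    refine (h a (by simp)).union (ih (fun i hi => h i (by simp [hi])) (hd.subset (by simp))) ?_
    simp only [disjoint_iUnion_right]
    exact fun i hi => hd (by simp) (by simp [hi]) fun e => ha (e ▸ hi)

omit [T2Space X] [BorelSpace X] in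
theorem measure_eq_chart (hμ : IsSympVolume n μ) {e : OpenPartialHomeomorph X (R2n n)}
    (he : e ∈ atlas (R2n n) X) {U : Set X} (hU : U ⊆ e.source) (hm : MeasurableSet (e '' U)) :
    μ U = volume (e '' U) := by
  rw [← hμ e he _ (e.mapsTo.mono_left hU).image_subset hm]
  exact congrArg μ (e.symm_image_image_of_subset_source hU).symm

theorem disjoint_image_of_injOn {α β : Type} {f : α → β} {u s t : Set α} (hf : InjOn f u)
    (hs : s ⊆ u) (ht : t ⊆ u) (h : Disjoint s t) : Disjoint (f '' s) (f '' t) :=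
  disjoint_image_image fun _ ha _ hb e => h.ne_of_mem ha hb (hf (hs ha) (ht hb) e)

theorem exists_good_chart [IsFiniteMeasure μ] (hX : IsSympAtlas n X) (hμ : IsSympVolume n μ)
    {K : Set (Fin n → ℝ)} (hK : IsCompact K) (hi : (interior (lagCubeC K)).Nonempty)
    {N : ℕ} {S : Fin N → R2n n → R2n n} (hD : IsOpen D) (hS : ∀ i, Conf omega0 omega0 1 D (S i))
    (hm : ∀ i, MapsTo (S i) D (lagCube K))
    (hd : Pairwise fun i j => Disjoint (S i '' D) (S j '' D))
    {e : OpenPartialHomeomorph X (R2n n)} (he : e ∈ atlas (R2n n) X) {U : Set X} (hU : IsOpen U)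
    (hUe : U ⊆ e.source) {η : ℝ≥0∞} (hη : 0 < η) :
    ∃ W ⊆ U, Good μ D (volume.real K / N) W ∧ μ (U \ W) ≤ η := by
  have hV := e.isOpen_image_of_subset_source hU hUe
  have hVt : e '' U ⊆ e.target := (e.mapsTo.mono_left hUe).image_subset
  have hQ := isCompact_lagCubeC hK
  have hκ : volume.real K ≠ 0 := by
    rw [Measure.real, ← volume_lagCubeC]
    exact ENNReal.toReal_ne_zero.2
      ⟨(Measure.measure_pos_of_nonempty_interior _ hi).ne', hQ.measure_lt_top.ne⟩
  obtain ⟨t, h1, h2, h3⟩ := exists_pieces hQ hi hV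
    (measure_eq_chart hμ he hUe hV.measurableSet ▸ measure_ne_top μ U) hη
  refine ⟨⋃ a ∈ t, e.symm '' piece (lagCubeC K) a, ?_, Good.biUnion t (fun a ha => ?_) ?_, ?_⟩
  · simp only [iUnion_subset_iff]
    intro a ha
    rw [← e.symm_image_image_of_subset_source hUe]
    exact image_mono (h1 a ha).2
  · have h4 := (h1 a ha).2.trans hVt
    have h5 := isCompact_piece hQ a
    refine ⟨h5.image_of_continuousOn (e.continuousOn_symm.mono h4), ?_⟩
    have h6 : μ.real (e.symm '' piece (lagCubeC K) a) = a.2 ^ (2 * n) * volume.real K := by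
      rw [Measure.real, hμ e he _ h4 h5.measurableSet, volume_piece _ (h1 a ha).1, volume_lagCubeC,
        ENNReal.toReal_mul, ENNReal.toReal_ofReal (pow_pos (h1 a ha).1 _).le, Measure.real]
    rw [h6, div_div_eq_mul_div, mul_right_comm, mul_div_cancel_right₀ _ hκ, mul_comm]
    exact fills_piece hX he hD hS hm hd (h1 a ha).1 h4
  · intro a ha b hb hab
    exact disjoint_image_of_injOn e.symm.injOn ((h1 a ha).2.trans hVt) ((h1 b hb).2.trans hVt)
      (h2 ha hb hab)
  · refine le_trans (measure_mono ?_) ((hμ e he _ (sdiff_subset.trans hVt) (hV.measurableSet.diff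
      (Finset.measurableSet_biUnion t fun a _ => (isCompact_piece hQ a).measurableSet))).le.trans h3)
    rintro x ⟨hx, hx'⟩
    refine ⟨e x, ⟨mem_image_of_mem _ hx, fun h => hx' ?_⟩, e.left_inv (hUe hx)⟩
    simp only [mem_iUnion] at h ⊢
    obtain ⟨a, ha, h⟩ := h
    exact ⟨a, ha, e x, h, e.left_inv (hUe hx)⟩

theorem exists_good [SecondCountableTopology X] [IsFiniteMeasure μ] (hX : IsSympAtlas n X)
    (hμ : IsSympVolume n μ) {K : Set (Fin n → ℝ)} (hK : IsCompact K)
    (hi : (interior (lagCubeC K)).Nonempty) {N : ℕ} {S : Fin N → R2n n → R2n n} (hD : IsOpen D)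
    (hS : ∀ i, Conf omega0 omega0 1 D (S i)) (hm : ∀ i, MapsTo (S i) D (lagCube K))
    (hd : Pairwise fun i j => Disjoint (S i '' D) (S j '' D)) {η : ℝ≥0∞} (hη : 0 < η) :
    ∃ W, Good μ D (volume.real K / N) W ∧ μ Wᶜ ≤ η := by
  classical
  have key : ∀ (t : Finset X) (η : ℝ≥0∞), 0 < η → ∃ W, Good μ D (volume.real K / N) W ∧
      μ ((⋃ x ∈ t, (chartAt (R2n n) x).source) \ W) ≤ η := fun t => by
    induction t using Finset.induction_on with
    | empty => exact fun η _ => ⟨∅, Good.empty, by simp⟩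
    | insert a t _ ih =>
      intro η hη
      obtain ⟨W, h1, h2⟩ := ih _ (ENNReal.half_pos hη.ne')
      obtain ⟨W', h3, h4, h5⟩ := exists_good_chart hX hμ hK hi hD hS hm hd (chart_mem_atlas _ a)
        ((chartAt (R2n n) a).open_source.sdiff h1.1.isClosed) sdiff_subset
        (ENNReal.half_pos hη.ne')
      refine ⟨W ∪ W', h1.union h4 (disjoint_sdiff_right.mono_right h3), ?_⟩
      rw [Finset.set_biUnion_insert, union_sdiff_distrib, ← ENNReal.add_halves η]
      refine (measure_union_le _ _).trans (add_le_add ?_ ?_)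
      · rwa [← sdiff_sdiff]
      · exact (measure_mono (sdiff_subset_sdiff_right subset_union_left)).trans h2
  obtain ⟨s, hs, hs'⟩ := TopologicalSpace.countable_cover_nhds (α := X)
    (chart_source_mem_nhds (R2n n))
  obtain ⟨t, -, ht⟩ := exists_finset_cover MeasurableSet.univ (measure_ne_top μ _) hs
    (fun a _ => (chartAt (R2n n) a).open_source.measurableSet) (by simp [hs'])
    (ENNReal.half_pos hη.ne')
  obtain ⟨W, h1, h2⟩ := key t _ (ENNReal.half_pos hη.ne')
  refine ⟨W, h1, ?_⟩
  rw [← ENNReal.add_halves η]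
  refine le_trans (measure_mono fun x hx => ?_) ((measure_union_le _ _).trans (add_le_add ht h2))
  by_cases h : x ∈ ⋃ x ∈ t, (chartAt (R2n n) x).source
  · exact Or.inr ⟨h, hx⟩
  · exact Or.inl ⟨mem_univ _, h⟩

theorem measure_image_emb [SecondCountableTopology X] [Nonempty X] (hμ : IsSympVolume n μ)
    {U : Set (R2n n)} (hU : IsOpen U) {φ : R2n n → X} (h : IsSympEmbM U φ) :
    μ (φ '' U) = volume U := by
  obtain ⟨s, hs, hs'⟩ := TopologicalSpace.countable_cover_nhds (α := X)
    (chart_source_mem_nhds (R2n n))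
  have hne : s.Nonempty := by
    rw [nonempty_iff_ne_empty]
    rintro rfl
    exact empty_ne_univ (by simpa using hs')
  obtain ⟨f, rfl⟩ := hs.exists_eq_range hne
  let V : ℕ → Set (R2n n) := fun j => U ∩ φ ⁻¹' (chartAt (R2n n) (f j)).source
  have hV : ∀ j, IsOpen (V j) := fun j =>
    h.1.isOpen_inter_preimage hU (chartAt (R2n n) (f j)).open_source
  have hB : ∀ j, MeasurableSet (disjointed V j) :=
    MeasurableSet.disjointed fun j => (hV j).measurableSet
  have hBV : ∀ j, disjointed V j ⊆ V j := disjointed_subset V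
  have hBU : ∀ j, disjointed V j ⊆ U := fun j => (hBV j).trans inter_subset_left
  have hU' : U = ⋃ j, disjointed V j := by
    rw [iUnion_disjointed, ← inter_iUnion, ← preimage_iUnion, ← biUnion_range
      (g := fun x => (chartAt (R2n n) x).source), hs', preimage_univ, inter_univ]
  conv_lhs => rw [hU', image_iUnion]
  conv_rhs => rw [hU']
  rw [measure_iUnion (disjoint_disjointed V) hB, measure_iUnion (fun i j hij =>
      disjoint_image_of_injOn h.2.1 (hBU i) (hBU j) (disjoint_disjointed V hij))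
    fun j => (hB j).image_of_continuousOn_injOn (h.1.mono (hBU j)) (h.2.1.mono (hBU j))]
  refine tsum_congr fun j => ?_
  have h1 := (h.2.2 _ (chart_mem_atlas (R2n n) (f j))).conf (hV j)
  rw [measure_eq_chart hμ (chart_mem_atlas (R2n n) (f j))
    (image_subset_iff.2 ((hBV j).trans inter_subset_right)), ← image_comp,
    h1.volume_image (hB j) (hBV j)]
  rw [← image_comp]
  exact (hB j).image_of_continuousOn_injOn (h1.smooth.continuousOn.mono (hBV j))
    (h1.inj.mono (hBV j))

theorem packingNumberM_le_one [SecondCountableTopology X] [Nonempty X] (hμ : IsSympVolume n μ)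
    (hD : IsOpen D) (k : ℕ) : packingNumberM μ k D ≤ 1 := by
  refine iSup_le fun l => iSup_le fun hl => iSup_le ?_
  rintro ⟨φ, hφ, hd⟩
  have ho := hD.smul₀ hl.ne'
  refine ENNReal.div_le_of_le_mul ?_
  have h1 := measure_iUnion (μ := μ) hd fun i =>
    ho.measurableSet.image_of_continuousOn_injOn (hφ i).1 (hφ i).2.1
  simp only [measure_image_emb hμ ho (hφ _), tsum_fintype, Finset.sum_const, Finset.card_univ,
    Fintype.card_fin, nsmul_eq_mul] at h1
  rw [one_mul, ← h1]
  exact measure_mono (subset_univ _)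

omit [T2Space X] [BorelSpace X] in
theorem measure_univ_pos [Nonempty X] (hμ : IsSympVolume n μ) : μ univ ≠ 0 := by
  obtain ⟨x⟩ := ‹Nonempty X›
  let e := chartAt (R2n n) x
  refine (lt_of_lt_of_le ?_ (measure_mono (subset_univ (e.symm '' e.target)))).ne'
  rw [hμ e (chart_mem_atlas _ x) _ subset_rfl e.open_target.measurableSet]
  exact e.open_target.measure_pos _ ⟨_, mem_chart_target _ x⟩

theorem tendsto_scale (hn : 1 ≤ n) {T : ℝ} (hT : 0 < T) :
    ∃ l : ℕ → ℝ, Tendsto l atTop (𝓝[>] 0) ∧ ∀ k : ℕ, 0 < k → k * l k ^ (2 * n) = T := by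
  have hn' : 2 * n ≠ 0 := by omega
  refine ⟨fun k => (T / k) ^ (((2 * n : ℕ) : ℝ)⁻¹), tendsto_nhdsWithin_iff.2 ⟨?_, ?_⟩,
    fun k hk => ?_⟩
  · exact (tendsto_const_div_atTop_nhds_zero_nat T).rpow_const_nhds_zero (by positivity)
  · filter_upwards [eventually_gt_atTop 0] with k hk
    exact Real.rpow_pos_of_pos (by positivity) _
  · rw [Real.rpow_inv_natCast_pow (by positivity) hn']
    field_simp

/-- Several copies of `D` almost fill a Lagrangian product with the unit cube. -/
def FitsN (D : Set (R2n n)) : Prop :=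
  ∀ c : ℝ, 1 < c → ∃ K : Set (Fin n → ℝ), IsCompact K ∧ ∃ N : ℕ, 0 < N ∧
    ∃ S : Fin N → R2n n → R2n n, (∀ i, Conf omega0 omega0 1 D (S i)) ∧
    (∀ i, MapsTo (S i) D (lagCube K)) ∧ (Pairwise fun i j => Disjoint (S i '' D) (S j '' D)) ∧
    volume K ≤ ENNReal.ofReal c * N * volume D

theorem Fits.fitsN (h : Fits D) : FitsN D := fun c hc => by
  obtain ⟨K, hK, S, h1, h2, h3⟩ := h c hc
  exact ⟨K, hK, 1, one_pos, fun _ => S, fun _ => h1, fun _ => h2,
    fun i j hij => (hij (Subsingleton.elim i j)).elim, by simpa using h3⟩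

theorem packing_eq_one' [SecondCountableTopology X] [Nonempty X] (hn : 1 ≤ n)
    (hX : IsSympAtlas n X) (hμ : IsSympVolume n μ) (hfin : μ univ ≠ ⊤) (hD : IsOpen D)
    (hne : D.Nonempty) (hF : FitsN D) : asymptoticPackingM μ D = 1 := by
  have : IsFiniteMeasure μ := ⟨hfin.lt_top⟩
  refine le_antisymm (liminf_le_of_frequently_le
    (Frequently.of_forall (packingNumberM_le_one hμ hD))) ?_
  refine le_of_forall_lt_imp_le_of_dense fun θ' hθ' => ?_
  lift θ' to ℝ≥0 using hθ'.ne_top
  rcases eq_zero_or_pos θ' with rfl | hθ0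
  · simp
  obtain ⟨θ, hθ⟩ := θ'
  have h0 : 0 < θ := hθ0
  have h1 : θ < 1 := ENNReal.coe_lt_one_iff.1 hθ'
  obtain ⟨K, hK, N, hN, S', hS', hm', hd', hv⟩ := hF (2 / (1 + θ))
    (by rw [lt_div_iff₀ (by linarith)]; linarith)
  have hN' : (0 : ℝ) < N := by exact_mod_cast hN
  have hS := hS' ⟨0, hN⟩
  have hm := hm' ⟨0, hN⟩
  generalize S' ⟨0, hN⟩ = S at hS hm
  have hsub : S '' D ⊆ lagCubeC K := by
    rintro _ ⟨z, hz, rfl⟩
    exact ⟨(hm hz).1, fun i => ((hm hz).2 i).1.le, fun i => ((hm hz).2 i).2.le⟩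
  have hi : (interior (lagCubeC K)).Nonempty := by
    have : IsOpen (S '' D) := Symp.isOpen_image (J := JJ n) ⟨hD, hS.smooth.of_le (by norm_cast),
      hS.inj, fun x hx u v => by rw [inner_JJ, inner_JJ, hS.form x hx, one_mul]⟩ JJ_JJ
    exact (hne.image S).mono (interior_maximal hsub this)
  have hDK : volume D ≤ volume K := by
    rw [← hS.volume_image hD.measurableSet subset_rfl, ← volume_lagCubeC]
    exact measure_mono hsub
  have hDt : volume D ≠ ⊤ := ne_top_of_le_ne_top hK.measure_lt_top.ne hDK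
  have hd : 0 < volume.real D := ENNReal.toReal_pos (hD.measure_pos _ hne).ne' hDt
  have hκ : 0 < volume.real K / N :=
    div_pos (hd.trans_le (ENNReal.toReal_mono hK.measure_lt_top.ne hDK)) hN'
  have hκ' : volume.real K / N ≤ 2 / (1 + θ) * volume.real D := by
    have := ENNReal.toReal_mono (ENNReal.mul_ne_top (ENNReal.mul_ne_top ENNReal.ofReal_ne_top
      (ENNReal.natCast_ne_top N)) hDt) hv
    rw [ENNReal.toReal_mul, ENNReal.toReal_mul, ENNReal.toReal_ofReal (by positivity),
      ENNReal.toReal_natCast, mul_right_comm] at this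
    rwa [div_le_iff₀ hN']
  have hM : 0 < μ.real univ := ENNReal.toReal_pos (measure_univ_pos hμ) hfin
  have hη : 0 < μ.real univ * (1 - θ) / (1 + θ) / 2 := by
    have : 0 < 1 - θ := by linarith
    positivity
  obtain ⟨W, hW, hW'⟩ := exists_good hX hμ hK hi hD hS' hm' hd' (ENNReal.ofReal_pos.2 hη)
  have h2 : μ.real univ - μ.real univ * (1 - θ) / (1 + θ) / 2 ≤ μ.real W := by
    have h3 := measureReal_add_measureReal_compl (μ := μ) hW.1.measurableSet
    have h4 : μ.real Wᶜ ≤ _ := ENNReal.toReal_le_of_le_ofReal hη.le hW'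
    linarith
  have h3 : θ * μ.real univ / volume.real D < μ.real W / (volume.real K / N) := by
    rw [div_lt_div_iff₀ hd hκ]
    calc θ * μ.real univ * (volume.real K / N)
        ≤ θ * μ.real univ * (2 / (1 + θ) * volume.real D) := by gcongr
      _ = (μ.real univ - 2 * (μ.real univ * (1 - θ) / (1 + θ) / 2)) * volume.real D := by
        field_simp
        ring
      _ < _ := by
        gcongr
        linarith
  obtain ⟨l, hl, hl'⟩ := tendsto_scale hn (show 0 < θ * μ.real univ / volume.real D by positivity)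
  refine le_liminf_of_le (h := ?_)
  filter_upwards [hl.eventually (hW.2 _ (sub_pos.2 h3)), hl.eventually self_mem_nhdsWithin,
    eventually_gt_atTop 0] with k ⟨k', h4, h5⟩ h6 h7
  have h6' : 0 < l k := h6
  rw [sub_sub_cancel, ← hl' k h7] at h5
  obtain ⟨φ, h8, h9⟩ := h4.mono
    (Nat.cast_le.1 (le_of_mul_le_mul_right h5 (pow_pos h6' _)))
  refine le_iSup_of_le (l k) (le_iSup_of_le h6' (le_iSup_of_le ⟨φ, fun i => (h8 i).1, h9⟩ ?_))
  have h10 : Module.finrank ℝ (R2n n) = 2 * n := by simp [two_mul]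
  rw [Measure.addHaar_smul_of_nonneg _ h6'.le, h10, ← mul_assoc, ← ENNReal.ofReal_natCast,
    ← ENNReal.ofReal_mul (by positivity), hl' k h7, ← ofReal_measureReal hDt,
    ← ENNReal.ofReal_mul (by positivity), div_mul_cancel₀ _ hd.ne', ← ofReal_measureReal hfin,
    ← ENNReal.ofReal_div_of_pos hM, mul_div_cancel_right₀ _ hM.ne']
  exact (ENNReal.ofReal_eq_coe_nnreal hθ).ge

theorem packing_eq_one [SecondCountableTopology X] [Nonempty X] (hn : 1 ≤ n)
    (hX : IsSympAtlas n X) (hμ : IsSympVolume n μ) (hfin : μ univ ≠ ⊤) (hD : IsOpen D)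
    (hne : D.Nonempty) (hF : Fits D) : asymptoticPackingM μ D = 1 :=
  packing_eq_one' hn hX hμ hfin hD hne hF.fitsN

end Pool.Agent.Lib.MP_6b8987_gt
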