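import Pool.Agent.Lib.MP_6b8987_gt.HPack
import Pool.Agent.Lib.MP_6b8987_gt.PMain

set_option autoImplicit false

namespace Pool.Agent.Lib.MP_6b8987_gt

open MeasureTheory Module Set Filter Topology Metric
open scoped RealInnerProductSpace ENNReal Pointwise ContDiff

variable {n : ℕ}

theorem volume_smul_set (D : Set (R2n n)) {l : ℝ} (hl : 0 < l) :
    volume (l • D) = ENNReal.ofReal (l ^ (2 * n)) * volume D := by
  have hN : finrank ℝ (R2n n) = 2 * n := by simp [two_mul]
  rw [Measure.addHaar_smul_of_nonneg _ hl.le, hN]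

/-- The upper bound: compact holes of the domain are wasted. -/
theorem packingNumber_le_hole (hn : 2 ≤ n) {D G X : Set (R2n n)} (hDo : IsOpen D)
    (hD : IsConnected D) (hG : IsOpen G) (hGv : volume G ≠ ⊤) (hDG : D ⊆ G)
    (hK : IsCompact (G \ D)) (hXo : IsOpen X)
    (hX : ∀ y ∉ X, ¬ Bornology.IsBounded (connectedComponentIn Xᶜ y)) (k : ℕ) :
    packingNumber k D X ≤ volume D / volume G := by
  have hN : finrank ℝ (R2n n) = 2 * n := by simp [two_mul]
  refine iSup_le fun l => iSup_le fun hl => iSup_le ?_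
  rintro ⟨φ, hφ, hd⟩
  have hG0 : volume G ≠ 0 := (hG.measure_pos _ (hD.nonempty.mono hDG)).ne'
  have h1 := packing_bound_hole volume JJ_skew JJ_JJ (by omega) (D := l • D) (G := l • G)
    (hD.image _ (continuous_const_smul l).continuousOn) (hG.smul₀ hl.ne') (smul_set_mono hDG)
    (by rw [← smul_set_sdiff₀ hl.ne']; exact hK.smul l) hX hXo.measurableSet (φ := φ)
    (fun i => ⟨hDo.smul₀ hl.ne', (hφ i).1.of_le (by norm_cast), (hφ i).2.1, fun x hx u v => by
        rw [inner_JJ, inner_JJ]; exact (hφ i).2.2.2 x hx u v⟩) (fun i => (hφ i).2.2.1) hd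
  refine ENNReal.div_le_of_le_mul ?_
  rw [volume_smul_set _ hl] at h1 ⊢
  calc k * (ENNReal.ofReal (l ^ (2 * n)) * volume D)
      = k * (ENNReal.ofReal (l ^ (2 * n)) * (volume D / volume G * volume G)) := by
        rw [ENNReal.div_mul_cancel hG0 hGv]
    _ = volume D / volume G * (k * (ENNReal.ofReal (l ^ (2 * n)) * volume G)) := by ring
    _ ≤ _ := by gcongr

/-- Restricting embeddings to an open subset. -/
theorem mul_packingNumber_le {D G X : Set (R2n n)} (hG0 : volume G ≠ 0) (hGv : volume G ≠ ⊤)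
    (hDG : D ⊆ G) (k : ℕ) :
    volume D / volume G * packingNumber k G X ≤ packingNumber k D X := by
  simp only [packingNumber, ENNReal.mul_iSup, iSup_le_iff]
  rintro l hl ⟨φ, hφ, hd⟩
  have hs : l • D ⊆ l • G := smul_set_mono hDG
  refine le_iSup_of_le l (le_iSup_of_le hl (le_iSup_of_le ⟨φ, fun i => ⟨(hφ i).1.mono hs,
    (hφ i).2.1.mono hs, (hφ i).2.2.1.mono_left hs, fun x hx => (hφ i).2.2.2 x (hs hx)⟩,
    fun i j hij => (hd hij).mono (image_mono hs) (image_mono hs)⟩ (le_of_eq ?_)))
  rw [volume_smul_set _ hl, volume_smul_set _ hl, ← mul_div_assoc]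
  congr 1
  calc volume D / volume G * (k * (ENNReal.ofReal (l ^ (2 * n)) * volume G))
      = k * (ENNReal.ofReal (l ^ (2 * n)) * (volume D / volume G * volume G)) := by ring
    _ = _ := by rw [ENNReal.div_mul_cancel hG0 hGv]

/-- Complete Reinhardt domains fill open subsets of Euclidean space. -/
theorem one_le_asymptoticPacking (hn : 1 ≤ n) {G X : Set (R2n n)} (hG : IsOpen G)
    (hne : G.Nonempty) (hb : Bornology.IsBounded G) (hR : IsCompleteReinhardt G) (hX : IsOpen X)
    (hXne : X.Nonempty) (hXv : volume X ≠ ⊤) : 1 ≤ asymptoticPacking G X := by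
  have : Nonempty X := hXne.to_subtype
  let e := hX.isOpenEmbedding_subtypeVal.toOpenPartialHomeomorph
  let _ : ChartedSpace (R2n n) X := hX.isOpenEmbedding_subtypeVal.singletonChartedSpace
  have h1 : IsSympAtlas n X := by
    rintro _ rfl _ rfl
    refine Conf.emb (Conf.congr (φ := id) ⟨e.isOpen_inter_preimage_symm e.open_source,
      contDiffOn_id, injOn_id _, fun x _ u v => by simp⟩ fun x hx => e.right_inv hx.1)
  have h2 : IsSympVolume n ((volume : Measure (R2n n)).comap (Subtype.val : X → R2n n)) := by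
    rintro _ rfl A hA hA'
    rw [(MeasurableEmbedding.subtype_coe hX.measurableSet).comap_apply]
    exact congrArg _ (e.image_symm_image_of_subset_target hA)
  have h3 : ((volume : Measure (R2n n)).comap (Subtype.val : X → R2n n)) univ = volume X := by
    rw [(MeasurableEmbedding.subtype_coe hX.measurableSet).comap_apply, image_univ,
      Subtype.range_coe]
  rw [← packing_eq_one hn h1 h2 (h3 ▸ hXv) hG hne (fits_reinhardt hG hb hR)]
  refine liminf_le_liminf (Eventually.of_forall fun k => ?_)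
  refine iSup_le fun l => iSup_le fun hl => iSup_le ?_
  rintro ⟨φ, hφ, hd⟩
  refine le_iSup_of_le l (le_iSup_of_le hl (le_iSup_of_le ⟨fun i => Subtype.val ∘ φ i,
    fun i => ?_, fun i j hij => ?_⟩ (by rw [h3])))
  · have h4 := (hφ i).2.2 e rfl
    have h5 : l • G ∩ φ i ⁻¹' e.source = l • G := by simp [e]
    rw [h5] at h4
    exact ⟨h4.1, h4.2.1, fun x _ => (φ i x).2, h4.2.2.2⟩
  · simp only [image_comp]
    exact (disjoint_image_iff Subtype.val_injective).2 (hd hij)

theorem norm_sq_eq_sum_sqMod (z : R2n n) : ‖z‖ ^ 2 = ∑ i, sqMod z i := by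
  rw [EuclideanSpace.norm_sq_eq, Fintype.sum_sum_type, ← Finset.sum_add_distrib]
  simp [sqMod]

theorem isCompleteReinhardt_ball : IsCompleteReinhardt (ball (0 : R2n n) 1) := by
  intro z hz w hw
  rw [mem_ball_zero_iff] at hz ⊢
  refine lt_of_le_of_lt (le_of_sq_le_sq ?_ (norm_nonneg z)) hz
  rw [norm_sq_eq_sum_sqMod, norm_sq_eq_sum_sqMod]
  exact Finset.sum_le_sum fun i _ => hw i

theorem ball_diff_shell {a : ℝ} (ha1 : a < 1) :
    ball (0 : R2n n) 1 \ shell n a = closedBall 0 a := by
  ext x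
  simp only [shell, Set.mem_sdiff, mem_ball_zero_iff, mem_ofPred_eq, mem_closedBall_zero_iff, not_and,
    not_lt]
  constructor
  · rintro ⟨h1, h2⟩
    by_contra h
    exact absurd (h2 (not_le.1 h)) (not_le.2 h1)
  · exact fun h => ⟨h.trans_lt ha1, fun h' => absurd h (not_le.2 h')⟩

theorem volume_shell_div (hn : 1 ≤ n) {a : ℝ} (ha : 0 < a) (ha1 : a < 1) :
    volume (shell n a) / volume (ball (0 : R2n n) 1) = ENNReal.ofReal (1 - a ^ (2 * n)) := by
  have hN : finrank ℝ (R2n n) = 2 * n := by simp [two_mul]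
  have : Nontrivial (R2n n) := Module.nontrivial_of_finrank_pos (R := ℝ) (by omega)
  have h1 : shell n a = ball (0 : R2n n) 1 \ closedBall 0 a := by
    ext x
    simp [shell, and_comm]
  have h0 : volume (ball (0 : R2n n) 1) ≠ 0 := (measure_ball_pos _ _ one_pos).ne'
  rw [h1, measure_sdiff (closedBall_subset_ball ha1) measurableSet_closedBall.nullMeasurableSet
    measure_closedBall_lt_top.ne, Measure.addHaar_closedBall _ _ ha.le, hN,
    ENNReal.ofReal_sub _ (by positivity), ENNReal.sub_div (fun _ _ => h0),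
    ENNReal.div_self h0 measure_ball_lt_top.ne, mul_div_assoc,
    ENNReal.div_self h0 measure_ball_lt_top.ne]
  simp

/-- Nonempty convex sets satisfy the hypothesis put on the target. -/
theorem not_isBounded_component_of_convex {X : Set (R2n n)} (hX : Convex ℝ X) (hne : X.Nonempty)
    {y : R2n n} (hy : y ∉ X) : ¬ Bornology.IsBounded (connectedComponentIn Xᶜ y) := by
  obtain ⟨x₀, hx₀⟩ := hne
  have hne : 0 < ‖y - x₀‖ := norm_pos_iff.mpr (sub_ne_zero.mpr fun e => hy (e ▸ hx₀))
  have hT : IsPreconnected ((fun t : ℝ => y + t • (y - x₀)) '' Ici 0) :=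
    isPreconnected_Ici.image _ (by fun_prop)
  have hTX : (fun t : ℝ => y + t • (y - x₀)) '' Ici 0 ⊆ Xᶜ := by
    rintro _ ⟨t, ht, rfl⟩ hz
    have ht' : 0 < 1 + t := by linarith [mem_Ici.mp ht]
    have := hX hx₀ hz (a := t / (1 + t)) (b := 1 / (1 + t))
      (div_nonneg ht ht'.le) (by positivity) (by field_simp; ring)
    apply hy
    have e : (t / (1 + t)) • x₀ + (1 / (1 + t)) • (y + t • (y - x₀)) = y := by
      have : (t / (1 + t)) • x₀ + (1 / (1 + t)) • (y + t • (y - x₀)) =
          ((1 / (1 + t)) * (1 + t)) • y := by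
        rw [div_eq_mul_one_div t]; module
      rw [this, one_div_mul_cancel ht'.ne', one_smul]
    rwa [e] at this
  intro hb
  obtain ⟨R, hR⟩ := isBounded_iff_forall_norm_le.1 (hb.subset
    (hT.subset_connectedComponentIn ⟨0, mem_Ici.mpr le_rfl, by simp⟩ hTX))
  have h1 := hR _ ⟨(|R| + ‖y‖ + 1) / ‖y - x₀‖, mem_Ici.mpr (by positivity), rfl⟩
  have h2 := norm_sub_le (y + ((|R| + ‖y‖ + 1) / ‖y - x₀‖) • (y - x₀)) y
  rw [add_sub_cancel_left, norm_smul, Real.norm_of_nonneg (by positivity),
    div_mul_cancel₀ _ hne.ne'] at h2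
  simp only at h1
  linarith [le_abs_self R]

end Pool.Agent.Lib.MP_6b8987_gt
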