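import Pool.Agent.Lib.MP_6b8987_gt.Pack

set_option autoImplicit false

namespace Pool.Agent.Lib.MP_6b8987_gt

open MeasureTheory Module Set Filter Topology Metric
open scoped RealInnerProductSpace Manifold

variable {E : Type*} [NormedAddCommGroup E] [InnerProductSpace ℝ E] [FiniteDimensional ℝ E]

/-- A cut-off function equal to one near a compact subset of an open set. -/
theorem exists_cutoff {L G : Set E} (hL : IsCompact L) (hG : IsOpen G) (hLG : L ⊆ G) :
    ∃ (χ : E → ℝ) (K : Set E), ContDiff ℝ 2 χ ∧ HasCompactSupport χ ∧ (∀ x, 0 ≤ χ x) ∧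
      (∀ x, χ x ≤ 1) ∧ (∀ x ∈ L, χ x = 1) ∧ IsCompact K ∧ K ⊆ G \ L ∧
      ∀ x ∉ K, (χ =ᶠ[𝓝 x] fun _ => (0 : ℝ)) ∨ χ =ᶠ[𝓝 x] fun _ => (1 : ℝ) := by
  obtain ⟨L', hL', h1, h2⟩ := exists_compact_between hL hG hLG
  obtain ⟨f, f1, f0, f01⟩ := exists_contMDiffMap_one_nhds_of_subset_interior (n := 2) 𝓘(ℝ, E)
    hL.isClosed h1
  refine ⟨f, L' \ interior {x | f x = 1}, f.contMDiff.contDiff, HasCompactSupport.intro hL' f0,
    fun x => (f01 x).1, fun x => (f01 x).2, fun x hx => f1.self_of_nhdsSet x hx,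
    hL'.diff isOpen_interior, fun x hx => ⟨h2 hx.1, fun hx' => hx.2 ?_⟩, fun x hx => ?_⟩
  · exact mem_interior_iff_mem_nhds.2 (f1.filter_mono (nhds_le_nhdsSet hx'))
  · by_cases hx' : x ∈ L'
    · right
      have : x ∈ interior {x | f x = 1} := by
        by_contra h
        exact hx ⟨hx', h⟩
      exact mem_interior_iff_mem_nhds.1 this
    · left
      filter_upwards [hL'.isClosed.isOpen_compl.mem_nhds hx'] with y hy using f0 y hy

variable [MeasurableSpace E] [BorelSpace E] (μ : Measure E) [μ.IsAddHaarMeasure]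

theorem exists_filled_of_cutoff {J : E →L[ℝ] E} (hJ : ∀ u v, ⟪J u, v⟫ = -⟪u, J v⟫)
    (hJ2 : ∀ v, J (J v) = -v) (hN : 2 < finrank ℝ E) {S K : Set E} (hS : IsPreconnected S)
    (hK : IsCompact K) (hKS : K ⊆ S) {χ : E → ℝ} (hχ : ContDiff ℝ 2 χ)
    (hχc : HasCompactSupport χ) (hχ0 : ∀ x, 0 ≤ χ x) (hχ1 : ∀ x, χ x ≤ 1)
    (hout : ∀ x ∉ K, (χ =ᶠ[𝓝 x] fun _ => (0 : ℝ)) ∨ χ =ᶠ[𝓝 x] fun _ => (1 : ℝ))
    {x₀ : E} (hx₀S : x₀ ∈ S) (hx₀ : χ x₀ = 1) {φ : E → E} (h : Symp J S φ) :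
    ∃ C Ψ, Filled μ (φ '' S) C (∫ x, χ x ∂μ) Ψ := by
  obtain ⟨Ψ, m, R, hd, hfar, hz, hφ, hint⟩ := h.exists_fill μ hJ hJ2 hN hS hK hKS hχ
    hχc (fun x hx => by
      rcases hout x hx with h | h <;> rw [h.fderiv_eq] <;> simp)
  set C := φ '' K
  have hC : IsCompact C := hK.image_of_continuousOn (h.contDiffOn.continuousOn.mono hKS)
  have hloc := locally_const_of_fderiv hd hC.isClosed hz
  have : Nontrivial E := Module.nontrivial_of_finrank_pos (R := ℝ) (by omega)
  have hval : ∀ y ∉ C, Ψ y = m ∨ Ψ y = 1 + m := by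
    have := eq_const_of_cover (A := Cᶜ) (A' := ∅) (Ω := φ '' S)
      hC.isClosed.isOpen_compl isOpen_empty (h.isOpen_image hJ2) (fun y => by
        by_cases hy : y ∈ C
        · exact Or.inr (Or.inr (image_mono hKS hy))
        · exact Or.inl hy) (disjoint_empty _)
      (F := fun y => (Ψ y - m) * (Ψ y - (1 + m))) (c := 0)
      (fun y hy => (hloc y hy).mono fun z hz => by simp only [hz]) (by
        rintro _ hy ⟨x, hx, rfl⟩
        rw [hφ x hx]
        rcases hout x (fun hx' => hy ⟨x, hx', rfl⟩) with h | h <;> simp [h.self_of_nhds])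
      ⟨_, x₀, hx₀S, rfl⟩
    intro y hy
    simpa only [mul_eq_zero, sub_eq_zero] using this y hy
  have hbd : ∀ y, m ≤ Ψ y ∧ Ψ y ≤ 1 + m := by
    intro y
    by_cases hy : y ∈ C
    · obtain ⟨x, hx, rfl⟩ := hy
      rw [hφ x (hKS hx)]
      constructor <;> linarith [hχ0 x, hχ1 x]
    · rcases hval y hy with h | h <;> rw [h] <;> constructor <;> linarith
  obtain ⟨R', hR'0, hR'⟩ := hC.isBounded.exists_pos_norm_le
  have hfar' : ∀ y, max R R' < ‖y‖ → Ψ y = 0 ∧ y ∉ C := fun y hy =>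
    ⟨hfar y ((le_max_left _ _).trans_lt hy),
      fun hy' => not_le.mpr ((le_max_right _ _).trans_lt hy) (hR' y hy')⟩
  obtain rfl : m = 0 := by
    obtain ⟨y, hy⟩ := exists_norm_eq E (c := max R R' + 1) (by positivity)
    obtain ⟨h3, h4⟩ := hfar' y (by linarith)
    rcases hval y h4 with h5 | h5
    · rw [← h5, h3]
    · exfalso
      have h6 : ∫ y, Ψ y ∂μ ≤ 0 := integral_nonpos fun z => by
        have := (hbd z).2
        simp only [Pi.zero_apply]
        linarith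
      exact not_lt.mpr (hint ▸ h6) (hχ.continuous.integral_pos_of_hasCompactSupport_nonneg_nonzero
        hχc hχ0 (x := x₀) (by rw [hx₀]; exact one_ne_zero))
  refine ⟨C, Ψ, h.isOpen_image hJ2, hS.image _ h.contDiffOn.continuousOn, hC.isClosed,
    image_mono hKS, hd.continuous, ⟨_, hfar'⟩, hloc, by simpa using hval,
    fun y => (hbd y).1, fun y => by simpa using (hbd y).2, ⟨_, ⟨x₀, hx₀S, rfl⟩, ?_⟩, hint⟩
  rw [hφ x₀ hx₀S, add_zero, hx₀]

omit [FiniteDimensional ℝ E] [BorelSpace E] [μ.IsAddHaarMeasure] [InnerProductSpace ℝ E] in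
theorem Filled.eq_zero_of_unbounded {Ω C X : Set E} {v : ℝ} {Ψ : E → ℝ} (h : Filled μ Ω C v Ψ)
    (hΩ : Ω ⊆ X) {y : E} (hy : y ∉ X)
    (hX : ¬ Bornology.IsBounded (connectedComponentIn Xᶜ y)) : Ψ y = 0 := by
  obtain ⟨R, hR⟩ := h.far
  obtain ⟨z, hz, hz'⟩ : ∃ z ∈ connectedComponentIn Xᶜ y, R < ‖z‖ := by
    by_contra hcon
    push Not at hcon
    exact hX (isBounded_iff_forall_norm_le.2 ⟨R, hcon⟩)
  rw [eq_of_locally_const isPreconnected_connectedComponentIn (fun w hw => h.loc w fun hw' =>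
    (connectedComponentIn_subset Xᶜ y hw : w ∉ X) (hΩ (h.sub hw')))
    (mem_connectedComponentIn hy) hz]
  exact (hR z hz').1

/-- Disjoint symplectic copies of a connected open set need as much volume as the same number of
copies with the compact holes filled in. -/
theorem packing_bound_hole {J : E →L[ℝ] E} (hJ : ∀ u v, ⟪J u, v⟫ = -⟪u, J v⟫)
    (hJ2 : ∀ v, J (J v) = -v) (hN : 2 < finrank ℝ E) {D G : Set E} (hD : IsConnected D)
    (hG : IsOpen G) (hDG : D ⊆ G) (hK : IsCompact (G \ D)) {X : Set E}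
    (hX : ∀ y ∉ X, ¬ Bornology.IsBounded (connectedComponentIn Xᶜ y)) (hXm : MeasurableSet X)
    {k : ℕ} {φ : Fin k → E → E} (h : ∀ i, Symp J D (φ i)) (hφX : ∀ i, MapsTo (φ i) D X)
    (hd : Pairwise fun i j => Disjoint (φ i '' D) (φ j '' D)) :
    k * μ G ≤ μ X := by
  have : Nontrivial E := Module.nontrivial_of_finrank_pos (R := ℝ) (by omega)
  obtain ⟨x₀, hx₀⟩ := hD.nonempty
  have key : ∀ L ⊆ G, IsCompact L → k * μ L ≤ μ X := by
    intro L hLG hL
    obtain ⟨χ, K, c1, c2, c3, c4, c5, c6, c7, c8⟩ := exists_cutoff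
      ((hL.union hK).insert x₀) hG
      (insert_subset (hDG hx₀) (union_subset hLG sdiff_subset))
    have hKD : K ⊆ D := fun x hx => by
      by_contra hx'
      exact (c7 hx).2 (Or.inr (Or.inr ⟨(c7 hx).1, hx'⟩))
    choose C Ψ hF using fun i => exists_filled_of_cutoff μ hJ hJ2 hN hD.isPreconnected c6 hKD
      c1 c2 c3 c4 c8 hx₀ (c5 x₀ (mem_insert _ _)) (h i)
    have h1 : ∀ y, ∑ i, ENNReal.ofReal (Ψ i y) ≤ X.indicator 1 y := by
      intro y
      by_cases hy : y ∈ X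
      · rw [indicator_of_mem hy, Pi.one_apply]
        by_cases h0 : ∃ i, Ψ i y ≠ 0
        · obtain ⟨i, hi⟩ := h0
          rw [Finset.sum_eq_single i (fun j _ hj => by
            rw [((hF i).mul_eq_zero (hF j) (hd hj.symm) y).resolve_left hi]; simp) (by simp)]
          exact ENNReal.ofReal_le_one.mpr ((hF i).le_one y)
        · push Not at h0
          simp [h0]
      · simp [fun i => (hF i).eq_zero_of_unbounded μ (hφX i).image_subset hy (hX y hy)]
    have h2 : ∀ i, μ L ≤ ∫⁻ y, ENNReal.ofReal (Ψ i y) ∂μ := by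
      intro i
      rw [← ofReal_integral_eq_lintegral_ofReal (hF i).integrable
        (Eventually.of_forall (hF i).nonneg), (hF i).int,
        ofReal_integral_eq_lintegral_ofReal (c1.continuous.integrable_of_hasCompactSupport c2)
          (Eventually.of_forall c3),
        ← lintegral_indicator_one hL.measurableSet]
      refine lintegral_mono fun x => ?_
      by_cases hx : x ∈ L
      · rw [indicator_of_mem hx, c5 x (Or.inr (Or.inl hx))]; simp
      · rw [indicator_of_notMem hx]; exact zero_le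
    calc k * μ L = ∑ _i : Fin k, μ L := by simp
      _ ≤ ∑ i, ∫⁻ y, ENNReal.ofReal (Ψ i y) ∂μ := Finset.sum_le_sum fun i _ => h2 i
      _ = ∫⁻ y, ∑ i, ENNReal.ofReal (Ψ i y) ∂μ := (lintegral_finsetSum _ fun i _ =>
          (hF i).cont.measurable.ennreal_ofReal).symm
      _ ≤ ∫⁻ y, X.indicator 1 y ∂μ := lintegral_mono h1
      _ = μ X := lintegral_indicator_one hXm
  rw [hG.measure_eq_iSup_isCompact μ]
  simp only [ENNReal.mul_iSup, iSup_le_iff]
  exact key

end Pool.Agent.Lib.MP_6b8987_gt
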