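import Pool.Agent.Lib.MP_6b8987_gt.Pack
import Pool.Agent.Lib.MP_6b8987_gt.Defs

set_option autoImplicit false

namespace Pool.Agent.Lib.MP_6b8987_gt

open MeasureTheory Module Set Filter Topology Metric
open scoped RealInnerProductSpace ENNReal Pointwise ContDiff

/-- The standard complex structure. -/
noncomputable def JJ (n : ℕ) : R2n n →L[ℝ] R2n n :=
  LinearMap.toContinuousLinearMap
    { toFun := fun u => WithLp.toLp 2 (Sum.elim (fun i => -u (Sum.inr i)) fun i => u (Sum.inl i))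
      map_add' := by
        intro u v
        ext j
        cases j <;> simp [add_comm]
      map_smul' := by
        intro c u
        ext j
        cases j <;> simp }

theorem JJ_inl {n : ℕ} (u : R2n n) (i : Fin n) : JJ n u (Sum.inl i) = -u (Sum.inr i) := rfl

theorem JJ_inr {n : ℕ} (u : R2n n) (i : Fin n) : JJ n u (Sum.inr i) = u (Sum.inl i) := rfl

theorem JJ_JJ {n : ℕ} (u : R2n n) : JJ n (JJ n u) = -u := by
  ext j
  cases j <;> simp [JJ_inl, JJ_inr]

theorem inner_JJ {n : ℕ} (u v : R2n n) : ⟪JJ n u, v⟫ = omega0 u v := by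
  rw [PiLp.inner_apply, Fintype.sum_sum_type, omega0, ← Finset.sum_add_distrib]
  refine Finset.sum_congr rfl fun i _ => ?_
  simp only [JJ_inl, JJ_inr, RCLike.inner_apply, conj_trivial]
  ring

theorem JJ_skew {n : ℕ} (u v : R2n n) : ⟪JJ n u, v⟫ = -⟪u, JJ n v⟫ := by
  rw [real_inner_comm (JJ n v) u, inner_JJ, inner_JJ, omega0, omega0, ← Finset.sum_neg_distrib]
  exact Finset.sum_congr rfl fun i _ => by ring

theorem smul_shell (n : ℕ) (a : ℝ) {l : ℝ} (hl : 0 < l) :
    l • shell n a = {x | ‖x‖ ∈ Ioo (l * a) l} := by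
  ext x
  rw [mem_smul_set_iff_inv_smul_mem₀ hl.ne']
  simp only [shell, mem_ofPred_eq, mem_Ioo, norm_smul, norm_inv, Real.norm_eq_abs, abs_of_pos hl]
  rw [lt_inv_mul_iff₀ hl, inv_mul_lt_iff₀ hl, mul_one]

theorem packingNumber_le {n : ℕ} (hn : 2 ≤ n) {a : ℝ} (ha : 0 < a) (ha1 : a < 1)
    {X : Set (R2n n)} (hXo : IsOpen X) (hXc : Convex ℝ X) (k : ℕ) :
    packingNumber k (shell n a) X ≤ ENNReal.ofReal (1 - a ^ (2 * n)) := by
  have hN : finrank ℝ (R2n n) = 2 * n := by simp [two_mul]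
  have : Nontrivial (R2n n) := Module.nontrivial_of_finrank_pos (R := ℝ) (by omega)
  refine iSup_le fun l => iSup_le fun hl => iSup_le ?_
  rintro ⟨φ, hφ, hd⟩
  simp only [smul_shell n a hl] at hφ hd ⊢
  have hla : l * a < l := by nlinarith
  have h1 := packing_bound volume JJ_skew JJ_JJ (by omega) (mul_pos hl ha) hla hXc
    hXo.measurableSet (φ := φ) (fun i => ⟨isOpen_Ioo.preimage continuous_norm,
      (hφ i).1.of_le (by norm_cast), (hφ i).2.1, fun x hx u v => by
        rw [inner_JJ, inner_JJ]; exact (hφ i).2.2.2 x hx u v⟩) (fun i => (hφ i).2.2.1) hd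
  have h2 : volume {x : R2n n | ‖x‖ ∈ Ioo (l * a) l} ≤
      ENNReal.ofReal (1 - a ^ (2 * n)) * volume (ball (0 : R2n n) l) := by
    have h3 : {x : R2n n | ‖x‖ ∈ Ioo (l * a) l} ⊆ ball 0 l \ ball 0 (l * a) := fun x hx =>
      ⟨by simpa using hx.2, by simpa using hx.1.le⟩
    refine (measure_mono h3).trans ?_
    rw [measure_sdiff (ball_subset_ball hla.le) measurableSet_ball.nullMeasurableSet
      measure_ball_lt_top.ne, mul_comm l a, Measure.addHaar_ball_mul _ _ ha.le, hN,
      ENNReal.ofReal_sub _ (by positivity), ENNReal.sub_mul (fun _ _ => measure_ball_lt_top.ne)]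
    simp
  refine ENNReal.div_le_of_le_mul ?_
  calc k * volume {x : R2n n | ‖x‖ ∈ Ioo (l * a) l}
      ≤ k * (ENNReal.ofReal (1 - a ^ (2 * n)) * volume (ball (0 : R2n n) l)) := by gcongr
    _ = ENNReal.ofReal (1 - a ^ (2 * n)) * (k * volume (ball (0 : R2n n) l)) := by ring
    _ ≤ _ := by gcongr

theorem isConnected_shell {n : ℕ} (hn : 2 ≤ n) {a : ℝ} (ha : 0 < a) (ha1 : a < 1) :
    IsConnected (shell n a) := by
  have hN : finrank ℝ (R2n n) = 2 * n := by simp [two_mul]
  have : Nontrivial (R2n n) := Module.nontrivial_of_finrank_pos (R := ℝ) (by omega)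
  obtain ⟨x, hx⟩ := exists_norm_eq (R2n n) (c := (a + 1) / 2) (by positivity)
  exact ⟨⟨x, by rw [hx]; linarith, by rw [hx]; linarith⟩,
    isPreconnected_norm_mem (I := Ioo a 1) (by omega) isPreconnected_Ioo fun r hr => ha.trans hr.1⟩

end Pool.Agent.Lib.MP_6b8987_gt
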