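import Pool.Agent.Lib.MP_6b8987_gt.Defs

set_option autoImplicit false

namespace Pool.Agent.Lib.MP_6b8987_gt

open MeasureTheory Set Filter
open scoped ENNReal Pointwise ContDiff

/-- The atlas of `X` consists of Darboux charts: all transition maps are smooth and symplectic. -/
def IsSympAtlas (n : ℕ) (X : Type) [TopologicalSpace X] [ChartedSpace (R2n n) X] : Prop :=
  ∀ e ∈ atlas (R2n n) X, ∀ e' ∈ atlas (R2n n) X,
    IsSympEmb (e.target ∩ e.symm ⁻¹' e'.source) univ (e' ∘ e.symm)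

/-- `μ` is the symplectic volume of `X`: it is Lebesgue measure in every chart. -/
def IsSympVolume (n : ℕ) {X : Type} [TopologicalSpace X] [ChartedSpace (R2n n) X]
    [MeasurableSpace X] (μ : Measure X) : Prop :=
  ∀ e ∈ atlas (R2n n) X, ∀ A ⊆ e.target, MeasurableSet A → μ (e.symm '' A) = volume A

/-- `φ` is a symplectic embedding of the open set `U` into the manifold `X`. -/
def IsSympEmbM {n : ℕ} {X : Type} [TopologicalSpace X] [ChartedSpace (R2n n) X]
    (U : Set (R2n n)) (φ : R2n n → X) : Prop :=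
  ContinuousOn φ U ∧ InjOn φ U ∧
    ∀ e ∈ atlas (R2n n) X, IsSympEmb (U ∩ φ ⁻¹' e.source) univ (e ∘ φ)

/-- The `k`-th packing number `p_{k,D}(X)` of a manifold `X` with volume `μ`. -/
noncomputable def packingNumberM {n : ℕ} {X : Type} [TopologicalSpace X] [ChartedSpace (R2n n) X]
    [MeasurableSpace X] (μ : Measure X) (k : ℕ) (D : Set (R2n n)) : ℝ≥0∞ :=
  ⨆ (l : ℝ) (_ : 0 < l) (_ : ∃ φ : Fin k → R2n n → X, (∀ i, IsSympEmbM (l • D) (φ i)) ∧
    Pairwise fun i j => Disjoint (φ i '' (l • D)) (φ j '' (l • D))),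
    k * volume (l • D) / μ univ

/-- The asymptotic packing number `p_D(X)`. -/
noncomputable def asymptoticPackingM {n : ℕ} {X : Type} [TopologicalSpace X]
    [ChartedSpace (R2n n) X] [MeasurableSpace X] (μ : Measure X) (D : Set (R2n n)) : ℝ≥0∞ :=
  liminf (fun k => packingNumberM μ k D) atTop

/-- The squared modulus of the `i`-th complex coordinate. -/
def sqMod {n : ℕ} (z : R2n n) (i : Fin n) : ℝ := z (Sum.inl i) ^ 2 + z (Sum.inr i) ^ 2

/-- Complete Reinhardt (monotone toric) sets. -/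
def IsCompleteReinhardt {n : ℕ} (D : Set (R2n n)) : Prop :=
  ∀ z ∈ D, ∀ w : R2n n, (∀ i, sqMod w i ≤ sqMod z i) → w ∈ D

/-- The Lagrangian product of `K` with the open unit cube. -/
def lagCube {n : ℕ} (K : Set (Fin n → ℝ)) : Set (R2n n) :=
  {z | (fun i => z (Sum.inl i)) ∈ K ∧ ∀ i, z (Sum.inr i) ∈ Ioo (0 : ℝ) 1}

end Pool.Agent.Lib.MP_6b8987_gt
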