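import Pool.Agent.Lib.MP_6b8987_gt.Main
import Pool.Agent.Lib.MP_6b8987_gt.PDefs

set_option autoImplicit false

namespace Pool.Agent.Lib.MP_6b8987_gt

open MeasureTheory Set Filter Topology
open scoped ENNReal Pointwise ContDiff

section Generic

variable {E F G : Type} [NormedAddCommGroup E] [NormedSpace ℝ E] [NormedAddCommGroup F]
  [NormedSpace ℝ F] [NormedAddCommGroup G] [NormedSpace ℝ G]

/-- Conformally symplectic embeddings with constant factor `c`. -/
structure Conf (σ : E → E → ℝ) (σ' : F → F → ℝ) (c : ℝ) (U : Set E) (φ : E → F) : Prop where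
  isOpen : IsOpen U
  smooth : ContDiffOn ℝ ∞ φ U
  inj : InjOn φ U
  form : ∀ x ∈ U, ∀ u v, σ' (fderiv ℝ φ x u) (fderiv ℝ φ x v) = c * σ u v

variable {σ : E → E → ℝ} {σ' : F → F → ℝ} {σ'' : G → G → ℝ} {c c' : ℝ} {U : Set E} {φ : E → F}

theorem Conf.diffAt (h : Conf σ σ' c U φ) {x : E} (hx : x ∈ U) : DifferentiableAt ℝ φ x :=
  (h.smooth.contDiffAt (h.isOpen.mem_nhds hx)).differentiableAt (by simp)

theorem Conf.mono (h : Conf σ σ' c U φ) {V : Set E} (hV : IsOpen V) (hVU : V ⊆ U) :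
    Conf σ σ' c V φ :=
  ⟨hV, h.smooth.mono hVU, h.inj.mono hVU, fun x hx => h.form x (hVU hx)⟩

theorem Conf.comp {V : Set F} {ψ : F → G} (h' : Conf σ' σ'' c' V ψ) (h : Conf σ σ' c U φ)
    (hm : MapsTo φ U V) : Conf σ σ'' (c' * c) U (ψ ∘ φ) := by
  refine ⟨h.isOpen, h'.smooth.comp h.smooth hm, h'.inj.comp h.inj hm, fun x hx u v => ?_⟩
  rw [fderiv_comp x (h'.diffAt (hm hx)) (h.diffAt hx)]
  simp only [ContinuousLinearMap.comp_apply]
  rw [h'.form _ (hm hx), h.form x hx, mul_assoc]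

theorem Conf.congr (h : Conf σ σ' c U φ) {ψ : E → F} (he : EqOn ψ φ U) : Conf σ σ' c U ψ := by
  refine ⟨h.isOpen, h.smooth.congr he, h.inj.congr he.symm, fun x hx u v => ?_⟩
  rw [(he.eventuallyEq_of_mem (h.isOpen.mem_nhds hx)).fderiv_eq]
  exact h.form x hx u v

end Generic

/-- The area form of the plane. -/
def om2 (a b : ℝ × ℝ) : ℝ := a.1 * b.2 - a.2 * b.1

variable {n : ℕ}

/-- The `i`-th coordinate plane. -/
noncomputable def pr (i : Fin n) : R2n n →L[ℝ] ℝ × ℝ :=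
  (EuclideanSpace.proj (Sum.inl i)).prod (EuclideanSpace.proj (Sum.inr i))

@[simp] theorem pr_fst (i : Fin n) (z : R2n n) : (pr i z).1 = z (Sum.inl i) := rfl

@[simp] theorem pr_snd (i : Fin n) (z : R2n n) : (pr i z).2 = z (Sum.inr i) := rfl

/-- Products of planar maps. -/
noncomputable def pm (f : Fin n → ℝ × ℝ → ℝ × ℝ) (z : R2n n) : R2n n :=
  WithLp.toLp 2 (Sum.elim (fun i => (f i (pr i z)).1) fun i => (f i (pr i z)).2)

@[simp] theorem pm_inl (f : Fin n → ℝ × ℝ → ℝ × ℝ) (z : R2n n) (i : Fin n) :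
    pm f z (Sum.inl i) = (f i (pr i z)).1 := rfl

@[simp] theorem pm_inr (f : Fin n → ℝ × ℝ → ℝ × ℝ) (z : R2n n) (i : Fin n) :
    pm f z (Sum.inr i) = (f i (pr i z)).2 := rfl

theorem pr_pm (f : Fin n → ℝ × ℝ → ℝ × ℝ) (z : R2n n) (i : Fin n) :
    pr i (pm f z) = f i (pr i z) := rfl

theorem ext_pr {z w : R2n n} (h : ∀ i, pr i z = pr i w) : z = w := by
  ext j
  cases j with
  | inl i => exact congrArg Prod.fst (h i)
  | inr i => exact congrArg Prod.snd (h i)

theorem omega0_eq (u v : R2n n) : omega0 u v = ∑ i, om2 (pr i u) (pr i v) := rfl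

theorem conf_pm {f : Fin n → ℝ × ℝ → ℝ × ℝ} {W : Fin n → Set (ℝ × ℝ)} {c : ℝ}
    (h : ∀ i, Conf om2 om2 c (W i) (f i)) :
    Conf omega0 omega0 c {z | ∀ i, pr i z ∈ W i} (pm f) := by
  have ho : IsOpen {z : R2n n | ∀ i, pr i z ∈ W i} := by
    rw [ofPred_forall]
    exact isOpen_iInter_of_finite fun i => (h i).isOpen.preimage (pr i).continuous
  have hs : ContDiffOn ℝ ∞ (pm f) {z | ∀ i, pr i z ∈ W i} := by
    rw [contDiffOn_euclidean]
    intro j
    cases j with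
    | inl i =>
      exact ((h i).smooth.comp (s := {z | ∀ i, pr i z ∈ W i}) (pr i).contDiff.contDiffOn
        fun z hz => hz i).fst
    | inr i =>
      exact ((h i).smooth.comp (s := {z | ∀ i, pr i z ∈ W i}) (pr i).contDiff.contDiffOn
        fun z hz => hz i).snd
  refine ⟨ho, hs, fun z hz w hw e => ext_pr fun i => (h i).inj (hz i) (hw i) ?_, ?_⟩
  · exact congrArg (pr i) e
  intro z hz u v
  have hd : DifferentiableAt ℝ (pm f) z :=
    (hs.contDiffAt (ho.mem_nhds hz)).differentiableAt (by simp)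
  have key : ∀ i a, pr i (fderiv ℝ (pm f) z a) = fderiv ℝ (f i) (pr i z) (pr i a) := fun i a => by
    have h1 := (pr i).hasFDerivAt.comp z hd.hasFDerivAt
    have h2 := ((h i).diffAt (hz i)).hasFDerivAt.comp z (pr i).hasFDerivAt
    have h3 : pr i ∘ pm f = f i ∘ pr i := rfl
    rw [h3] at h1
    exact congrArg (fun L : R2n n →L[ℝ] ℝ × ℝ => L a) (h1.unique h2)
  rw [omega0_eq, omega0_eq, Finset.mul_sum]
  exact Finset.sum_congr rfl fun i _ => by rw [key, key, (h i).form _ (hz i)]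

theorem conf_aff (a b s t : ℝ) (hs : s ≠ 0) (ht : t ≠ 0) :
    Conf om2 om2 (s * t) univ fun p : ℝ × ℝ => (a + s * p.1, b + t * p.2) := by
  refine ⟨isOpen_univ, by fun_prop, fun p _ q _ e => ?_, fun p _ u v => ?_⟩
  · simp only [Prod.mk.injEq, add_right_inj, mul_eq_mul_left_iff, hs, ht, or_false] at e
    exact Prod.ext e.1 e.2
  · have : HasFDerivAt (fun p : ℝ × ℝ => (a + s * p.1, b + t * p.2))
        ((s • ContinuousLinearMap.fst ℝ ℝ ℝ).prod (t • ContinuousLinearMap.snd ℝ ℝ ℝ)) p :=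
      ((hasFDerivAt_fst.const_mul s).const_add a).prodMk
        ((hasFDerivAt_snd.const_mul t).const_add b)
    rw [this.fderiv]
    simp only [om2, ContinuousLinearMap.prod_apply, smul_apply,
      ContinuousLinearMap.coe_fst', ContinuousLinearMap.coe_snd', smul_eq_mul]
    ring

theorem conf_swap : Conf om2 om2 (-1) univ (Prod.swap : ℝ × ℝ → ℝ × ℝ) := by
  refine ⟨isOpen_univ, contDiffOn_snd.prodMk contDiffOn_fst, Prod.swap_injective.injOn,
    fun p _ u v => ?_⟩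
  have : HasFDerivAt (Prod.swap : ℝ × ℝ → ℝ × ℝ)
      ((ContinuousLinearMap.snd ℝ ℝ ℝ).prod (ContinuousLinearMap.fst ℝ ℝ ℝ)) p :=
    hasFDerivAt_snd.prodMk hasFDerivAt_fst
  rw [this.fderiv]
  simp only [om2, ContinuousLinearMap.prod_apply, ContinuousLinearMap.coe_fst',
    ContinuousLinearMap.coe_snd']
  ring

theorem conf_lift {g h : ℝ → ℝ} {I : Set ℝ} (hI : IsOpen I) (hg : ContDiffOn ℝ ∞ g I)
    (hh : ContDiffOn ℝ ∞ h I) (hd : ∀ u ∈ I, HasDerivAt g (h u) u) (h0 : ∀ u ∈ I, h u ≠ 0)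
    (hi : InjOn g I) :
    Conf om2 om2 1 {p | p.1 ∈ I} fun p : ℝ × ℝ => (g p.1, p.2 / h p.1) := by
  refine ⟨hI.preimage continuous_fst, ?_, fun p hp q hq e => ?_, fun p hp u v => ?_⟩
  · exact (hg.comp contDiffOn_fst fun p hp => hp).prodMk
      (contDiffOn_snd.div (hh.comp contDiffOn_fst fun p hp => hp) fun p hp => h0 _ hp)
  · simp only [Prod.mk.injEq] at e
    have e1 : p.1 = q.1 := hi hp hq e.1
    have e2 := e.2
    rw [e1, div_left_inj' (h0 _ hq)] at e2
    exact Prod.ext e1 e2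
  · have h1 : HasDerivAt (fun u => (h u)⁻¹) (deriv (fun u => (h u)⁻¹) p.1) p.1 :=
      (((hh.contDiffAt (hI.mem_nhds hp)).differentiableAt (by simp)).inv (h0 _ hp)).hasDerivAt
    have f1 : HasFDerivAt Prod.fst (ContinuousLinearMap.fst ℝ ℝ ℝ) p := hasFDerivAt_fst
    have f2 : HasFDerivAt Prod.snd (ContinuousLinearMap.snd ℝ ℝ ℝ) p := hasFDerivAt_snd
    have h2 := ((hd _ hp).comp_hasFDerivAt p f1).prodMk (f2.mul (h1.comp_hasFDerivAt p f1))
    have h3 : (fun p : ℝ × ℝ => (g p.1, p.2 / h p.1)) = fun x => ((g ∘ Prod.fst) x,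
        (Prod.snd * (fun u => (h u)⁻¹) ∘ Prod.fst : ℝ × ℝ → ℝ) x) := by
      funext x
      simp [div_eq_mul_inv]
    rw [h3, h2.fderiv]
    simp only [om2, ContinuousLinearMap.prod_apply, smul_apply,
      add_apply, ContinuousLinearMap.coe_fst', ContinuousLinearMap.coe_snd',
      smul_eq_mul, Function.comp_apply]
    have := h0 _ hp
    field_simp
    ring

theorem Conf.emb {U : Set (R2n n)} {φ : R2n n → R2n n} (h : Conf omega0 omega0 1 U φ) :
    IsSympEmb U univ φ :=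
  ⟨h.smooth, h.inj, mapsTo_univ _ _, fun x hx u v => by rw [h.form x hx, one_mul]⟩

theorem IsSympEmb.conf {U X : Set (R2n n)} {φ : R2n n → R2n n} (h : IsSympEmb U X φ)
    (hU : IsOpen U) : Conf omega0 omega0 1 U φ :=
  ⟨hU, h.1, h.2.1, fun x hx u v => by rw [h.2.2.2 x hx, one_mul]⟩

theorem Conf.volume_image {U : Set (R2n n)} {φ : R2n n → R2n n} (h : Conf omega0 omega0 1 U φ)
    {A : Set (R2n n)} (hA : MeasurableSet A) (hAU : A ⊆ U) : volume (φ '' A) = volume A := by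
  rw [← lintegral_abs_det_fderiv_eq_addHaar_image volume hA
    (fun x hx => (h.diffAt (hAU hx)).hasFDerivAt.hasFDerivWithinAt) (h.inj.mono hAU)]
  rw [setLIntegral_congr_fun hA (g := fun _ => 1) fun x hx => ?_]
  · simp
  · have := (symp_linear (J := JJ n) (A := fderiv ℝ φ x) JJ_JJ fun u v => by
      rw [inner_JJ, inner_JJ, h.form x (hAU hx), one_mul]).2
    simp only [this, ENNReal.ofReal_one]

theorem volume_prod (A B : Set (Fin n → ℝ)) :
    volume {z : R2n n | (fun i => z (Sum.inl i)) ∈ A ∧ (fun i => z (Sum.inr i)) ∈ B} =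
      volume A * volume B := by
  have h1 := (volume_measurePreserving_sumPiEquivProdPi (fun _ : Fin n ⊕ Fin n => ℝ)).comp
    (PiLp.volume_preserving_ofLp (Fin n ⊕ Fin n))
  have h2 : MeasurableEmbedding ((MeasurableEquiv.sumPiEquivProdPi fun _ : Fin n ⊕ Fin n => ℝ) ∘
      @WithLp.ofLp 2 (Fin n ⊕ Fin n → ℝ)) :=
    (MeasurableEquiv.measurableEmbedding _).comp
      (MeasurableEquiv.toLp 2 (Fin n ⊕ Fin n → ℝ)).symm.measurableEmbedding
  have h3 := h1.measure_preimage_emb h2 (A ×ˢ B)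
  rw [Measure.volume_eq_prod, Measure.prod_prod] at h3
  exact h3

end Pool.Agent.Lib.MP_6b8987_gt
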