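import Pool.Agent.Lib.MP_6b8987_gt.PPolar

set_option autoImplicit false

namespace Pool.Agent.Lib.MP_6b8987_gt

open MeasureTheory Set Filter Topology
open scoped ENNReal NNReal Pointwise ContDiff

theorem exists_finset_cover {α ι : Type} [MeasurableSpace α] {μ : Measure α} {V : Set α}
    (hV : MeasurableSet V) (hV' : μ V ≠ ⊤) {u : Set ι} (hu : u.Countable) {B : ι → Set α}
    (hB : ∀ a ∈ u, MeasurableSet (B a)) (h : μ (V \ ⋃ a ∈ u, B a) = 0) {η : ℝ≥0∞} (hη : 0 < η) :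
    ∃ t : Finset ι, (t : Set ι) ⊆ u ∧ μ (V \ ⋃ a ∈ t, B a) ≤ η := by
  classical
  have := hu.to_subtype
  have h1 := tendsto_measure_iInter_atTop (μ := μ) (s := fun t : Finset u => V \ ⋃ a ∈ t, B a.1)
    (fun t => (hV.diff (Finset.measurableSet_biUnion t fun a _ => hB a a.2)).nullMeasurableSet)
    (fun t t' htt' => sdiff_subset_sdiff_right (biUnion_subset_biUnion_left htt'))
    ⟨∅, by simpa using hV'⟩
  have h2 : μ (⋂ t : Finset u, V \ ⋃ a ∈ t, B a.1) = 0 := by
    refine measure_mono_null (fun x hx => ?_) h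
    rw [mem_iInter] at hx
    refine ⟨(hx ∅).1, fun h3 => ?_⟩
    simp only [mem_iUnion] at h3
    obtain ⟨a, ha, hxa⟩ := h3
    exact (hx {⟨a, ha⟩}).2 (by simpa using hxa)
  rw [h2] at h1
  obtain ⟨t, ht⟩ := (h1.eventually (ge_mem_nhds hη)).exists
  refine ⟨t.image Subtype.val, fun a ha => ?_, ?_⟩
  · obtain ⟨b, -, rfl⟩ := Finset.mem_image.1 ha
    exact b.2
  · rw [Finset.set_biUnion_finset_image]
    exact ht

variable {n : ℕ}

/-- Homothetic copies. -/
def piece (Q : Set (R2n n)) (a : R2n n × ℝ) : Set (R2n n) := a.1 +ᵥ a.2 • Q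

theorem mem_piece {Q : Set (R2n n)} {a : R2n n × ℝ} {z : R2n n} :
    z ∈ piece Q a ↔ ∃ w ∈ Q, a.1 + a.2 • w = z := by
  simp [piece, mem_vadd_set, mem_smul_set]

theorem isCompact_piece {Q : Set (R2n n)} (hQ : IsCompact Q) (a : R2n n × ℝ) :
    IsCompact (piece Q a) := (hQ.smul a.2).vadd a.1

theorem volume_piece (Q : Set (R2n n)) {a : R2n n × ℝ} (ha : 0 < a.2) :
    volume (piece Q a) = ENNReal.ofReal (a.2 ^ (2 * n)) * volume Q := by
  rw [piece, measure_vadd, Measure.addHaar_smul_of_nonneg _ ha.le]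
  simp [two_mul]

theorem exists_pieces {Q : Set (R2n n)} (hQ : IsCompact Q) (hi : (interior Q).Nonempty)
    {V : Set (R2n n)} (hV : IsOpen V) (hV' : volume V ≠ ⊤) {η : ℝ≥0∞} (hη : 0 < η) :
    ∃ t : Finset (R2n n × ℝ), (∀ a ∈ t, 0 < a.2 ∧ piece Q a ⊆ V) ∧
      (t : Set (R2n n × ℝ)).PairwiseDisjoint (piece Q) ∧ volume (V \ ⋃ a ∈ t, piece Q a) ≤ η := by
  obtain ⟨R, hR0, hR⟩ := hQ.isBounded.subset_closedBall_lt 0 0
  have hQ0 : volume Q ≠ 0 := (Measure.measure_pos_of_nonempty_interior _ hi).ne'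
  have hsub : ∀ a : R2n n × ℝ, 0 < a.2 → piece Q a ⊆ Metric.closedBall a.1 (a.2 * R) := by
    intro a ha z hz
    obtain ⟨w, hw, rfl⟩ := mem_piece.1 hz
    rw [mem_closedBall_iff_norm, add_sub_cancel_left, norm_smul, Real.norm_of_nonneg ha.le]
    gcongr
    exact mem_closedBall_zero_iff.1 (hR hw)
  have hC : volume (Metric.closedBall (0 : R2n n) (3 * R)) / volume Q ≠ ⊤ :=
    ENNReal.div_ne_top measure_closedBall_lt_top.ne hQ0
  obtain ⟨u, hu1, hu2, hu3, hu4⟩ := Vitali.exists_disjoint_covering_ae volume V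
    {a : R2n n × ℝ | 0 < a.2 ∧ piece Q a ⊆ V}
    (volume (Metric.closedBall (0 : R2n n) (3 * R)) / volume Q).toNNReal (fun a => a.2 * R)
    (fun a => a.1) (piece Q) (fun a ha => hsub a ha.1) (fun a ha => by
      rw [mul_left_comm, Measure.addHaar_closedBall_mul_of_pos _ _ ha.1, volume_piece Q ha.1,
        ENNReal.coe_toNNReal hC, mul_left_comm, ENNReal.div_mul_cancel hQ0 hQ.measure_lt_top.ne]
      simp [two_mul])
    (fun a ha => by
      rw [piece, interior_vadd, interior_smul₀ ha.1.ne']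
      exact hi.smul_set.vadd_set)
    (fun a _ => (isCompact_piece hQ a).isClosed)
    (fun x hx ε hε => by
      obtain ⟨δ, hδ, hb⟩ := Metric.nhds_basis_closedBall.mem_iff.1 (hV.mem_nhds hx)
      have h1 : 0 < min ε δ / R := by positivity
      have h2 : min ε δ / R * R = min ε δ := div_mul_cancel₀ _ hR0.ne'
      refine ⟨(x, min ε δ / R), ⟨h1, (hsub _ h1).trans (subset_trans ?_ hb)⟩,
        h2.le.trans (min_le_left _ _), rfl⟩
      exact Metric.closedBall_subset_closedBall (h2.le.trans (min_le_right _ _)))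
  obtain ⟨t, ht1, ht2⟩ := exists_finset_cover hV.measurableSet hV' hu2
    (fun a _ => (isCompact_piece hQ a).measurableSet) hu4 hη
  exact ⟨t, fun a ha => hu1 (ht1 ha), hu3.subset ht1, ht2⟩

/-- The Lagrangian product with the closed unit cube. -/
def lagCubeC (K : Set (Fin n → ℝ)) : Set (R2n n) :=
  {z | (fun i => z (Sum.inl i)) ∈ K ∧ (fun i => z (Sum.inr i)) ∈ Icc (0 : Fin n → ℝ) 1}

theorem volume_lagCubeC (K : Set (Fin n → ℝ)) : volume (lagCubeC K) = volume K := by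
  rw [lagCubeC, volume_prod, Real.volume_Icc_pi]
  simp

theorem isCompact_lagCubeC {K : Set (Fin n → ℝ)} (hK : IsCompact K) : IsCompact (lagCubeC K) := by
  have h : lagCubeC K = (fun q : (Fin n → ℝ) × (Fin n → ℝ) =>
      (WithLp.toLp 2 (Sum.elim q.1 q.2) : R2n n)) '' K ×ˢ Icc 0 1 := by
    ext z
    constructor
    · rintro ⟨h1, h2⟩
      refine ⟨(_, _), ⟨h1, h2⟩, ?_⟩
      ext j
      cases j <;> rfl
    · rintro ⟨q, hq, rfl⟩
      exact hq
  rw [h]
  refine (hK.prod isCompact_Icc).image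
    ((PiLp.continuous_toLp 2 _).comp (continuous_pi fun j => ?_))
  cases j with
  | inl i => simp only [Sum.elim_inl]; fun_prop
  | inr i => simp only [Sum.elim_inr]; fun_prop

variable {X : Type} [TopologicalSpace X] [ChartedSpace (R2n n) X] {D : Set (R2n n)}

theorem emb_chart (hX : IsSympAtlas n X) {e : OpenPartialHomeomorph X (R2n n)}
    (he : e ∈ atlas (R2n n) X) {U : Set (R2n n)} {ψ : R2n n → R2n n}
    (h : Conf omega0 omega0 1 U ψ) (hm : MapsTo ψ U e.target) : IsSympEmbM U (e.symm ∘ ψ) := by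
  have hc : ContinuousOn (e.symm ∘ ψ) U := e.continuousOn_symm.comp h.smooth.continuousOn hm
  refine ⟨hc, e.symm.injOn.comp h.inj hm, fun e' he' => ?_⟩
  have h1 := ((hX e he e' he').conf (e.isOpen_inter_preimage_symm e'.open_source)).comp
    (h.mono (hc.isOpen_inter_preimage h.isOpen e'.open_source) inter_subset_left)
    fun z hz => ⟨hm hz.1, hz.2⟩
  rw [one_mul] at h1
  exact h1.emb

/-- Packings by `k` copies of `l • D` inside `W`. -/
def Pk (D : Set (R2n n)) (l : ℝ) (W : Set X) (k : ℕ) : Prop :=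
  ∃ φ : Fin k → R2n n → X, (∀ i, IsSympEmbM (l • D) (φ i) ∧ MapsTo (φ i) (l • D) W) ∧
    Pairwise fun i j => Disjoint (φ i '' (l • D)) (φ j '' (l • D))

theorem Pk.of_inj {ι : Type} {l : ℝ} {W : Set X} {k : ℕ} (f : Fin k → ι) (hf : f.Injective)
    (φ : ι → R2n n → X) (h1 : ∀ i, IsSympEmbM (l • D) (φ i) ∧ MapsTo (φ i) (l • D) W)
    (h2 : Pairwise fun i j => Disjoint (φ i '' (l • D)) (φ j '' (l • D))) : Pk D l W k :=
  ⟨φ ∘ f, fun i => h1 (f i), fun _ _ hij => h2 (hf.ne hij)⟩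

theorem Pk.mono {l : ℝ} {W : Set X} {k k' : ℕ} (h : Pk D l W k) (hk : k' ≤ k) : Pk D l W k' := by
  obtain ⟨φ, h1, h2⟩ := h
  exact Pk.of_inj (Fin.castLE hk) (Fin.castLE_injective hk) φ h1 h2

theorem Pk.add {l : ℝ} {W W' : Set X} {k k' : ℕ} (h : Pk D l W k) (h' : Pk D l W' k')
    (hd : Disjoint W W') : Pk D l (W ∪ W') (k + k') := by
  obtain ⟨φ, h1, h2⟩ := h
  obtain ⟨φ', h1', h2'⟩ := h'
  refine Pk.of_inj finSumFinEquiv.symm finSumFinEquiv.symm.injective (Sum.elim φ φ') ?_ ?_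
  · rintro (i | i)
    · exact ⟨(h1 i).1, (h1 i).2.mono_right subset_union_left⟩
    · exact ⟨(h1' i).1, (h1' i).2.mono_right subset_union_right⟩
  · rintro (i | i) (j | j) hij
    · exact h2 fun e => hij (congrArg _ e)
    · exact hd.mono (h1 i).2.image_subset (h1' j).2.image_subset
    · exact hd.symm.mono (h1' i).2.image_subset (h1 j).2.image_subset
    · exact h2' fun e => hij (congrArg _ e)

/-- For small `l` the set `W` holds about `v / l ^ (2 * n)` copies of `l • D`. -/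
def Fills (D : Set (R2n n)) (W : Set X) (v : ℝ) : Prop :=
  ∀ η : ℝ, 0 < η → ∀ᶠ l in 𝓝[>] (0 : ℝ), ∃ k : ℕ, Pk D l W k ∧ v - η ≤ k * l ^ (2 * n)

theorem Fills.empty : Fills D (∅ : Set X) 0 := fun η hη => Eventually.of_forall fun _ =>
  ⟨0, ⟨Fin.elim0, fun i => i.elim0, fun i => i.elim0⟩, by simpa using hη.le⟩

theorem Fills.union {W W' : Set X} {v v' : ℝ} (h : Fills D W v) (h' : Fills D W' v')
    (hd : Disjoint W W') : Fills D (W ∪ W') (v + v') := fun η hη => by
  filter_upwards [h _ (half_pos hη), h' _ (half_pos hη)] with l ⟨k, h1, h2⟩ ⟨k', h1', h2'⟩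
  refine ⟨k + k', h1.add h1' hd, ?_⟩
  push_cast
  linarith

theorem fills_piece (hX : IsSympAtlas n X) {e : OpenPartialHomeomorph X (R2n n)}
    (he : e ∈ atlas (R2n n) X) {K : Set (Fin n → ℝ)} {N : ℕ} {S : Fin N → R2n n → R2n n}
    (hD : IsOpen D) (hS : ∀ i, Conf omega0 omega0 1 D (S i)) (hm : ∀ i, MapsTo (S i) D (lagCube K))
    (hd : Pairwise fun i j => Disjoint (S i '' D) (S j '' D)) {a : R2n n × ℝ} (ha : 0 < a.2)
    (hsub : piece (lagCubeC K) a ⊆ e.target) :
    Fills D (e.symm '' piece (lagCubeC K) a) (N * a.2 ^ (2 * n)) := fun η hη => by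
  obtain ⟨a, s⟩ := a
  simp only at ha ⊢
  have h1 : ∀ᶠ l in 𝓝 (0 : ℝ), N * s ^ (2 * n) - η < N * (s ^ 2 - l ^ 2) ^ n :=
    (show Continuous fun l : ℝ => N * (s ^ 2 - l ^ 2) ^ n by fun_prop).continuousAt.eventually
      (lt_mem_nhds (by simpa [pow_mul] using hη))
  filter_upwards [h1.filter_mono nhdsWithin_le_nhds, Ioo_mem_nhdsGT ha] with l h2 hl
  have hl0 : 0 < l := hl.1
  set m := ⌊s ^ 2 / l ^ 2⌋₊
  have hm1 : (m : ℝ) ≤ s ^ 2 / l ^ 2 := Nat.floor_le (by positivity)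
  have hm2 : s ^ 2 / l ^ 2 < m + 1 := Nat.lt_floor_add_one _
  let A : (Fin n → Fin m) → R2n n → R2n n := fun j => pm fun i p =>
    (a (Sum.inl i) + s * p.1, a (Sum.inr i) + l ^ 2 / s * (j i : ℕ) + l ^ 2 / s * p.2)
  let T : R2n n → R2n n := pm fun _ p => (0 + l⁻¹ * p.1, 0 + l⁻¹ * p.2)
  have hT : MapsTo T (l • D) D := fun z hz => by
    rw [mem_smul_set_iff_inv_smul_mem₀ hl0.ne'] at hz
    convert hz using 1
    ext j
    cases j <;> simp [T]
  have hA0 := fun j : Fin n → Fin m => conf_pm (n := n) fun i => conf_aff (a (Sum.inl i))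
    (a (Sum.inr i) + l ^ 2 / s * (j i : ℕ)) s (l ^ 2 / s) ha.ne' (by positivity)
  have hA : ∀ r j, Conf omega0 omega0 1 (l • D) (A j ∘ S r ∘ T) := fun r j => by
    have h3 := (hA0 j).comp
      ((hS r).comp ((conf_pm fun _ => conf_aff 0 0 l⁻¹ l⁻¹ (by positivity) (by positivity)).mono
        (hD.smul₀ hl0.ne') fun _ _ _ => mem_univ _) hT) fun _ _ _ => mem_univ _
    rwa [show s * (l ^ 2 / s) * (1 * (l⁻¹ * l⁻¹)) = 1 by field_simp] at h3
  have hP : ∀ r j, MapsTo (A j ∘ S r ∘ T) (l • D) (piece (lagCubeC K) (a, s)) := fun r j z hz => by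
    obtain ⟨h3, h4⟩ := hm r (hT hz)
    refine mem_piece.2 ⟨pm (fun i p => (p.1, l ^ 2 / s ^ 2 * ((j i : ℕ) + p.2))) (S r (T z)),
      ⟨h3, fun i => ?_, fun i => ?_⟩, ?_⟩
    · have := (h4 i).1
      simp only [Pi.zero_apply, pm_inr, pr_snd]
      positivity
    · have h5 : ((j i : ℕ) : ℝ) + 1 ≤ m := by exact_mod_cast (j i).2
      have := (h4 i).2
      simp only [Pi.one_apply, pm_inr, pr_snd]
      rw [div_mul_eq_mul_div, div_le_one (by positivity), mul_comm, ← le_div_iff₀ (by positivity)]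
      linarith
    · ext k
      cases k with
      | inl i => simp [A]
      | inr i =>
        simp only [A, PiLp.add_apply, PiLp.smul_apply, pm_inr, pr_snd, smul_eq_mul,
          Function.comp_apply]
        field_simp
        ring
  let f := finProdFinEquiv.symm.trans ((Equiv.refl (Fin N)).prodCongr
    (finFunctionFinEquiv (m := m) (n := n)).symm)
  refine ⟨N * m ^ n, Pk.of_inj f f.injective
    (fun j => e.symm ∘ A j.2 ∘ S j.1 ∘ T) (fun j => ⟨emb_chart hX he (hA _ _)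
      ((hP _ _).mono_right hsub), fun z hz => mem_image_of_mem _ (hP _ _ hz)⟩) ?_, h2.le.trans ?_⟩
  · rintro ⟨r, j⟩ ⟨r', j'⟩ hjj
    refine Set.disjoint_left.2 ?_
    rintro _ ⟨z, hz, rfl⟩ ⟨z', hz', h3⟩
    have h4 := e.symm.injOn (hsub (hP r' j' hz')) (hsub (hP r j hz)) h3
    obtain rfl : j = j' := by
      refine funext fun i => Fin.ext ?_
      have h5 := congrArg (fun w : R2n n => w (Sum.inr i)) h4
      simp only [A, pm_inr, pr_snd, Function.comp_apply, add_assoc, add_right_inj,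
        ← mul_add] at h5
      have h6 := mul_left_cancel₀ (by positivity) h5
      have h7 := (hm r (hT hz)).2 i
      have h8 := (hm r' (hT hz')).2 i
      have h9 : ((j i : ℕ) : ℝ) < (j' i : ℕ) + 1 := by linarith [h7.1, h8.2]
      have h10 : ((j' i : ℕ) : ℝ) < (j i : ℕ) + 1 := by linarith [h7.2, h8.1]
      norm_cast at h9 h10
      omega
    have h5 : S r' (T z') = S r (T z) := (hA0 j).inj (fun _ => mem_univ _) (fun _ => mem_univ _) h4
    exact (hd fun h => hjj (Prod.ext h rfl)).ne_of_mem (mem_image_of_mem _ (hT hz))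
      (mem_image_of_mem _ (hT hz')) h5.symm
  · rw [Nat.cast_mul, Nat.cast_pow, pow_mul, mul_assoc, ← mul_pow]
    rw [div_lt_iff₀ (by positivity)] at hm2
    gcongr
    · nlinarith [hl.2]
    · linarith

end Pool.Agent.Lib.MP_6b8987_gt
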