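import Pool.Agent.Lib.MP_6b8987_gt.PConf

set_option autoImplicit false

namespace Pool.Agent.Lib.MP_6b8987_gt

open MeasureTheory Set Filter Topology Real
open scoped ENNReal Pointwise ContDiff

/-- A smoothing of the signed square. -/
noncomputable def gg (ε u : ℝ) : ℝ := u * (√(u ^ 2 + ε ^ 2) + 2 * ε)

/-- The derivative of `gg`. -/
noncomputable def hh (ε u : ℝ) : ℝ := (2 * u ^ 2 + ε ^ 2) / √(u ^ 2 + ε ^ 2) + 2 * ε

/-- The normalised angle. -/
noncomputable def GG (w : ℝ) : ℝ := arctan (2 * w) / π + 1 / 2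

/-- The derivative of `GG`. -/
noncomputable def HH (w : ℝ) : ℝ := 2 / (π * (1 + 4 * w ^ 2))

/-- Smoothed polar coordinates. -/
noncomputable def pol (ε : ℝ) (p : ℝ × ℝ) : ℝ × ℝ :=
  (gg ε p.1 / HH (p.2 / hh ε p.1), GG (p.2 / hh ε p.1))

theorem gg_strictMono {ε : ℝ} (hε : 0 ≤ ε) : StrictMono (gg ε) := by
  refine strictMono_of_odd_strictMonoOn_nonneg (fun u => by simp [gg]) fun a ha b hb hab => ?_
  have ha' : 0 ≤ a := ha
  have hb' : 0 < b := ha'.trans_lt hab
  have h1 : √(a ^ 2 + ε ^ 2) ≤ √(b ^ 2 + ε ^ 2) := sqrt_le_sqrt (by nlinarith)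
  have h2 : 0 < √(b ^ 2 + ε ^ 2) := sqrt_pos.2 (by positivity)
  unfold gg
  calc a * (√(a ^ 2 + ε ^ 2) + 2 * ε) ≤ a * (√(b ^ 2 + ε ^ 2) + 2 * ε) := by gcongr
    _ < _ := by gcongr

theorem hh_ge {ε u : ℝ} (h : 0 < u ^ 2 + ε ^ 2) : 2 * |u| + 2 * ε ≤ hh ε u := by
  have h2 : 0 < √(u ^ 2 + ε ^ 2) := sqrt_pos.2 h
  have h3 := sq_sqrt h.le
  unfold hh
  gcongr
  rw [le_div_iff₀ h2]
  nlinarith [sq_nonneg (|u| - √(u ^ 2 + ε ^ 2)), sq_abs u]

theorem hh_pos {ε u : ℝ} (hε : 0 ≤ ε) (h : 0 < u ^ 2 + ε ^ 2) : 0 < hh ε u := by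
  have h2 : 0 < √(u ^ 2 + ε ^ 2) := sqrt_pos.2 h
  have : 0 < 2 * u ^ 2 + ε ^ 2 := by nlinarith [sq_nonneg u]
  unfold hh
  positivity

theorem abs_gg_le {ε u : ℝ} (hε : 0 ≤ ε) : |gg ε u| ≤ u ^ 2 + ε ^ 2 / 2 + 2 * ε * |u| := by
  have h3 := sq_sqrt (show 0 ≤ u ^ 2 + ε ^ 2 by positivity)
  unfold gg
  rw [abs_mul, abs_of_nonneg (a := √_ + _) (by positivity)]
  nlinarith [sq_nonneg (|u| - √(u ^ 2 + ε ^ 2)), sq_abs u]

theorem HH_pos (w : ℝ) : 0 < HH w := by
  unfold HH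
  have := pi_pos
  positivity

theorem GG_mem (w : ℝ) : GG w ∈ Ioo (0 : ℝ) 1 := by
  have h1 := neg_pi_div_two_lt_arctan (2 * w)
  have h2 := arctan_lt_pi_div_two (2 * w)
  have h3 : -(1 / 2) < arctan (2 * w) / π := by rw [lt_div_iff₀ pi_pos]; linarith
  have h4 : arctan (2 * w) / π < 1 / 2 := by rw [div_lt_iff₀ pi_pos]; linarith
  constructor <;> unfold GG <;> linarith

theorem conf_pol {ε : ℝ} (hε : 0 ≤ ε) :
    Conf om2 om2 1 {p | 0 < p.1 ^ 2 + ε ^ 2} (pol ε) := by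
  have ho : IsOpen {u : ℝ | 0 < u ^ 2 + ε ^ 2} := isOpen_lt continuous_const (by fun_prop)
  have hs : ContDiffOn ℝ ∞ (fun u : ℝ => √(u ^ 2 + ε ^ 2)) {u : ℝ | 0 < u ^ 2 + ε ^ 2} :=
    ContDiffOn.sqrt (by fun_prop) fun u hu => ne_of_gt hu
  have h1 : Conf om2 om2 1 {p | p.1 ∈ {u : ℝ | 0 < u ^ 2 + ε ^ 2}}
      fun p : ℝ × ℝ => (gg ε p.1, p.2 / hh ε p.1) := by
    refine conf_lift ho (contDiffOn_id.mul (hs.add contDiffOn_const))
      ((ContDiffOn.div (by fun_prop) hs fun u hu => (sqrt_pos.2 hu).ne').add contDiffOn_const)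
      (fun u hu => ?_) (fun u hu => (hh_pos hε hu).ne') (gg_strictMono hε).injective.injOn
    have hu' : 0 < u ^ 2 + ε ^ 2 := hu
    have h2 : 0 < √(u ^ 2 + ε ^ 2) := sqrt_pos.2 hu'
    have h3 := sq_sqrt hu'.le
    have h4 := (hasDerivAt_id u).mul
      ((((hasDerivAt_pow 2 u).add_const (ε ^ 2)).sqrt hu'.ne').add_const (2 * ε))
    refine h4.congr_deriv ?_
    unfold hh
    simp only [id]
    field_simp
    norm_num
    linear_combination 2 * h3
  have h2 : Conf om2 om2 1 {p | p.1 ∈ (univ : Set ℝ)} fun p : ℝ × ℝ => (GG p.1, p.2 / HH p.1) := by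
    refine conf_lift isOpen_univ ?_ ?_ (fun u _ => ?_) (fun u _ => (HH_pos u).ne')
      fun a _ b _ e => ?_
    · exact (((contDiff_arctan.comp (contDiff_const.mul contDiff_id)).div_const π).add
        contDiff_const).contDiffOn
    · refine (contDiff_const.div (by fun_prop) fun u => ?_).contDiffOn
      have := pi_pos
      positivity
    · have h4 := ((((hasDerivAt_id u).const_mul 2).arctan).div_const π).add_const (1 / 2)
      refine h4.congr_deriv ?_
      unfold HH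
      simp only [id]
      field_simp
      ring
    · unfold GG at e
      rw [add_left_inj, div_left_inj' pi_pos.ne'] at e
      have := arctan_injective e
      linarith
  have h3 := conf_swap.comp (h2.comp (conf_swap.comp h1 (mapsTo_univ _ _)) fun _ _ => mem_univ _)
    (mapsTo_univ _ _)
  norm_num at h3
  exact h3

theorem abs_pol_le {ε : ℝ} (hε : 0 < ε) (p : ℝ × ℝ) :
    |(pol ε p).1| ≤ π / 2 * (√(p.1 ^ 2 + p.2 ^ 2) + ε) ^ 2 := by
  have h0 : 0 < p.1 ^ 2 + ε ^ 2 := by positivity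
  have h1 := hh_ge h0
  have h2 := hh_pos hε.le h0
  have h3 := abs_gg_le (u := p.1) hε.le
  have h4 : 4 * |gg ε p.1| ≤ hh ε p.1 ^ 2 := by
    refine le_trans ?_ (pow_le_pow_left₀ (by positivity) h1 2)
    nlinarith [sq_abs p.1, sq_nonneg ε]
  have h5 : |p.1| ≤ √(p.1 ^ 2 + p.2 ^ 2) := abs_le_sqrt (by nlinarith [sq_nonneg p.2])
  have h6 := sq_sqrt (show 0 ≤ p.1 ^ 2 + p.2 ^ 2 by positivity)
  have h7 : |gg ε p.1| * (4 * (p.2 / hh ε p.1) ^ 2) ≤ p.2 ^ 2 := by
    rw [div_pow, ← mul_assoc, ← mul_div_assoc, div_le_iff₀ (by positivity)]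
    nlinarith [sq_nonneg p.2]
  have h8 : |(pol ε p).1| = π / 2 * (|gg ε p.1| * (1 + 4 * (p.2 / hh ε p.1) ^ 2)) := by
    unfold pol
    rw [abs_div, abs_of_pos (HH_pos _), HH]
    field_simp
  rw [h8]
  have := pi_pos
  gcongr
  nlinarith

theorem pol_surj {x y : ℝ} (hx : x ≠ 0) (hy : y ∈ Ioo (0 : ℝ) 1) :
    ∃ p : ℝ × ℝ, p.1 ≠ 0 ∧ pol 0 p = (x, y) ∧ π / 2 * (p.1 ^ 2 + p.2 ^ 2) = |x| := by
  obtain ⟨w, hw⟩ : ∃ w, GG w = y := by
    refine ⟨tan (π * (y - 1 / 2)) / 2, ?_⟩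
    unfold GG
    rw [mul_div_cancel₀ _ two_ne_zero, arctan_tan (by nlinarith [pi_pos, hy.1])
      (by nlinarith [pi_pos, hy.2])]
    field_simp
    ring
  have hH := HH_pos w
  obtain ⟨u, hu⟩ : ∃ u : ℝ, u * |u| = x * HH w := by
    rcases le_total 0 x with h | h
    · exact ⟨√(x * HH w), by rw [abs_of_nonneg (sqrt_nonneg _), mul_self_sqrt (by positivity)]⟩
    · refine ⟨-√(-x * HH w), ?_⟩
      rw [abs_neg, abs_of_nonneg (sqrt_nonneg _), neg_mul,
        mul_self_sqrt (mul_nonneg (neg_nonneg.2 h) hH.le)]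
      ring
  have hu0 : u ≠ 0 := by
    rintro rfl
    exact mul_ne_zero hx hH.ne' (by simpa using hu.symm)
  have hu1 : 0 < |u| := abs_pos.2 hu0
  have e1 : gg 0 u = x * HH w := by
    rw [← hu]
    simp [gg, sqrt_sq_eq_abs]
  have e2 : hh 0 u = 2 * |u| := by
    simp only [hh, ne_eq, OfNat.ofNat_ne_zero, not_false_eq_true, zero_pow, add_zero, mul_zero,
      sqrt_sq_eq_abs]
    rw [div_eq_iff hu1.ne', ← sq_abs]
    ring
  have e3 : w * (2 * |u|) / hh 0 u = w := by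
    rw [e2]
    field_simp
  refine ⟨(u, w * (2 * |u|)), hu0, ?_, ?_⟩
  · simp only [pol, e3, e1, hw, mul_div_cancel_right₀ _ hH.ne']
  · have e4 : u ^ 2 = |x| * HH w := by
      have := congrArg abs hu
      rw [abs_mul, abs_abs, abs_mul, abs_of_pos hH] at this
      rw [← this, ← sq_abs, sq]
    simp only [mul_pow, sq_abs]
    rw [e4, HH]
    have := pi_pos
    field_simp
    ring

variable {n : ℕ}

/-- `D` embeds in Lagrangian products with the unit cube, with almost no loss of volume. -/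
def Fits (D : Set (R2n n)) : Prop :=
  ∀ c : ℝ, 1 < c → ∃ K : Set (Fin n → ℝ), IsCompact K ∧ ∃ S, Conf omega0 omega0 1 D S ∧
    MapsTo S D (lagCube K) ∧ volume K ≤ ENNReal.ofReal c * volume D

theorem volume_lagCube (K : Set (Fin n → ℝ)) : volume (lagCube K) = volume K := by
  have := volume_prod K (univ.pi fun _ => Ioo (0 : ℝ) 1)
  rw [volume_pi_Ioo] at this
  simpa [lagCube, Set.mem_pi] using this

theorem fits_lagCube {K : Set (Fin n → ℝ)} (hK : IsOpen K) (hb : Bornology.IsBounded K)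
    (hf : volume (frontier K) = 0) : IsOpen (lagCube K) ∧ Fits (lagCube K) := by
  have ho : IsOpen (lagCube K) := by
    refine (hK.preimage (by fun_prop)).inter ?_
    change IsOpen {z : R2n n | ∀ i, z (Sum.inr i) ∈ Ioo (0 : ℝ) 1}
    rw [ofPred_forall]
    exact isOpen_iInter_of_finite fun i => isOpen_Ioo.preimage (by fun_prop)
  refine ⟨ho, fun c hc => ⟨closure K, hb.isCompact_closure, id,
    ⟨ho, contDiffOn_id, injOn_id _, fun x _ u v => by simp⟩,
    fun z hz => ⟨subset_closure hz.1, hz.2⟩, ?_⟩⟩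
  rw [volume_lagCube, closure_eq_self_union_frontier]
  refine (measure_union_le _ _).trans ?_
  rw [hf, add_zero]
  exact le_mul_of_one_le_left bot_le (by simpa using hc.le)

theorem volume_le_of_moment {D : Set (R2n n)} (hD : IsOpen D) {K : Set (Fin n → ℝ)}
    (h : ∀ x ∈ K, ∀ z : R2n n, (∀ i, π / 2 * sqMod z i = |x i|) → z ∈ D) :
    volume K ≤ volume D := by
  have h1 := conf_pm (n := n) fun _ => conf_pol le_rfl
  have h2 : volume (⋃ i, {x : Fin n → ℝ | x i = 0}) = 0 :=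
    measure_iUnion_null fun i => Measure.pi_hyperplane _ i 0
  rw [← measure_sdiff_null h2, ← volume_lagCube]
  refine le_trans (measure_mono ?_) ((h1.volume_image (hD.inter h1.isOpen).measurableSet
    inter_subset_right).le.trans (measure_mono inter_subset_left))
  rintro z ⟨⟨hz1, hz2⟩, hz3⟩
  simp only [mem_iUnion, mem_ofPred_eq, not_exists] at hz2
  choose p hp1 hp2 hp3 using fun i => pol_surj (hz2 i) (hz3 i)
  refine ⟨pm (fun i _ => p i) 0, ⟨h _ hz1 _ fun i => hp3 i, fun i => ?_⟩, ext_pr fun i => hp2 i⟩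
  have := hp1 i
  change 0 < (p i).1 ^ 2 + 0 ^ 2
  positivity

theorem closure_subset_smul {D : Set (R2n n)} (hR : IsCompleteReinhardt D) {t : ℝ} (ht : 1 < t) :
    closure D ⊆ t • D := fun z hz => by
  have ht0 : 0 < t := one_pos.trans ht
  rw [mem_smul_set_iff_inv_smul_mem₀ ht0.ne']
  have hs : ∀ i, sqMod (t⁻¹ • z) i = t⁻¹ ^ 2 * sqMod z i := fun i => by
    simp only [sqMod, PiLp.smul_apply, smul_eq_mul]
    ring
  have h1 : ∀ i, ∀ᶠ w in 𝓝 z, sqMod (t⁻¹ • z) i ≤ sqMod w i := fun i => by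
    have h0 : 0 ≤ sqMod z i := by unfold sqMod; positivity
    rcases h0.eq_or_lt with h | h
    · refine Eventually.of_forall fun w => ?_
      rw [hs, ← h, mul_zero]
      unfold sqMod
      positivity
    · have hc : Continuous fun w : R2n n => sqMod w i := by unfold sqMod; fun_prop
      refine (hc.continuousAt.eventually (lt_mem_nhds ?_)).mono fun w hw => le_of_lt hw
      rw [hs]
      exact mul_lt_of_lt_one_left h
        (pow_lt_one₀ (by positivity) (inv_lt_one_of_one_lt₀ ht) two_ne_zero)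
  obtain ⟨w, hw1, hw2⟩ := mem_closure_iff_nhds.1 hz _ (eventually_all.2 h1)
  exact hR w hw2 _ hw1

theorem fits_reinhardt {D : Set (R2n n)} (hD : IsOpen D) (hb : Bornology.IsBounded D)
    (hR : IsCompleteReinhardt D) : Fits D := fun c hc => by
  obtain ⟨t, ht, htc⟩ : ∃ t : ℝ, 1 < t ∧ t ^ (2 * n) ≤ c := by
    have h1 : ∀ᶠ t : ℝ in 𝓝 1, t ^ (2 * n) < c :=
      (continuous_pow (2 * n)).continuousAt.eventually (gt_mem_nhds (by simpa using hc))
    obtain ⟨t, h2, h3⟩ := ((h1.filter_mono nhdsWithin_le_nhds).and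
      (self_mem_nhdsWithin (s := Ioi (1 : ℝ)))).exists
    exact ⟨t, h3, h2.le⟩
  have ht0 : 0 < t := one_pos.trans ht
  have hto : IsOpen (t • D) := hD.smul₀ ht0.ne'
  have hc' := hb.isCompact_closure
  let P : ℝ × R2n n → R2n n := fun q => pm (fun _ p => (√(p.1 ^ 2 + p.2 ^ 2) + q.1, 0)) q.2
  have hP : Continuous P := by
    refine (PiLp.continuous_toLp 2 _).comp (continuous_pi fun j => ?_)
    cases j with
    | inl i => simp only [Sum.elim_inl, pr_fst, pr_snd]; fun_prop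
    | inr i => simp only [Sum.elim_inr]; fun_prop
  have hPs : ∀ q i, sqMod (P q) i = (√(sqMod q.2 i) + q.1) ^ 2 := fun q i => by
    simp [P, sqMod]
  have h1 : ∀ᶠ ε in 𝓝 (0 : ℝ), ∀ w ∈ closure D, P (ε, w) ∈ t • D := by
    refine hc'.eventually_forall_of_forall_eventually fun w hw => ?_
    refine hP.continuousAt.eventually (hto.mem_nhds (closure_subset_smul hR ht ?_))
    refine map_mem_closure (f := fun w => P (0, w)) (by fun_prop) hw fun w hw => hR w hw _ fun i => ?_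
    rw [hPs, add_zero, sq_sqrt (by unfold sqMod; positivity)]
  obtain ⟨ε, h2, hε⟩ := ((h1.filter_mono nhdsWithin_le_nhds).and
    (self_mem_nhdsWithin (s := Ioi (0 : ℝ)))).exists
  have hε' : 0 < ε := hε
  let F : R2n n × (Fin n → ℝ) → Fin n → ℝ := fun q i =>
    q.2 i * (π / 2 * (√(sqMod q.1 i) + ε) ^ 2)
  have hF : Continuous F := by
    unfold F sqMod
    fun_prop
  refine ⟨F '' (closure D ×ˢ Metric.closedBall 0 1),
    (hc'.prod (isCompact_closedBall 0 1)).image hF, pm fun _ => pol ε,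
    (conf_pm fun _ => conf_pol hε'.le).mono hD fun z _ i => ?_, fun z hz => ⟨?_, fun i => GG_mem _⟩,
    ?_⟩
  · change 0 < _ ^ 2 + ε ^ 2
    positivity
  · have hp : ∀ i, 0 < π / 2 * (√(sqMod z i) + ε) ^ 2 := fun i => by
      have := pi_pos
      positivity
    refine ⟨(z, fun i => (pol ε (pr i z)).1 / (π / 2 * (√(sqMod z i) + ε) ^ 2)),
      ⟨subset_closure hz, ?_⟩, funext fun i => div_mul_cancel₀ _ (hp i).ne'⟩
    rw [mem_closedBall_zero_iff, pi_norm_le_iff_of_nonneg zero_le_one]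
    intro i
    rw [Real.norm_eq_abs, abs_div, abs_of_pos (hp i), div_le_one (hp i)]
    exact abs_pol_le hε' _
  · refine (volume_le_of_moment hto ?_).trans ?_
    · rintro _ ⟨⟨w, s⟩, ⟨hw, hs⟩, rfl⟩ z hz
      have h3 := h2 w hw
      rw [mem_smul_set_iff_inv_smul_mem₀ ht0.ne'] at h3 ⊢
      refine hR _ h3 _ fun i => ?_
      have h4 : sqMod z i ≤ sqMod (P (ε, w)) i := by
        have h5 : |s i| ≤ 1 := (norm_le_pi_norm s i).trans (mem_closedBall_zero_iff.1 hs)
        have h6 := pi_pos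
        refine le_of_mul_le_mul_left ?_ (show 0 < π / 2 by positivity)
        rw [hz, hPs, abs_mul, abs_of_nonneg (a := π / 2 * _) (by positivity)]
        exact mul_le_of_le_one_left (by positivity) h5
      simp only [sqMod, PiLp.smul_apply, smul_eq_mul, mul_pow, ← mul_add] at h4 ⊢
      gcongr
    · rw [Measure.addHaar_smul_of_nonneg _ ht0.le]
      gcongr
      simpa [two_mul] using htc

end Pool.Agent.Lib.MP_6b8987_gt
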