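import Pool.Agent.Lib.MP_6b8987_gt.PConf

set_option autoImplicit false

namespace Pool.Agent.Lib.MP_6b8987_gt

open MeasureTheory Set

/-- Open subsets of `ℝ^{2n}` satisfy the hypotheses put on the target manifold. -/
theorem sanity {n : ℕ} {U : Set (R2n n)} (hU : IsOpen U) [Nonempty U] :
    ∃ _ : ChartedSpace (R2n n) U, IsSympAtlas n U ∧
      IsSympVolume n ((volume : Measure (R2n n)).comap (Subtype.val : U → R2n n)) := by
  let e := hU.isOpenEmbedding_subtypeVal.toOpenPartialHomeomorph
  refine ⟨hU.isOpenEmbedding_subtypeVal.singletonChartedSpace, ?_, ?_⟩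
  · rintro _ rfl _ rfl
    refine Conf.emb (Conf.congr (φ := id) ⟨e.isOpen_inter_preimage_symm e.open_source,
      contDiffOn_id, injOn_id _, fun x _ u v => by simp⟩ fun x hx => e.right_inv hx.1)
  · rintro _ rfl A hA hA'
    rw [(MeasurableEmbedding.subtype_coe hU.measurableSet).comap_apply]
    exact congrArg _ (e.image_symm_image_of_subset_target hA)

end Pool.Agent.Lib.MP_6b8987_gt
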