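import Pool.Agent.Lib.MP_6b8987_gt.PMain

set_option autoImplicit false

namespace Pool.Agent.Lib.MP_6b8987_gt

open MeasureTheory Set Filter Topology Real
open scoped ENNReal Pointwise ContDiff

theorem Conf.of_leftInv {E F : Type} [NormedAddCommGroup E] [NormedSpace ℝ E]
    [NormedAddCommGroup F] [NormedSpace ℝ F] {σ : E → E → ℝ} {σ' : F → F → ℝ} {V : Set F}
    {ψ : F → E} (h : Conf σ' σ 1 V ψ) {U : Set E} {φ : E → F} (hU : IsOpen U)
    (hs : ContDiffOn ℝ ∞ φ U) (hm : MapsTo φ U V) (hl : ∀ x ∈ U, ψ (φ x) = x) :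
    Conf σ σ' 1 U φ := by
  refine ⟨hU, hs, fun x hx y hy e => by rw [← hl x hx, e, hl y hy], fun x hx u v => ?_⟩
  have h1 : DifferentiableAt ℝ φ x := (hs.contDiffAt (hU.mem_nhds hx)).differentiableAt (by simp)
  have h2 : ψ ∘ φ =ᶠ[𝓝 x] id := eventually_of_mem (hU.mem_nhds hx) hl
  have h3 := h2.fderiv_eq (𝕜 := ℝ)
  rw [fderiv_comp x (h.diffAt (hm hx)) h1, fderiv_id] at h3
  have h4 : ∀ a, fderiv ℝ ψ (φ x) (fderiv ℝ φ x a) = a := fun a =>
    congrArg (fun L : E →L[ℝ] E => L a) h3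
  rw [← one_mul (σ' _ _), ← h.form _ (hm hx), h4, h4, one_mul]

theorem conf_id : Conf om2 om2 1 univ (id : ℝ × ℝ → ℝ × ℝ) :=
  ⟨isOpen_univ, contDiffOn_id, injOn_id _, fun x _ u v => by simp⟩

/-- Translation of the action coordinate. -/
noncomputable def tra (t : ℝ) (p : ℝ × ℝ) : ℝ × ℝ :=
  √(1 + t / (π * (p.1 ^ 2 + p.2 ^ 2))) • p

theorem tra_sq {t : ℝ} (ht : 0 ≤ t) {p : ℝ × ℝ} (hp : 0 < p.1 ^ 2 + p.2 ^ 2) :
    π * ((tra t p).1 ^ 2 + (tra t p).2 ^ 2) = π * (p.1 ^ 2 + p.2 ^ 2) + t := by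
  have := pi_pos
  simp only [tra, Prod.smul_fst, Prod.smul_snd, smul_eq_mul, mul_pow, ← mul_add]
  rw [sq_sqrt (by positivity)]
  field_simp

theorem conf_tra {t : ℝ} (ht : 0 ≤ t) :
    Conf om2 om2 1 {p | 0 < p.1 ^ 2 + p.2 ^ 2} (tra t) := by
  have hπ := pi_pos
  have hpos : ∀ p : ℝ × ℝ, 0 < p.1 ^ 2 + p.2 ^ 2 → 0 < 1 + t / (π * (p.1 ^ 2 + p.2 ^ 2)) :=
    fun p hp => by positivity
  refine ⟨isOpen_lt continuous_const (by fun_prop), ?_, fun p hp q hq e => ?_,
    fun p hp u v => ?_⟩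
  · refine ContDiffOn.smul (ContDiffOn.sqrt (contDiffOn_const.add (contDiffOn_const.div
      (by fun_prop) fun p hp => ?_)) fun p hp => (hpos p hp).ne') contDiffOn_id
    exact (mul_pos hπ hp).ne'
  · have h1 := tra_sq ht hp
    rw [e, tra_sq ht hq, add_left_inj] at h1
    unfold tra at e
    rw [h1] at e
    exact smul_right_injective _ (sqrt_pos.2 (hpos p hp)).ne' e
  · have hp' : 0 < p.1 ^ 2 + p.2 ^ 2 := hp
    have f1 : HasFDerivAt Prod.fst (ContinuousLinearMap.fst ℝ ℝ ℝ) p := hasFDerivAt_fst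
    have f2 : HasFDerivAt Prod.snd (ContinuousLinearMap.snd ℝ ℝ ℝ) p := hasFDerivAt_snd
    have h1 : HasDerivAt (fun s : ℝ => √(1 + t / (π * s))) _ (p.1 ^ 2 + p.2 ^ 2) :=
      (((hasDerivAt_const _ t).fun_div ((hasDerivAt_id' _).const_mul π)
        (by positivity)).const_add 1).sqrt (hpos p hp).ne'
    have f3 : HasFDerivAt (fun q : ℝ × ℝ => q.1 ^ 2 + q.2 ^ 2) _ p := (f1.pow 2).add (f2.pow 2)
    have f4 := (h1.comp_hasFDerivAt p f3).smul (hasFDerivAt_id p)
    have h2 : HasFDerivAt (tra t) _ p := f4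
    rw [h2.fderiv]
    have h3 := sq_sqrt (hpos p hp).le
    have h4 := sqrt_pos.2 (hpos p hp)
    simp only [om2, add_apply, smul_apply, ContinuousLinearMap.id_apply,
      ContinuousLinearMap.smulRight_apply, ContinuousLinearMap.coe_fst',
      ContinuousLinearMap.coe_snd', Prod.fst_add, Prod.snd_add, Prod.smul_fst, Prod.smul_snd,
      smul_eq_mul, Function.comp_apply, id, nsmul_eq_mul]
    generalize √(1 + t / (π * (p.1 ^ 2 + p.2 ^ 2))) = ρ at h3 h4
    have h5 : t = (ρ ^ 2 - 1) * (π * (p.1 ^ 2 + p.2 ^ 2)) := by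
      rw [h3]
      field_simp
      ring
    rw [h5]
    field_simp
    ring

/-- Action-angle coordinates. -/
noncomputable def ip (p : ℝ × ℝ) : ℝ × ℝ :=
  (√(p.1 / π) * cos (2 * π * p.2), √(p.1 / π) * sin (2 * π * p.2))

theorem ip_sq {p : ℝ × ℝ} (hp : 0 < p.1) : π * ((ip p).1 ^ 2 + (ip p).2 ^ 2) = p.1 := by
  have := pi_pos
  simp only [ip, mul_pow, ← mul_add, cos_sq_add_sin_sq]
  rw [sq_sqrt (by positivity)]
  field_simp

theorem conf_ip : Conf om2 om2 1 {p | 0 < p.1 ∧ p.2 ∈ Ioo (0 : ℝ) 1} ip := by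
  have hπ := pi_pos
  have hs : ContDiffOn ℝ ∞ (fun p : ℝ × ℝ => √(p.1 / π)) {p | 0 < p.1 ∧ p.2 ∈ Ioo (0 : ℝ) 1} :=
    ContDiffOn.sqrt (by fun_prop) fun p hp => (div_pos hp.1 hπ).ne'
  refine ⟨(isOpen_lt continuous_const continuous_fst).inter (isOpen_Ioo.preimage continuous_snd),
    (hs.mul (by fun_prop)).prodMk (hs.mul (by fun_prop)), fun p hp q hq e => ?_,
    fun p hp u v => ?_⟩
  · have h1 := ip_sq hp.1
    rw [e, ip_sq hq.1] at h1
    simp only [ip, h1, Prod.mk.injEq] at e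
    have h2 := (sqrt_pos.2 (div_pos hp.1 hπ)).ne'
    have h3 : cos (2 * π * p.2 - 2 * π * q.2) = 1 := by
      rw [cos_sub, mul_left_cancel₀ h2 e.1, mul_left_cancel₀ h2 e.2, ← sq, ← sq, cos_sq_add_sin_sq]
    rw [cos_eq_one_iff_of_lt_of_lt (by nlinarith [hp.2.1, hq.2.2])
      (by nlinarith [hp.2.2, hq.2.1]), ← mul_sub] at h3
    exact Prod.ext h1.symm (sub_eq_zero.1 ((mul_eq_zero.1 h3).resolve_left (by positivity)))
  · have f1 : HasFDerivAt Prod.fst (ContinuousLinearMap.fst ℝ ℝ ℝ) p := hasFDerivAt_fst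
    have f2 : HasFDerivAt Prod.snd (ContinuousLinearMap.snd ℝ ℝ ℝ) p := hasFDerivAt_snd
    have h0 := div_pos hp.1 hπ
    have h1 := (((hasDerivAt_id' p.1).div_const π).sqrt h0.ne').comp_hasFDerivAt p f1
    have h2 : HasFDerivAt ip _ p :=
      (h1.mul (f2.const_mul (2 * π)).cos).prodMk (h1.mul (f2.const_mul (2 * π)).sin)
    rw [h2.fderiv]
    have h4 := sqrt_pos.2 h0
    simp only [om2, add_apply, smul_apply, ContinuousLinearMap.prod_apply,
      ContinuousLinearMap.coe_fst', ContinuousLinearMap.coe_snd', smul_eq_mul,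
      Function.comp_apply]
    have h5 := cos_sq_add_sin_sq (2 * π * p.2)
    generalize √(p.1 / π) = ρ at h4
    generalize cos (2 * π * p.2) = C at h5
    generalize sin (2 * π * p.2) = S at h5
    field_simp
    linear_combination (u.1 * v.2 - u.2 * v.1) * 4 * π ^ 2 * ρ ^ 2 * h5

/-- The inverse of `ip` on the slit plane. -/
noncomputable def ap (p : ℝ × ℝ) : ℝ × ℝ :=
  (π * (p.1 ^ 2 + p.2 ^ 2), 1 / 2 + (Complex.log (-(p.1 + p.2 * Complex.I))).im / (2 * π))

theorem ap_slit {p : ℝ × ℝ} (hp : p.2 ≠ 0 ∨ p.1 < 0) :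
    -((p.1 : ℂ) + p.2 * Complex.I) ∈ Complex.slitPlane := by
  rw [Complex.mem_slitPlane_iff]
  rcases hp with h | h
  · right; simpa using h
  · left; simpa using h

theorem ap_mem {p : ℝ × ℝ} (hp : p.2 ≠ 0 ∨ p.1 < 0) :
    0 < (ap p).1 ∧ (ap p).2 ∈ Ioo (0 : ℝ) 1 := by
  have hπ := pi_pos
  have h1 := Complex.neg_pi_lt_arg (-((p.1 : ℂ) + p.2 * Complex.I))
  have h2 := (Complex.arg_le_pi _).lt_of_ne (Complex.mem_slitPlane_iff_arg.1 (ap_slit hp)).1
  have h3 : -(1 / 2) < (-((p.1 : ℂ) + p.2 * Complex.I)).arg / (2 * π) := by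
    rw [lt_div_iff₀ (by positivity)]; linarith
  have h4 : (-((p.1 : ℂ) + p.2 * Complex.I)).arg / (2 * π) < 1 / 2 := by
    rw [div_lt_iff₀ (by positivity)]; linarith
  simp only [ap, Complex.log_im, mem_Ioo]
  refine ⟨mul_pos hπ ?_, by linarith, by linarith⟩
  rcases hp with h | h
  · positivity
  · nlinarith [sq_nonneg p.2]

theorem conf_ap : Conf om2 om2 1 {p | p.2 ≠ 0 ∨ p.1 < 0} ap := by
  have hπ := pi_pos
  refine conf_ip.of_leftInv ((isOpen_ne_fun continuous_snd continuous_const).union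
    (isOpen_lt continuous_fst continuous_const)) ?_ (fun p hp => ap_mem hp) fun p hp => ?_
  · refine ContDiffOn.prodMk (by fun_prop) (contDiffOn_const.add (ContDiffOn.div_const ?_ _))
    intro p hp
    have h1 : ContDiff ℝ ∞ fun p : ℝ × ℝ => -((p.1 : ℂ) + p.2 * Complex.I) :=
      ((Complex.ofRealCLM.contDiff.comp contDiff_fst).add
        ((Complex.ofRealCLM.contDiff.comp contDiff_snd).mul contDiff_const)).neg
    exact (Complex.imCLM.contDiff.contDiffAt.comp p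
      (((Complex.contDiffAt_log (ap_slit hp)).restrict_scalars ℝ).comp p
        h1.contDiffAt)).contDiffWithinAt
  · have h1 : ‖-((p.1 : ℂ) + p.2 * Complex.I)‖ = √(p.1 ^ 2 + p.2 ^ 2) := by
      rw [norm_neg, Complex.norm_add_mul_I]
    have h2 := Complex.norm_mul_cos_arg (-((p.1 : ℂ) + p.2 * Complex.I))
    have h3 := Complex.norm_mul_sin_arg (-((p.1 : ℂ) + p.2 * Complex.I))
    rw [h1] at h2 h3
    have h4 : ∀ a : ℝ, 2 * π * (1 / 2 + a / (2 * π)) = a + π := fun a => by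
      field_simp
      ring
    simp only [ip, ap, Complex.log_im, h4, cos_add_pi, sin_add_pi, mul_neg, h2, h3,
      mul_div_cancel_left₀ _ hπ.ne']
    simp

/-- Rotations of the plane. -/
noncomputable def rot (β : ℝ) (p : ℝ × ℝ) : ℝ × ℝ :=
  (cos β * p.1 - sin β * p.2, sin β * p.1 + cos β * p.2)

theorem rot_sq (β : ℝ) (p : ℝ × ℝ) : (rot β p).1 ^ 2 + (rot β p).2 ^ 2 = p.1 ^ 2 + p.2 ^ 2 := by
  simp only [rot]
  linear_combination (p.1 ^ 2 + p.2 ^ 2) * cos_sq_add_sin_sq β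

theorem rot_inj (β : ℝ) {p q : ℝ × ℝ} (h : rot β p = rot β q) : p = q := by
  simp only [rot, Prod.mk.injEq] at h
  refine Prod.ext ?_ ?_
  · linear_combination cos β * h.1 + sin β * h.2 - (p.1 - q.1) * cos_sq_add_sin_sq β
  · linear_combination cos β * h.2 - sin β * h.1 - (p.2 - q.2) * cos_sq_add_sin_sq β

theorem om2_rot {E : Type} [NormedAddCommGroup E] [NormedSpace ℝ E] {a : E → ℝ} {a' : E →L[ℝ] ℝ}
    {z : E} (ha : HasFDerivAt a a' z) (L : E →L[ℝ] ℝ × ℝ) (u v : E) :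
    om2 (fderiv ℝ (fun z => rot (a z) (L z)) z u) (fderiv ℝ (fun z => rot (a z) (L z)) z v) =
      om2 (L u) (L v) + ((L z).1 * (L u).1 + (L z).2 * (L u).2) * a' v -
        ((L z).1 * (L v).1 + (L z).2 * (L v).2) * a' u := by
  have f1 := (L.hasFDerivAt (x := z)).fst
  have f2 := (L.hasFDerivAt (x := z)).snd
  have h : HasFDerivAt (fun z => rot (a z) (L z)) _ z :=
    ((ha.cos.mul f1).sub (ha.sin.mul f2)).prodMk ((ha.sin.mul f1).add (ha.cos.mul f2))
  rw [h.fderiv]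
  simp only [om2, add_apply, sub_apply, smul_apply, ContinuousLinearMap.prod_apply,
    ContinuousLinearMap.comp_apply, ContinuousLinearMap.coe_fst', ContinuousLinearMap.coe_snd',
    smul_eq_mul]
  linear_combination ((L u).1 * (L v).2 - (L u).2 * (L v).1 +
    ((L z).1 * (L u).1 + (L z).2 * (L u).2) * a' v -
    ((L z).1 * (L v).1 + (L z).2 * (L v).2) * a' u) * cos_sq_add_sin_sq (a z)

theorem clm_sum {k : ℕ} (f : (Fin k → ℝ) →L[ℝ] ℝ) (x : Fin k → ℝ) :
    f x = ∑ i, x i * f (Pi.single i 1) := by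
  conv_lhs => rw [pi_eq_sum_univ' x, map_sum]
  simp only [map_smul, smul_eq_mul]

variable {m : ℕ}

/-- The base map: the first position coordinate and the other actions. -/
noncomputable def bs (z : R2n (m + 1)) : Fin (m + 1) → ℝ :=
  Matrix.vecCons (z (Sum.inl 0)) fun j => π * sqMod z j.succ

theorem contDiff_bs : ContDiff ℝ ∞ (bs (m := m)) := by
  refine contDiff_pi.2 fun j => ?_
  refine Fin.cases ?_ (fun j => ?_) j
  · simp only [bs, Matrix.cons_val_zero]
    fun_prop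
  · simp only [bs, Matrix.cons_val_succ, sqMod]
    fun_prop

theorem fderiv_bs (z u : R2n (m + 1)) : fderiv ℝ bs z u = Matrix.vecCons (u (Sum.inl 0))
    fun j => 2 * π * ((pr j.succ z).1 * (pr j.succ u).1 + (pr j.succ z).2 * (pr j.succ u).2) := by
  have h := ((contDiff_bs (m := m)).differentiable (by simp) z).hasFDerivAt
  funext j
  have hj := (hasFDerivAt_pi'.1 h j)
  refine Fin.cases (motive := fun j => HasFDerivAt (fun x => bs x j)
    ((ContinuousLinearMap.proj j).comp (fderiv ℝ bs z)) z → fderiv ℝ bs z u j =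
      Matrix.vecCons (u (Sum.inl 0)) (fun j => 2 * π * ((pr j.succ z).1 * (pr j.succ u).1 +
        (pr j.succ z).2 * (pr j.succ u).2)) j) (fun hj => ?_) (fun j hj => ?_) j hj
  · exact congrArg (fun L : R2n (m + 1) →L[ℝ] ℝ => L u)
      (hj.unique ((pr (0 : Fin (m + 1))).hasFDerivAt (x := z)).fst)
  · have f1 := ((pr j.succ).hasFDerivAt (x := z)).fst
    have f2 := ((pr j.succ).hasFDerivAt (x := z)).snd
    have h1 := congrArg (fun L : R2n (m + 1) →L[ℝ] ℝ => L u)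
      (hj.unique (((f1.pow 2).add (f2.pow 2)).const_mul π))
    refine Eq.trans h1 ?_
    simp only [add_apply, smul_apply, ContinuousLinearMap.comp_apply,
      ContinuousLinearMap.coe_fst', ContinuousLinearMap.coe_snd', smul_eq_mul, nsmul_eq_mul,
      Matrix.cons_val_succ]
    push_cast
    ring

/-- The rotation angles of the shear. -/
noncomputable def ang (G : (Fin (m + 1) → ℝ) → ℝ) (j : Fin m) (z : R2n (m + 1)) : ℝ :=
  -(2 * π) * (fderiv ℝ G (bs z) (Pi.single j.succ 1) * z (Sum.inr 0))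

/-- The shear along the first position coordinate. -/
noncomputable def sh (G : (Fin (m + 1) → ℝ) → ℝ) (z : R2n (m + 1)) : R2n (m + 1) :=
  pm (Matrix.vecCons (fun p => (p.1 + G (bs z), p.2)) fun j => rot (ang G j z)) z

theorem pr_sh_zero (G : (Fin (m + 1) → ℝ) → ℝ) (z : R2n (m + 1)) :
    pr 0 (sh G z) = (z (Sum.inl 0) + G (bs z), z (Sum.inr 0)) := rfl

theorem pr_sh_succ (G : (Fin (m + 1) → ℝ) → ℝ) (z : R2n (m + 1)) (j : Fin m) :
    pr j.succ (sh G z) = rot (ang G j z) (pr j.succ z) := rfl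

theorem sqMod_sh (G : (Fin (m + 1) → ℝ) → ℝ) (z : R2n (m + 1)) (j : Fin m) :
    sqMod (sh G z) j.succ = sqMod z j.succ := rot_sq _ (pr j.succ z)

theorem conf_sh {G : (Fin (m + 1) → ℝ) → ℝ} (hG : ContDiff ℝ ∞ G) {U : Set (Fin (m + 1) → ℝ)}
    (hU : IsOpen U) (h0 : ∀ b ∈ U, fderiv ℝ G b (Pi.single 0 1) = 0)
    (hi : ∀ b ∈ U, ∀ b' ∈ U, (∀ j : Fin m, b j.succ = b' j.succ) → b 0 + G b = b' 0 + G b' →
      b = b') : Conf omega0 omega0 1 (bs ⁻¹' U) (sh G) := by
  have hG' : ContDiff ℝ ∞ (fderiv ℝ G) := (contDiff_infty_iff_fderiv.1 hG).2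
  have ha : ∀ j, ContDiff ℝ ∞ (ang G j) := fun j =>
    contDiff_const.mul (((hG'.comp contDiff_bs).clm_apply contDiff_const).mul (by fun_prop))
  have hs : ContDiff ℝ ∞ (sh G) := by
    rw [contDiff_euclidean]
    rintro (j | j) <;> refine Fin.cases ?_ (fun j => ?_) j
    · exact (pr 0).contDiff.fst.add (hG.comp contDiff_bs)
    · exact ((ha j).cos.mul (pr j.succ).contDiff.fst).sub ((ha j).sin.mul (pr j.succ).contDiff.snd)
    · exact (pr 0).contDiff.snd
    · exact ((ha j).sin.mul (pr j.succ).contDiff.fst).add ((ha j).cos.mul (pr j.succ).contDiff.snd)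
  refine ⟨hU.preimage contDiff_bs.continuous, hs.contDiffOn, fun z hz w hw e => ?_,
    fun z hz u v => ?_⟩
  · have e0 := congrArg (pr 0) e
    rw [pr_sh_zero, pr_sh_zero, Prod.mk.injEq] at e0
    have hb : bs z = bs w := hi _ hz _ hw (fun j => by
      simp only [bs, Matrix.cons_val_succ]
      rw [← sqMod_sh G z, e, sqMod_sh]) e0.1
    refine ext_pr fun j => Fin.cases (Prod.ext (congrFun hb 0) e0.2) (fun j => ?_) j
    have e1 := congrArg (pr j.succ) e
    rw [pr_sh_succ, pr_sh_succ, ang, ang, hb, e0.2] at e1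
    exact rot_inj _ e1
  have hd := (hs.differentiable (by simp) z).hasFDerivAt
  have hb := (contDiff_bs.differentiable (by simp) z).hasFDerivAt
  have hg := (hG.differentiable (by simp) (bs z)).hasFDerivAt
  have hg' := (hG'.differentiable (by simp) (bs z)).hasFDerivAt
  have hy := ((pr (0 : Fin (m + 1))).hasFDerivAt (x := z)).snd
  have key : ∀ i a, pr i (fderiv ℝ (sh G) z a) = fderiv ℝ (fun z => pr i (sh G z)) z a :=
    fun i a => congrArg (fun L : R2n (m + 1) →L[ℝ] ℝ × ℝ => L a)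
      ((pr i).hasFDerivAt.comp z hd).fderiv.symm
  have k0 : ∀ a, pr 0 (fderiv ℝ (sh G) z a) =
      (a (Sum.inl 0) + fderiv ℝ G (bs z) (fderiv ℝ bs z a), a (Sum.inr 0)) := fun a => by
    have h1 : HasFDerivAt (fun z => pr 0 (sh G z)) _ z :=
      (((pr (0 : Fin (m + 1))).hasFDerivAt (x := z)).fst.add (hg.comp z hb)).prodMk hy
    rw [key, h1.fderiv]
    rfl
  have k1 : ∀ j : Fin m, HasFDerivAt (ang G j) _ z := fun j =>
    (((hg'.comp z hb).clm_apply (hasFDerivAt_const (Pi.single j.succ (1 : ℝ)) z)).mul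
      hy).const_mul (-(2 * π))
  have s1 : fderiv ℝ (fderiv ℝ G) (bs z) (fderiv ℝ bs z u) (fderiv ℝ bs z v) =
      fderiv ℝ (fderiv ℝ G) (bs z) (fderiv ℝ bs z v) (fderiv ℝ bs z u) :=
    (hG.contDiffAt.isSymmSndFDerivAt
      (by simp only [minSmoothness_of_isRCLikeNormedField]; norm_cast)) _ _
  have s2 : ∀ a, fderiv ℝ (fderiv ℝ G) (bs z) a (Pi.single 0 1) = 0 := fun a => by
    have h1 := hg'.clm_apply (hasFDerivAt_const (Pi.single (0 : Fin (m + 1)) (1 : ℝ)) (bs z))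
    have h2 : (fun b => fderiv ℝ G b (Pi.single 0 1)) =ᶠ[𝓝 (bs z)] fun _ => 0 :=
      eventually_of_mem (hU.mem_nhds hz) h0
    have h3 := congrArg (fun L : (Fin (m + 1) → ℝ) →L[ℝ] ℝ => L a)
      (h1.unique ((hasFDerivAt_const (0 : ℝ) (bs z)).congr_of_eventuallyEq h2))
    simpa using h3
  rw [clm_sum, clm_sum _ (fderiv ℝ bs z u), Fin.sum_univ_succ, Fin.sum_univ_succ, s2, s2] at s1
  have s3 := clm_sum (fderiv ℝ G (bs z)) (fderiv ℝ bs z u)
  have s4 := clm_sum (fderiv ℝ G (bs z)) (fderiv ℝ bs z v)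
  rw [Fin.sum_univ_succ, h0 _ hz] at s3 s4
  have k2 : ∀ j : Fin m, om2 (pr j.succ (fderiv ℝ (sh G) z u)) (pr j.succ (fderiv ℝ (sh G) z v)) =
      om2 (pr j.succ u) (pr j.succ v) +
      (z (Sum.inr 0) * (fderiv ℝ bs z v j.succ *
          fderiv ℝ (fderiv ℝ G) (bs z) (fderiv ℝ bs z u) (Pi.single j.succ 1)) -
        z (Sum.inr 0) * (fderiv ℝ bs z u j.succ *
          fderiv ℝ (fderiv ℝ G) (bs z) (fderiv ℝ bs z v) (Pi.single j.succ 1)) +
        u (Sum.inr 0) * (fderiv ℝ bs z v j.succ * fderiv ℝ G (bs z) (Pi.single j.succ 1)) -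
        v (Sum.inr 0) * (fderiv ℝ bs z u j.succ * fderiv ℝ G (bs z) (Pi.single j.succ 1))) := by
    intro j
    rw [key, key]
    refine (om2_rot (k1 j) (pr j.succ) u v).trans ?_
    have b1 := congrFun (fderiv_bs z u) j.succ
    have b2 := congrFun (fderiv_bs z v) j.succ
    rw [Matrix.cons_val_succ] at b1 b2
    rw [b1, b2]
    simp only [add_apply, smul_apply, ContinuousLinearMap.comp_apply,
      ContinuousLinearMap.coe_snd', smul_eq_mul, Function.comp_apply, pr_snd,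
      ContinuousLinearMap.flip_apply, ContinuousLinearMap.comp_zero, zero_add]
    ring
  rw [omega0_eq, omega0_eq, Fin.sum_univ_succ, Fin.sum_univ_succ, k0, k0]
  simp only [k2, Finset.sum_add_distrib, Finset.sum_sub_distrib, ← Finset.mul_sum]
  simp only [om2, pr_fst, pr_snd]
  linear_combination z (Sum.inr 0) * s1 + v (Sum.inr 0) * s3 - u (Sum.inr 0) * s4

end Pool.Agent.Lib.MP_6b8987_gt
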