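import Pool.Agent.Lib.MP_6b8987_gt.PDefs

set_option autoImplicit false

namespace Pool.Agent.Lib.MP_6b8987_gt

/-- The toric domain with moment image `Ω`. -/
def toric {n : ℕ} (Ω : Set (Fin n → ℝ)) : Set (R2n n) :=
  {z | (fun i => Real.pi * sqMod z i) ∈ Ω}

/-- The hypersurface on which the `i`-th complex coordinate is real and non-negative. -/
def slit {n : ℕ} (i : Fin n) : Set (R2n n) :=
  {z | z (Sum.inr i) = 0 ∧ 0 ≤ z (Sum.inl i)}

end Pool.Agent.Lib.MP_6b8987_gt
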