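import Pool.Agent.Lib.MP_6b8987_gt.PStack
import Pool.Agent.Lib.MP_6b8987_gt.SDefs

set_option autoImplicit false

namespace Pool.Agent.Lib.MP_6b8987_gt

open MeasureTheory Set Filter Topology Real
open scoped ENNReal Pointwise ContDiff

theorem ip_slit {p : ℝ × ℝ} (h1 : 0 < p.1) (h2 : p.2 ∈ Ioo (0 : ℝ) 1) :
    (ip p).2 ≠ 0 ∨ (ip p).1 < 0 := by
  have hπ := pi_pos
  have h3 : 0 < √(p.1 / π) := sqrt_pos.2 (div_pos h1 hπ)
  by_contra h
  push Not at h
  have h4 : sin (2 * π * p.2) = 0 := (mul_eq_zero.1 h.1).resolve_left h3.ne'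
  have h5 : 0 ≤ cos (2 * π * p.2) := (mul_nonneg_iff_of_pos_left h3).1 h.2
  have h6 : cos (2 * π * p.2) = 1 := by
    have := cos_sq_add_sin_sq (2 * π * p.2)
    rw [h4] at this
    nlinarith
  rw [cos_eq_one_iff_of_lt_of_lt (by nlinarith [h2.1]) (by nlinarith [h2.2])] at h6
  nlinarith [h2.1]

variable {m : ℕ} {Ω : Set (Fin (m + 1) → ℝ)}

theorem mem_slitDom {z : R2n (m + 1)} : z ∈ toric Ω \ slit 0 ↔
    (fun i => π * sqMod z i) ∈ Ω ∧ (z (Sum.inr 0) ≠ 0 ∨ z (Sum.inl 0) < 0) := by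
  simp only [toric, slit, Set.mem_sdiff, mem_ofPred_eq, not_and_or, not_le]

theorem isOpen_slitDom (hΩ : IsOpen Ω) : IsOpen (toric Ω \ slit 0) := by
  refine IsOpen.sdiff (hΩ.preimage (by unfold sqMod; fun_prop)) ?_
  exact (isClosed_eq (pr 0).continuous.snd continuous_const).inter
    (isClosed_le continuous_const (pr 0).continuous.fst)

theorem mapsTo_ip (hp : ∀ b ∈ Ω, ∀ j, 0 < b j) :
    MapsTo (pm fun _ => ip) (lagCube Ω) (toric Ω \ slit 0) := fun z hz => by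
  refine mem_slitDom.2 ⟨?_, ip_slit (p := pr 0 z) (hp _ hz.1 0) (hz.2 0)⟩
  convert hz.1 using 2 with i
  exact ip_sq (p := pr i z) (hp _ hz.1 i)

theorem nonempty_slitDom (hne : Ω.Nonempty) (hp : ∀ b ∈ Ω, ∀ j, 0 < b j) :
    (toric Ω \ slit 0).Nonempty := by
  obtain ⟨b, hb⟩ := hne
  exact ⟨_, mapsTo_ip hp (x := pm (fun i _ => (b i, 1 / 2)) 0)
    ⟨hb, fun i => by norm_num⟩⟩

theorem fitsN_slitDom (hΩ : IsOpen Ω) (hb : Bornology.IsBounded Ω) (hne : Ω.Nonempty)
    (hp : ∀ b ∈ Ω, ∀ j, 0 < b j) (hf : volume (frontier Ω) = 0) :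
    FitsN (toric Ω \ slit 0) := fun c hc => by
  obtain ⟨K, hK, N, hN, S, h1, h2, h3, h4⟩ := stack hΩ hb hne (fun b hb j => hp b hb j.succ) hc
  have hA : Conf omega0 omega0 1 (toric Ω \ slit 0) (pm (Matrix.vecCons ap fun _ => id)) :=
    (conf_pm (W := Matrix.vecCons {p | p.2 ≠ 0 ∨ p.1 < 0} fun _ => univ)
      (Fin.cases conf_ap fun _ => conf_id)).mono (isOpen_slitDom hΩ)
      fun z hz => Fin.cases (mem_slitDom.1 hz).2 fun _ => mem_univ _
  have hm : MapsTo (pm (Matrix.vecCons ap fun _ => id)) (toric Ω \ slit 0) (slab Ω) :=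
    fun z hz => by
      refine ⟨?_, (ap_mem (p := pr 0 z) (mem_slitDom.1 hz).2).2⟩
      convert (mem_slitDom.1 hz).1 using 1
      exact funext fun j => Fin.cases rfl (fun _ => rfl) j
  refine ⟨K, hK, N, hN, fun i => S i ∘ _, fun i => by simpa using (h1 i).comp hA hm,
    fun i => (h2 i).comp hm, fun i j hij => (h3 hij).mono ?_ ?_, h4.trans ?_⟩
  · rw [image_comp]
    exact image_mono hm.image_subset
  · rw [image_comp]
    exact image_mono hm.image_subset
  · have ho := (fits_lagCube hΩ hb hf).1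
    have hI : Conf omega0 omega0 1 (lagCube Ω) (pm fun _ => ip) :=
      (conf_pm fun _ => conf_ip).mono ho fun z hz i => ⟨hp _ hz.1 i, hz.2 i⟩
    gcongr
    rw [closure_eq_self_union_frontier]
    refine (measure_union_le _ _).trans ?_
    rw [hf, add_zero, ← volume_lagCube, ← hI.volume_image ho.measurableSet subset_rfl]
    exact measure_mono (mapsTo_ip hp).image_subset

end Pool.Agent.Lib.MP_6b8987_gt
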