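import Pool.Agent.Lib.MP_6b8987_gt.PShear

set_option autoImplicit false

namespace Pool.Agent.Lib.MP_6b8987_gt

open MeasureTheory Set Filter Topology Real
open scoped ENNReal Pointwise ContDiff

/-- A bump whose integer translates form a partition of unity. -/
noncomputable def eta (u : ℝ) : ℝ := smoothTransition u - smoothTransition (u - 1)

/-- A primitive of `eta`. -/
noncomputable def prim (u : ℝ) : ℝ := ∫ x in (u - 1)..u, smoothTransition x

theorem eta_nonneg (u : ℝ) : 0 ≤ eta u := sub_nonneg.2 (smoothTransition.monotone (by linarith))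

theorem mem_of_eta_ne {u : ℝ} (h : eta u ≠ 0) : u ∈ Icc (0 : ℝ) 2 := by
  by_contra hu
  rw [mem_Icc, not_and_or, not_le, not_le] at hu
  apply h
  rcases hu with hu | hu
  · rw [eta, smoothTransition.zero_of_nonpos hu.le, smoothTransition.zero_of_nonpos (by linarith),
      sub_self]
  · rw [eta, smoothTransition.one_of_one_le (by linarith),
      smoothTransition.one_of_one_le (by linarith), sub_self]

@[fun_prop]
theorem contDiff_eta : ContDiff ℝ ∞ eta :=
  smoothTransition.contDiff.sub (smoothTransition.contDiff.comp (contDiff_id.sub contDiff_const))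

theorem hasDerivAt_prim (u : ℝ) : HasDerivAt prim (eta u) u := by
  have hc := smoothTransition.continuous
  have h1 : prim = fun u => (∫ x in (0 : ℝ)..u, smoothTransition x) -
      ∫ x in (0 : ℝ)..(u - 1), smoothTransition x := funext fun u =>
    (intervalIntegral.integral_interval_sub_left (hc.intervalIntegrable _ _)
      (hc.intervalIntegrable _ _)).symm
  rw [h1]
  exact (hc.integral_hasStrictDerivAt 0 u).hasDerivAt.sub
    ((hc.integral_hasStrictDerivAt 0 (u - 1)).hasDerivAt.comp_sub_const u 1)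

@[fun_prop]
theorem contDiff_prim : ContDiff ℝ ∞ prim := by
  refine contDiff_infty_iff_deriv.2 ⟨fun u => (hasDerivAt_prim u).differentiableAt, ?_⟩
  rw [show deriv prim = eta from funext fun u => (hasDerivAt_prim u).deriv]
  exact contDiff_eta

theorem prim_nonneg (u : ℝ) : 0 ≤ prim u :=
  intervalIntegral.integral_nonneg (by linarith) fun x _ => smoothTransition.nonneg x

theorem prim_le_one (u : ℝ) : prim u ≤ 1 := by
  have := intervalIntegral.integral_mono_on (a := u - 1) (b := u) (by linarith)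
    (smoothTransition.continuous.intervalIntegrable (μ := volume) _ _)
    (continuous_const.intervalIntegrable _ _) fun x _ => smoothTransition.le_one x
  simpa [prim] using this

theorem prim_mono : Monotone prim :=
  monotone_of_deriv_nonneg (fun u => (hasDerivAt_prim u).differentiableAt) fun u => by
    rw [(hasDerivAt_prim u).deriv]; exact eta_nonneg u

theorem sum_eta (u : ℝ) (M : ℕ) :
    ∑ k ∈ Finset.range M, eta (u - k) = smoothTransition u - smoothTransition (u - M) := by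
  have := Finset.sum_range_sub' (fun k : ℕ => smoothTransition (u - k)) M
  simpa [eta, sub_sub] using this

variable {m : ℕ} {δ A : ℝ} {C : Finset (Fin (m + 1) → ℕ)}

/-- The weight of a cell in the directions of the actions. -/
noncomputable def wt (δ A : ℝ) (c : Fin (m + 1) → ℕ) (b : Fin (m + 1) → ℝ) : ℝ :=
  ∏ j : Fin m, eta (b j.succ / δ + A - c j.succ)

/-- The compressed first coordinate. -/
noncomputable def Phi (δ A : ℝ) (C : Finset (Fin (m + 1) → ℕ)) (b : Fin (m + 1) → ℝ) : ℝ :=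
  ∑ c ∈ C, wt δ A c b * (δ * prim (b 0 / δ + A - c 0))

/-- The height of the compressed set. -/
noncomputable def hgt (δ A : ℝ) (C : Finset (Fin (m + 1) → ℕ)) (b : Fin (m + 1) → ℝ) : ℝ :=
  ∑ c ∈ C, wt δ A c b * δ

theorem wt_nonneg (c : Fin (m + 1) → ℕ) (b : Fin (m + 1) → ℝ) : 0 ≤ wt δ A c b :=
  Finset.prod_nonneg fun _ _ => eta_nonneg _

theorem contDiff_wt (c : Fin (m + 1) → ℕ) : ContDiff ℝ ∞ (wt δ A c) :=
  contDiff_prod fun j _ => by fun_prop

theorem contDiff_Phi : ContDiff ℝ ∞ (Phi δ A C) :=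
  ContDiff.sum fun c _ => (contDiff_wt c).mul (by fun_prop)

theorem contDiff_hgt : ContDiff ℝ ∞ (hgt δ A C) :=
  ContDiff.sum fun c _ => (contDiff_wt c).mul contDiff_const

theorem Phi_nonneg (hδ : 0 < δ) (b : Fin (m + 1) → ℝ) : 0 ≤ Phi δ A C b :=
  Finset.sum_nonneg fun c _ => mul_nonneg (wt_nonneg c b) (mul_nonneg hδ.le (prim_nonneg _))

theorem Phi_le (hδ : 0 < δ) (b : Fin (m + 1) → ℝ) : Phi δ A C b ≤ hgt δ A C b :=
  Finset.sum_le_sum fun c _ => mul_le_mul_of_nonneg_left
    (mul_le_of_le_one_right hδ.le (prim_le_one _)) (wt_nonneg c b)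

theorem wt_congr {b b' : Fin (m + 1) → ℝ} (h : ∀ j : Fin m, b j.succ = b' j.succ)
    (c : Fin (m + 1) → ℕ) : wt δ A c b = wt δ A c b' := by
  simp only [wt, h]

theorem hgt_congr {b b' : Fin (m + 1) → ℝ} (h : ∀ j : Fin m, b j.succ = b' j.succ) :
    hgt δ A C b = hgt δ A C b' := by
  simp only [hgt, wt_congr h]

theorem line_succ (b : Fin (m + 1) → ℝ) (u : ℝ) (j : Fin m) :
    (b + u • Pi.single 0 1 : Fin (m + 1) → ℝ) j.succ = b j.succ := by simp

theorem Phi_line (b : Fin (m + 1) → ℝ) (u : ℝ) : Phi δ A C (b + u • Pi.single 0 1) =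
    ∑ c ∈ C, wt δ A c b * (δ * prim ((b 0 + u) / δ + A - c 0)) := by
  simp only [Phi, wt_congr (line_succ b u)]
  simp

theorem hasDerivAt_Phi (hδ : 0 < δ) (b : Fin (m + 1) → ℝ) :
    HasDerivAt (fun u : ℝ => Phi δ A C (b + u • Pi.single 0 1))
      (∑ c ∈ C, ∏ j, eta (b j / δ + A - c j)) 0 := by
  simp only [Phi_line]
  refine HasDerivAt.fun_sum fun c _ => ?_
  have h1 : HasDerivAt (fun u : ℝ => (b 0 + u) / δ + A - c 0) (1 / δ) 0 :=
    ((((hasDerivAt_id' (0 : ℝ)).const_add (b 0)).div_const δ).add_const A).sub_const _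
  refine ((((hasDerivAt_prim _).comp 0 h1).const_mul δ).const_mul _).congr_deriv ?_
  rw [Fin.prod_univ_succ, wt, add_zero]
  field_simp

theorem Phi_lt (hδ : 0 < δ) {b : Fin (m + 1) → ℝ}
    (h : ∑ c ∈ C, ∏ j, eta (b j / δ + A - c j) = 1) {u : ℝ} (hu : 0 < u) :
    Phi δ A C b < Phi δ A C (b + u • Pi.single 0 1) := by
  have h1 := (hasDerivAt_Phi (A := A) (C := C) hδ b).tendsto_slope_zero_right
  rw [h] at h1
  obtain ⟨s, h2, h3⟩ := ((h1.eventually (lt_mem_nhds one_pos)).and (Ioo_mem_nhdsGT hu)).exists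
  simp only [zero_add, zero_smul, add_zero, smul_eq_mul] at h2
  refine (sub_pos.1 ((mul_pos_iff_of_pos_left (inv_pos.2 h3.1)).1 h2)).trans_le ?_
  rw [Phi_line, Phi_line]
  refine Finset.sum_le_sum fun c _ => mul_le_mul_of_nonneg_left
    (mul_le_mul_of_nonneg_left (prim_mono ?_) hδ.le) (wt_nonneg c b)
  gcongr
  exact h3.2.le

/-- The offsets of the copies. -/
def off (δ : ℝ) {L : ℕ} (τ : Fin m → Fin L) : Fin (m + 1) → ℝ :=
  Matrix.vecCons 0 fun j => δ * (τ j : ℕ)

theorem sum_hgt_le (hδ : 0 < δ) (L : ℕ) (b : Fin (m + 1) → ℝ) :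
    ∑ τ : Fin m → Fin L, hgt δ A C (b - off δ τ) ≤ δ * C.card := by
  simp only [hgt]
  rw [Finset.sum_comm, mul_comm, ← nsmul_eq_mul, ← Finset.sum_const]
  refine Finset.sum_le_sum fun c _ => ?_
  rw [← Finset.sum_mul]
  refine mul_le_of_le_one_left hδ.le ?_
  have h1 : ∀ τ : Fin m → Fin L, wt δ A c (b - off δ τ) =
      ∏ j : Fin m, eta (b j.succ / δ + A - c j.succ - (τ j : ℕ)) := fun τ => by
    refine Finset.prod_congr rfl fun j _ => congrArg eta ?_
    simp only [off, Pi.sub_apply, Matrix.cons_val_succ]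
    field_simp
    ring
  simp only [h1]
  rw [← Fintype.prod_sum fun (j : Fin m) (k : Fin L) => eta (b j.succ / δ + A - c j.succ - (k : ℕ))]
  refine Finset.prod_le_one (fun j _ => Finset.sum_nonneg fun _ _ => eta_nonneg _) fun j _ => ?_
  rw [Fin.sum_univ_eq_sum_range fun k => eta (b j.succ / δ + A - c j.succ - (k : ℕ)), sum_eta]
  linarith [smoothTransition.le_one (b j.succ / δ + A - c j.succ),
    smoothTransition.nonneg (b j.succ / δ + A - c j.succ - L)]

theorem exists_cells {Ω : Set (Fin (m + 1) → ℝ)} {R : ℝ} (hR : Ω ⊆ Metric.closedBall 0 R)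
    (hδ : 0 < δ) : ∃ (A : ℝ) (C : Finset (Fin (m + 1) → ℕ)),
      (∀ b ∈ Ω, ∑ c ∈ C, ∏ j, eta (b j / δ + A - c j) = 1) ∧
      C.card * ENNReal.ofReal δ ^ (m + 1) ≤ volume (Metric.cthickening (2 * δ) Ω) := by
  classical
  refine ⟨R / δ + 1, (Fintype.piFinset fun _ => Finset.range ⌈2 * (R / δ) + 1⌉₊).filter
    fun c => ∃ b ∈ Ω, ∀ j, b j / δ + (R / δ + 1) - c j ∈ Icc (0 : ℝ) 2, fun b hb => ?_, ?_⟩
  · rw [Finset.sum_filter_of_ne fun c _ hc => ⟨b, hb, fun j => mem_of_eta_ne
      (Finset.prod_ne_zero_iff.1 hc j (Finset.mem_univ j))⟩,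
      ← Finset.prod_univ_sum _ fun j (k : ℕ) => eta (b j / δ + (R / δ + 1) - k)]
    refine Finset.prod_eq_one fun j _ => ?_
    have h1 := abs_le.1 ((norm_le_pi_norm b j).trans (mem_closedBall_zero_iff.1 (hR hb)))
    have h2 := div_le_div_of_nonneg_right h1.1 hδ.le
    have h3 := div_le_div_of_nonneg_right h1.2 hδ.le
    rw [neg_div] at h2
    rw [sum_eta, smoothTransition.one_of_one_le (by linarith), smoothTransition.zero_of_nonpos
      (by linarith [Nat.le_ceil (2 * (R / δ) + 1)]), sub_zero]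
  generalize R / δ + 1 = A
  generalize (Fintype.piFinset fun _ : Fin (m + 1) => Finset.range ⌈2 * (R / δ) + 1⌉₊) = C
  let Q : (Fin (m + 1) → ℕ) → Set (Fin (m + 1) → ℝ) := fun c =>
    univ.pi fun j => Ico (δ * (c j - A)) (δ * (c j - A) + δ)
  have hQ : ∀ c b, b ∈ Q c → ∀ j, b j / δ + A - c j ∈ Ico (0 : ℝ) 1 := fun c b hb j => by
    obtain ⟨h1, h2⟩ := hb j (mem_univ _)
    rw [mul_comm, ← le_div_iff₀ hδ] at h1
    rw [← mul_add_one, mul_comm, ← div_lt_iff₀ hδ] at h2
    constructor <;> linarith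
  have h1 := measure_biUnion_finset (μ := volume) (f := Q)
    (s := C.filter fun c => ∃ b ∈ Ω, ∀ j, b j / δ + A - c j ∈ Icc (0 : ℝ) 2)
    (fun c _ c' _ hcc => Set.disjoint_left.2 fun b hb hb' => hcc (funext fun j => by
      have h3 := hQ c b hb j
      have h4 := hQ c' b hb' j
      have h5 : (c j : ℝ) < c' j + 1 := by linarith [h3.1, h4.2]
      have h6 : (c' j : ℝ) < c j + 1 := by linarith [h3.2, h4.1]
      norm_cast at h5 h6
      omega)) fun c _ => MeasurableSet.univ_pi fun _ => measurableSet_Ico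
  simp only [Q, volume_pi_Ico, add_sub_cancel_left, Finset.prod_const, Finset.card_univ,
    Fintype.card_fin, Finset.sum_const, nsmul_eq_mul] at h1
  rw [← h1]
  refine measure_mono (iUnion₂_subset fun c hc b hb => ?_)
  obtain ⟨b', hb', h2⟩ := (Finset.mem_filter.1 hc).2
  refine Metric.mem_cthickening_of_dist_le b b' _ _ hb'
    ((dist_pi_le_iff (by positivity)).2 fun j => ?_)
  have h3 := hQ c b hb j
  have h4 := h2 j
  have h5 : |b j / δ - b' j / δ| ≤ 2 :=
    abs_le.2 ⟨by linarith [h3.1, h4.2], by linarith [h3.2, h4.1]⟩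
  rwa [← sub_div, abs_div, abs_of_pos hδ, div_le_iff₀ hδ] at h5

theorem exists_len {t R : ℝ} (ht : 1 < t) (hR : 0 < R) (hδ : 0 < δ) :
    ∃ L : ℕ, 0 < L ∧ π * (√((R + δ * L) / π) + 1) ^ 2 ≤ t * δ * L := by
  have hπ := pi_pos
  obtain ⟨κ, hκ, rfl⟩ : ∃ κ, 0 < κ ∧ t = 1 + 2 * κ := ⟨(t - 1) / 2, by linarith, by ring⟩
  obtain ⟨L, hL⟩ := exists_nat_gt (((1 + κ) * R + π / κ + π) / (κ * δ))
  refine ⟨L, Nat.cast_pos.1 (lt_trans (by positivity) hL), ?_⟩
  rw [div_lt_iff₀ (by positivity)] at hL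
  have h1 := sq_sqrt (show 0 ≤ (R + δ * L) / π by positivity)
  generalize √((R + δ * L) / π) = x at h1
  rw [eq_div_iff hπ.ne'] at h1
  have h2 : 2 * x ≤ κ * x ^ 2 + 1 / κ := by
    rw [← sub_nonneg, show κ * x ^ 2 + 1 / κ - 2 * x = (κ * x - 1) ^ 2 / κ by field_simp; ring]
    positivity
  have h3 := mul_le_mul_of_nonneg_left h2 hπ.le
  have h4 : π * (κ * x ^ 2 + 1 / κ) = κ * (R + δ * L) + π / κ := by rw [← h1]; ring
  nlinarith

/-- The product of `Ω` with a torus and an interval. -/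
def slab (Ω : Set (Fin (m + 1) → ℝ)) : Set (R2n (m + 1)) :=
  {z | bs z ∈ Ω ∧ z (Sum.inr 0) ∈ Ioo (0 : ℝ) 1}

theorem stack {Ω : Set (Fin (m + 1) → ℝ)} (hΩ : IsOpen Ω) (hb : Bornology.IsBounded Ω)
    (hne : Ω.Nonempty) (hp : ∀ b ∈ Ω, ∀ j : Fin m, 0 < b j.succ) {c : ℝ} (hc : 1 < c) :
    ∃ K : Set (Fin (m + 1) → ℝ), IsCompact K ∧ ∃ N : ℕ, 0 < N ∧
      ∃ S : Fin N → R2n (m + 1) → R2n (m + 1), (∀ i, Conf omega0 omega0 1 (slab Ω) (S i)) ∧
      (∀ i, MapsTo (S i) (slab Ω) (lagCube K)) ∧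
      (Pairwise fun i j => Disjoint (S i '' slab Ω) (S j '' slab Ω)) ∧
      volume K ≤ ENNReal.ofReal c * N * volume (closure Ω) := by
  have hπ := pi_pos
  obtain ⟨t, ht, htc⟩ : ∃ t : ℝ, 1 < t ∧ t ^ (m + 1) ≤ c := by
    have h1 : ∀ᶠ t : ℝ in 𝓝 1, t ^ (m + 1) < c :=
      (continuous_pow (m + 1)).continuousAt.eventually (gt_mem_nhds (by simpa using hc))
    obtain ⟨t, h2, h3⟩ := ((h1.filter_mono nhdsWithin_le_nhds).and
      (self_mem_nhdsWithin (s := Ioi (1 : ℝ)))).exists
    exact ⟨t, h3, h2.le⟩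
  obtain ⟨R, hR0, hR⟩ := hb.subset_closedBall_lt 0 0
  obtain ⟨δ, hδ, hv⟩ : ∃ δ : ℝ, 0 < δ ∧
      volume (Metric.cthickening (2 * δ) Ω) ≤ ENNReal.ofReal t * volume (closure Ω) := by
    have h1 := tendsto_measure_cthickening (μ := volume) (s := Ω)
      ⟨1, one_pos, hb.cthickening.measure_lt_top.ne⟩
    have h2 : volume (closure Ω) < ENNReal.ofReal t * volume (closure Ω) := by
      conv_lhs => rw [← one_mul (volume (closure Ω))]
      exact ENNReal.mul_lt_mul_left ((hΩ.measure_pos _ hne).trans_le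
        (measure_mono subset_closure)).ne' hb.closure.measure_lt_top.ne (by simpa using ht)
    obtain ⟨r, h3, h4⟩ := (((h1.eventually (gt_mem_nhds h2)).filter_mono nhdsWithin_le_nhds).and
      (self_mem_nhdsWithin (s := Ioi (0 : ℝ)))).exists
    exact ⟨r / 2, half_pos h4, by rw [mul_div_cancel₀ _ two_ne_zero]; exact h3.le⟩
  obtain ⟨A, C, h1, h2⟩ := exists_cells hR hδ
  obtain ⟨L, hL, hL'⟩ := exists_len ht hR0 hδ
  let f : Fin (L ^ m) ≃ (Fin m → Fin L) := finFunctionFinEquiv.symm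
  let G : Fin (L ^ m) → (Fin (m + 1) → ℝ) → ℝ := fun i b =>
    Phi δ A C (b - off δ (f i)) - b 0 + ∑ k ∈ Finset.Iio i, hgt δ A C (b - off δ (f k))
  let T : Fin (L ^ m) → R2n (m + 1) → R2n (m + 1) := fun i =>
    pm (Matrix.vecCons id fun j => tra (δ * (f i j : ℕ)))
  have hs : ∀ z ∈ slab Ω, ∀ j : Fin m, 0 < sqMod z j.succ := fun z hz j =>
    (mul_pos_iff_of_pos_left hπ).1 (hp _ hz.1 j)
  have hT : ∀ i, ∀ z ∈ slab Ω, bs (T i z) - off δ (f i) = bs z := fun i z hz => by
    funext j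
    refine Fin.cases (sub_zero _) (fun j => sub_eq_iff_eq_add.2 ?_) j
    exact tra_sq (p := pr j.succ z) (by positivity) (hs z hz j)
  have hso : IsOpen (slab Ω) :=
    (hΩ.preimage contDiff_bs.continuous).inter (isOpen_Ioo.preimage (by fun_prop))
  have hTc : ∀ i, Conf omega0 omega0 1 (slab Ω) (T i) := fun i =>
    (conf_pm (W := Matrix.vecCons univ fun _ => {p | 0 < p.1 ^ 2 + p.2 ^ 2})
      (Fin.cases conf_id fun _ => conf_tra (by positivity))).mono hso
      fun z hz => Fin.cases (mem_univ _) (hs z hz)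
  have hG : ∀ i, ContDiff ℝ ∞ (G i) := fun i =>
    ((contDiff_Phi.comp (contDiff_id.sub contDiff_const)).sub (by fun_prop)).add
      (ContDiff.sum fun k _ => contDiff_hgt.comp (contDiff_id.sub contDiff_const))
  have hGc : ∀ i, Conf omega0 omega0 1 (bs ⁻¹' {b | b - off δ (f i) ∈ Ω}) (sh (G i)) := fun i => by
    have hl : ∀ (b : Fin (m + 1) → ℝ) (u : ℝ), G i (b + u • Pi.single 0 1) =
        Phi δ A C (b - off δ (f i) + u • Pi.single 0 1) - (b 0 + u) +
          ∑ k ∈ Finset.Iio i, hgt δ A C (b - off δ (f k)) := fun b u => by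
      simp only [G, add_sub_right_comm b, hgt_congr (line_succ _ u)]
      simp
    refine conf_sh (hG i) (hΩ.preimage (by fun_prop)) (fun b hb => ?_) ?_
    · have h3 : HasDerivAt (fun u : ℝ => b + u • Pi.single 0 1) (Pi.single 0 1) 0 := by
        simpa using ((hasDerivAt_id' (0 : ℝ)).smul_const
          (Pi.single 0 1 : Fin (m + 1) → ℝ)).const_add b
      have h4 := (((hG i).differentiable (by simp) _).hasFDerivAt.comp_hasDerivAt 0 h3)
      have h5 := ((hasDerivAt_Phi (A := A) (C := C) hδ (b - off δ (f i))).sub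
        ((hasDerivAt_id' (0 : ℝ)).const_add (b 0))).add_const
        (∑ k ∈ Finset.Iio i, hgt δ A C (b - off δ (f k)))
      rw [h1 _ hb, sub_self] at h5
      simpa using h4.unique (h5.congr_of_eventuallyEq (Eventually.of_forall fun u => hl b u))
    · have key : ∀ b b' : Fin (m + 1) → ℝ, b - off δ (f i) ∈ Ω →
          (∀ j : Fin m, b j.succ = b' j.succ) → b 0 < b' 0 → b 0 + G i b < b' 0 + G i b' := by
        intro b b' hb hj hlt
        have e : b' = b + (b' 0 - b 0) • Pi.single 0 1 :=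
          funext fun j => Fin.cases (by simp) (fun j => by rw [line_succ, hj]) j
        have h3 := Phi_lt hδ (h1 _ hb) (sub_pos.2 hlt)
        have h4 := hl b (b' 0 - b 0)
        rw [← e] at h4
        rw [h4]
        simp only [G]
        linarith
      intro b hb b' hb' hj e
      rcases lt_trichotomy (b 0) (b' 0) with h | h | h
      · exact absurd e (key b b' hb hj h).ne
      · exact funext fun j => Fin.cases h hj j
      · exact absurd e (key b' b hb' (fun j => (hj j).symm) h).ne'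
  have hP : Conf omega0 omega0 1 univ (pm (n := m + 1) (Matrix.vecCons id fun _ => pol 1)) :=
    (conf_pm (W := Matrix.vecCons univ fun _ => {p | 0 < p.1 ^ 2 + 1 ^ 2})
      (Fin.cases conf_id fun _ => conf_pol zero_le_one)).mono isOpen_univ
      fun z _ => Fin.cases (mem_univ _) fun j => by
        change 0 < z (Sum.inl j.succ) ^ 2 + 1 ^ 2
        positivity
  have hx : ∀ i, ∀ z ∈ slab Ω, sh (G i) (T i z) (Sum.inl 0) = Phi δ A C (bs z) +
      ∑ k ∈ Finset.Iio i, hgt δ A C (bs (T i z) - off δ (f k)) := fun i z hz => by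
    change bs (T i z) 0 + G i (bs (T i z)) = _
    simp only [G, hT i z hz]
    ring
  have hx' : ∀ i, ∀ z ∈ slab Ω, sh (G i) (T i z) (Sum.inl 0) <
      ∑ k ∈ Finset.Iic i, hgt δ A C (bs (T i z) - off δ (f k)) := fun i z hz => by
    rw [hx i z hz, ← Finset.Iio_insert, Finset.sum_insert Finset.notMem_Iio_self, hT i z hz]
    have := (Phi_lt hδ (h1 _ hz.1) one_pos).trans_le (Phi_le hδ _)
    rw [hgt_congr (line_succ _ _)] at this
    linarith
  have hg0 : ∀ b, 0 ≤ hgt δ A C b := fun b => (Phi_nonneg hδ b).trans (Phi_le hδ b)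
  refine ⟨Icc (Matrix.vecCons 0 fun _ => -(t * δ * L / 2))
    (Matrix.vecCons (δ * C.card) fun _ => t * δ * L / 2), isCompact_Icc, L ^ m, by positivity,
    fun i => pm (Matrix.vecCons id fun _ => pol 1) ∘ sh (G i) ∘ T i, fun i => ?_,
    fun i z hz => ⟨?_, Fin.cases hz.2 fun _ => GG_mem _⟩, ?_, ?_⟩
  · simpa using hP.comp ((hGc i).comp (hTc i) fun z hz => by
      change bs (T i z) - off δ (f i) ∈ Ω
      rw [hT i z hz]
      exact hz.1) (mapsTo_univ _ _)
  · have h3 : ∀ j : Fin m, |(pol 1 (pr j.succ (sh (G i) (T i z)))).1| ≤ t * δ * L / 2 := fun j => by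
      refine (abs_pol_le one_pos _).trans ?_
      have h4 : sqMod (sh (G i) (T i z)) j.succ ≤ (R + δ * L) / π := by
        have h5 := congrFun (hT i z hz) j.succ
        have h6 := (abs_le.1 ((norm_le_pi_norm (bs z) j.succ).trans
          (mem_closedBall_zero_iff.1 (hR hz.1)))).2
        have h7 : ((f i j : ℕ) : ℝ) ≤ L := by exact_mod_cast (f i j).2.le
        rw [← h5] at h6
        simp only [bs, off, Pi.sub_apply, Matrix.cons_val_succ] at h6
        rw [sqMod_sh, le_div_iff₀ hπ]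
        nlinarith
      refine le_trans ?_ (div_le_div_of_nonneg_right hL' zero_le_two)
      rw [div_mul_eq_mul_div]
      gcongr
      exact h4
    refine ⟨Fin.cases ?_ fun j => (abs_le.1 (h3 j)).1, Fin.cases ?_ fun j => (abs_le.1 (h3 j)).2⟩
    · change 0 ≤ sh (G i) (T i z) (Sum.inl 0)
      rw [hx i z hz]
      exact add_nonneg (Phi_nonneg hδ _) (Finset.sum_nonneg fun _ _ => hg0 _)
    · refine (hx' i z hz).le.trans (le_trans ?_ (sum_hgt_le (A := A) hδ L (bs (T i z))))
      rw [← f.sum_comp]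
      exact Finset.sum_le_sum_of_subset_of_nonneg (Finset.subset_univ _) fun _ _ _ => hg0 _
  · refine (pairwise_disjoint_on _).2 fun i i' hii => Set.disjoint_left.2 ?_
    rintro _ ⟨z, hz, rfl⟩ ⟨z', hz', e⟩
    have e1 : sh (G i') (T i' z') = sh (G i) (T i z) := hP.inj (mem_univ _) (mem_univ _) e
    have e2 : ∀ k, hgt δ A C (bs (T i z) - off δ (f k)) = hgt δ A C (bs (T i' z') - off δ (f k)) :=
      fun k => hgt_congr fun j => by
        simp only [bs, Pi.sub_apply, Matrix.cons_val_succ]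
        rw [← sqMod_sh (G i), ← e1, sqMod_sh]
    have h3 := hx' i z hz
    rw [← e1, hx i' z' hz'] at h3
    simp only [e2] at h3
    have h4 := Finset.sum_le_sum_of_subset_of_nonneg
      (f := fun k => hgt δ A C (bs (T i' z') - off δ (f k))) (s := Finset.Iic i)
      (t := Finset.Iio i') (fun k hk => Finset.mem_Iio.2 ((Finset.mem_Iic.1 hk).trans_lt hii))
      fun _ _ _ => hg0 _
    linarith [Phi_nonneg (A := A) (C := C) hδ (bs z')]
  · rw [volume_Icc_pi, Fin.prod_univ_succ]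
    simp only [Matrix.cons_val_zero, Matrix.cons_val_succ, sub_zero, sub_neg_eq_add, add_halves,
      Finset.prod_const, Finset.card_univ, Fintype.card_fin]
    have ht0 : 0 ≤ t := by linarith
    rw [ENNReal.ofReal_mul hδ.le, ENNReal.ofReal_mul (by positivity), ENNReal.ofReal_mul ht0,
      ENNReal.ofReal_natCast, ENNReal.ofReal_natCast]
    calc _ = ENNReal.ofReal t ^ m * (L ^ m : ℕ) * (C.card * ENNReal.ofReal δ ^ (m + 1)) := by
          push_cast
          ring
      _ ≤ ENNReal.ofReal t ^ m * (L ^ m : ℕ) * (ENNReal.ofReal t * volume (closure Ω)) :=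
          mul_le_mul_right (h2.trans hv) _
      _ = ENNReal.ofReal (t ^ (m + 1)) * (L ^ m : ℕ) * volume (closure Ω) := by
          rw [ENNReal.ofReal_pow ht0]
          ring
      _ ≤ _ := by gcongr

end Pool.Agent.Lib.MP_6b8987_gt
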