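import Pool.Agent.Lib.MP_6b8987_gt.Fill

set_option autoImplicit false

namespace Pool.Agent.Lib.MP_6b8987_gt

open MeasureTheory Module Set Filter Topology Metric
open scoped RealInnerProductSpace

theorem eq_const_of_cover {Y : Type*} [TopologicalSpace Y] [PreconnectedSpace Y] {A A' Ω : Set Y}
    (hA : IsOpen A) (hA' : IsOpen A') (hΩ : IsOpen Ω) (hcov : ∀ y, y ∈ A ∨ y ∈ A' ∨ y ∈ Ω)
    (hd : Disjoint A A') {F : Y → ℝ} (hF : ∀ y ∈ A, ∀ᶠ z in 𝓝 y, F z = F y) {c : ℝ}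
    (hc : ∀ y ∈ A, y ∈ Ω → F y = c) (hne : Ω.Nonempty) : ∀ y ∈ A, F y = c := by
  have h1 : IsOpen {y | y ∈ A ∧ F y ≠ c} := by
    rw [isOpen_iff_mem_nhds]
    rintro y ⟨hy, hy'⟩
    filter_upwards [hA.mem_nhds hy, hF y hy] with z hz hz'
    exact ⟨hz, hz' ▸ hy'⟩
  have h2 : IsClosed {y | y ∈ A ∧ F y ≠ c} := by
    rw [← isOpen_compl_iff, isOpen_iff_mem_nhds]
    intro y hy
    rcases hcov y with h | h | h
    · filter_upwards [hF y h] with z hz hz'
      exact hy ⟨h, hz ▸ hz'.2⟩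
    · filter_upwards [hA'.mem_nhds h] with z hz hz'
      exact hd.ne_of_mem hz'.1 hz rfl
    · filter_upwards [hΩ.mem_nhds h] with z hz hz'
      exact hz'.2 (hc z hz'.1 hz)
  rcases isClopen_iff.mp ⟨h2, h1⟩ with h | h
  · intro y hy
    by_contra hne
    exact (h ▸ (⟨hy, hne⟩ : y ∈ {y | y ∈ A ∧ F y ≠ c}) : y ∈ (∅ : Set Y))
  · obtain ⟨y, hy⟩ := hne
    have : y ∈ {y | y ∈ A ∧ F y ≠ c} := h ▸ mem_univ y
    exact (this.2 (hc y this.1 hy)).elim

theorem eq_of_locally_const {Y : Type*} [TopologicalSpace Y] {T : Set Y} (hT : IsPreconnected T)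
    {F : Y → ℝ} (hF : ∀ y ∈ T, ∀ᶠ z in 𝓝 y, F z = F y) {x y : Y} (hx : x ∈ T) (hy : y ∈ T) :
    F x = F y :=
  hT.induction₂' (fun x y => F x = F y)
    (fun x hx => ((hF x hx).filter_mono nhdsWithin_le_nhds).mono fun _ h => ⟨h.symm, h⟩)
    (fun _ _ _ _ _ _ h h' => h.trans h') hx hy

variable {E : Type*} [NormedAddCommGroup E] [InnerProductSpace ℝ E] [FiniteDimensional ℝ E]

omit [FiniteDimensional ℝ E] in
theorem locally_const_of_fderiv {Ψ : E → ℝ} (hΨ : Differentiable ℝ Ψ) {C : Set E}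
    (hC : IsClosed C) (h : ∀ y ∉ C, fderiv ℝ Ψ y = 0) : ∀ y ∉ C, ∀ᶠ z in 𝓝 y, Ψ z = Ψ y := by
  intro y hy
  obtain ⟨ε, hε, hb⟩ := Metric.isOpen_iff.mp hC.isOpen_compl y hy
  filter_upwards [ball_mem_nhds y hε] with z hz
  exact isOpen_ball.is_const_of_fderiv_eq_zero (𝕜 := ℝ) (convex_ball y ε).isPreconnected
    hΨ.differentiableOn (fun w hw => h w (hb hw)) hz (mem_ball_self hε)

variable [MeasurableSpace E] [BorelSpace E] (μ : Measure E) [μ.IsAddHaarMeasure]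

/-- The data of a filled embedded shell. -/
structure Filled (Ω C : Set E) (v : ℝ) (Ψ : E → ℝ) : Prop where
  isOpen : IsOpen Ω
  conn : IsPreconnected Ω
  isClosed : IsClosed C
  sub : C ⊆ Ω
  cont : Continuous Ψ
  far : ∃ R, ∀ y, R < ‖y‖ → Ψ y = 0 ∧ y ∉ C
  loc : ∀ y ∉ C, ∀ᶠ z in 𝓝 y, Ψ z = Ψ y
  val : ∀ y ∉ C, Ψ y = 0 ∨ Ψ y = 1
  nonneg : ∀ y, 0 ≤ Ψ y
  le_one : ∀ y, Ψ y ≤ 1
  one : ∃ y ∈ Ω, Ψ y = 1
  int : ∫ y, Ψ y ∂μ = v

theorem exists_filled {J : E →L[ℝ] E} (hJ : ∀ u v, ⟪J u, v⟫ = -⟪u, J v⟫)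
    (hJ2 : ∀ v, J (J v) = -v) (hN : 2 < finrank ℝ E) {a b : ℝ} (ha : 0 < a)
    (χ : ContDiffBump (0 : E)) (h1 : a < χ.rIn) (h2 : χ.rOut < b) {φ : E → E}
    (h : Symp J {x | ‖x‖ ∈ Ioo a b} φ) :
    ∃ C Ψ, Filled μ (φ '' {x | ‖x‖ ∈ Ioo a b}) C (∫ x, χ x ∂μ) Ψ := by
  have hS : IsPreconnected {x : E | ‖x‖ ∈ Ioo a b} :=
    isPreconnected_norm_mem (by omega) isPreconnected_Ioo fun r hr => ha.trans hr.1
  have hK : IsCompact {x : E | ‖x‖ ∈ Icc χ.rIn χ.rOut} :=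
    (isCompact_closedBall (0 : E) χ.rOut).of_isClosed_subset
      (isClosed_Icc.preimage continuous_norm) fun x hx => by simpa using hx.2
  have hKS : {x : E | ‖x‖ ∈ Icc χ.rIn χ.rOut} ⊆ {x | ‖x‖ ∈ Ioo a b} := fun x hx =>
    ⟨h1.trans_le hx.1, hx.2.trans_lt h2⟩
  have hout : ∀ x ∉ {x : E | ‖x‖ ∈ Icc χ.rIn χ.rOut},
      (χ =ᶠ[𝓝 x] fun _ => (0 : ℝ)) ∨ χ =ᶠ[𝓝 x] fun _ => (1 : ℝ) := by
    intro x hx
    simp only [mem_ofPred_eq, mem_Icc, not_and_or, not_le] at hx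
    rcases hx with hx | hx
    · right
      filter_upwards [(isOpen_lt continuous_norm continuous_const).mem_nhds hx] with y hy
      exact χ.one_of_mem_closedBall (by simpa using hy.le)
    · left
      filter_upwards [(isOpen_lt continuous_const continuous_norm).mem_nhds hx] with y hy
      exact χ.zero_of_le_dist (by simpa using hy.le)
  obtain ⟨Ψ, m, R, hd, hfar, hz, hφ, hint⟩ := h.exists_fill μ hJ hJ2 hN hS hK hKS χ.contDiff
    χ.hasCompactSupport (fun x hx => by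
      rcases hout x hx with h | h <;> rw [h.fderiv_eq] <;> simp)
  set C := φ '' {x : E | ‖x‖ ∈ Icc χ.rIn χ.rOut}
  have hC : IsCompact C := hK.image_of_continuousOn (h.contDiffOn.continuousOn.mono hKS)
  have hloc := locally_const_of_fderiv hd hC.isClosed hz
  have : Nontrivial E := Module.nontrivial_of_finrank_pos (R := ℝ) (by omega)
  obtain ⟨x₀, hx₀⟩ := exists_norm_eq E (c := χ.rIn) χ.rIn_pos.le
  have hx₀S : x₀ ∈ {x : E | ‖x‖ ∈ Ioo a b} := hKS ⟨hx₀.ge, hx₀.le.trans χ.rIn_lt_rOut.le⟩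
  have hval : ∀ y ∉ C, Ψ y = m ∨ Ψ y = 1 + m := by
    have := eq_const_of_cover (A := Cᶜ) (A' := ∅) (Ω := φ '' {x | ‖x‖ ∈ Ioo a b})
      hC.isClosed.isOpen_compl isOpen_empty (h.isOpen_image hJ2) (fun y => by
        by_cases hy : y ∈ C
        · exact Or.inr (Or.inr (image_mono hKS hy))
        · exact Or.inl hy) (disjoint_empty _)
      (F := fun y => (Ψ y - m) * (Ψ y - (1 + m))) (c := 0)
      (fun y hy => (hloc y hy).mono fun z hz => by simp only [hz]) (by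
        rintro _ hy ⟨x, hx, rfl⟩
        rw [hφ x hx]
        rcases hout x (fun hx' => hy ⟨x, hx', rfl⟩) with h | h <;> simp [h.self_of_nhds])
      ⟨_, x₀, hx₀S, rfl⟩
    intro y hy
    simpa only [mul_eq_zero, sub_eq_zero] using this y hy
  have hbd : ∀ y, m ≤ Ψ y ∧ Ψ y ≤ 1 + m := by
    intro y
    by_cases hy : y ∈ C
    · obtain ⟨x, hx, rfl⟩ := hy
      rw [hφ x (hKS hx)]
      constructor <;> linarith [χ.nonneg (x := x), χ.le_one (x := x)]
    · rcases hval y hy with h | h <;> rw [h] <;> constructor <;> linarith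
  obtain ⟨R', hR'0, hR'⟩ := hC.isBounded.exists_pos_norm_le
  have hfar' : ∀ y, max R R' < ‖y‖ → Ψ y = 0 ∧ y ∉ C := fun y hy =>
    ⟨hfar y ((le_max_left _ _).trans_lt hy),
      fun hy' => not_le.mpr ((le_max_right _ _).trans_lt hy) (hR' y hy')⟩
  obtain rfl : m = 0 := by
    obtain ⟨y, hy⟩ := exists_norm_eq E (c := max R R' + 1) (by positivity)
    obtain ⟨h3, h4⟩ := hfar' y (by linarith)
    rcases hval y h4 with h5 | h5
    · rw [← h5, h3]
    · exfalso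
      have h6 : ∫ y, Ψ y ∂μ ≤ 0 := integral_nonpos fun z => by
        have := (hbd z).2
        simp only [Pi.zero_apply]
        linarith
      exact not_lt.mpr (hint ▸ h6) χ.integral_pos
  refine ⟨C, Ψ, h.isOpen_image hJ2, hS.image _ h.contDiffOn.continuousOn, hC.isClosed,
    image_mono hKS, hd.continuous, ⟨_, hfar'⟩, hloc, by simpa using hval,
    fun y => (hbd y).1, fun y => by simpa using (hbd y).2, ⟨_, ⟨x₀, hx₀S, rfl⟩, ?_⟩, hint⟩
  rw [hφ x₀ hx₀S, add_zero]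
  exact χ.one_of_mem_closedBall (by simpa using hx₀.le)

variable {μ}

theorem Filled.integrable {Ω C : Set E} {v : ℝ} {Ψ : E → ℝ} (h : Filled μ Ω C v Ψ) :
    Integrable Ψ μ := by
  obtain ⟨R, hR⟩ := h.far
  exact h.cont.integrable_of_hasCompactSupport
    (HasCompactSupport.intro (isCompact_closedBall 0 R) fun y hy => (hR y (by simpa using hy)).1)

omit [FiniteDimensional ℝ E] [BorelSpace E] [μ.IsAddHaarMeasure] in
/-- If the second shell avoids the side `{Ψ = t}` of the first one, then the second filling is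
constant on that side. -/
theorem Filled.side {Ω C Ω' C' : Set E} {v : ℝ} {Ψ Ψ' : E → ℝ} (h : Filled μ Ω C v Ψ)
    (h' : Filled μ Ω' C' v Ψ') {t c : ℝ} (ht : ∀ y ∈ Ω', Ψ y ≠ t) (hc : ∀ y ∈ Ω, Ψ' y = c) :
    ∀ y ∉ C, Ψ y = t → Ψ' y = c := by
  have ho : ∀ P : ℝ → Prop, IsOpen {y | y ∉ C ∧ P (Ψ y)} := by
    intro P
    rw [isOpen_iff_mem_nhds]
    rintro y ⟨hy, hy'⟩
    filter_upwards [h.isClosed.isOpen_compl.mem_nhds hy, h.loc y hy] with z hz hz'
    exact ⟨hz, hz' ▸ hy'⟩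
  intro y hy hy'
  refine eq_const_of_cover (ho (· = t)) (ho (· ≠ t)) h.isOpen (fun z => ?_) ?_
    (fun z hz => h'.loc z fun hz' => ht z (h'.sub hz') hz.2) (fun z _ hz => hc z hz)
    (h.one.imp fun _ h => h.1) y ⟨hy, hy'⟩
  · by_cases hz : z ∈ C
    · exact Or.inr (Or.inr (h.sub hz))
    · by_cases hz' : Ψ z = t
      · exact Or.inl ⟨hz, hz'⟩
      · exact Or.inr (Or.inl ⟨hz, hz'⟩)
  · exact disjoint_left.mpr fun z hz hz' => hz'.2 hz.2

omit [FiniteDimensional ℝ E] [BorelSpace E] [μ.IsAddHaarMeasure] [InnerProductSpace ℝ E] in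
theorem Filled.const_on {Ω C Ω' C' : Set E} {v : ℝ} {Ψ Ψ' : E → ℝ} (h : Filled μ Ω C v Ψ)
    (h' : Filled μ Ω' C' v Ψ') (hd : Disjoint Ω Ω') :
    (∀ y ∈ Ω', Ψ y = 0) ∨ ∀ y ∈ Ω', Ψ y = 1 := by
  obtain ⟨y₀, hy₀, -⟩ := h'.one
  have hn : ∀ y ∈ Ω', y ∉ C := fun y hy hy' => hd.ne_of_mem (h.sub hy') hy rfl
  have := fun y hy => eq_of_locally_const h'.conn (fun y hy => h.loc y (hn y hy)) (x := y) hy hy₀
  rcases h.val y₀ (hn y₀ hy₀) with h1 | h1
  · exact Or.inl fun y hy => (this y hy).trans h1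
  · exact Or.inr fun y hy => (this y hy).trans h1

/-- Two disjoint shells enclosing the same volume are not nested. -/
theorem Filled.not_nested [Nontrivial E] {Ω C Ω' C' : Set E} {v : ℝ} {Ψ Ψ' : E → ℝ}
    (h : Filled μ Ω C v Ψ) (h' : Filled μ Ω' C' v Ψ') (hd : Disjoint Ω Ω') :
    ∀ y ∈ Ω', Ψ y = 0 := by
  refine (h.const_on h' hd).resolve_right fun h1 => ?_
  have key : ∀ c, (∀ y ∈ Ω, Ψ' y = c) → ∀ y ∉ C, Ψ y = 0 → Ψ' y = c := fun c hc =>
    h.side h' (fun y hy => by rw [h1 y hy]; exact one_ne_zero) hc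
  have h0 : ∀ y ∈ Ω, Ψ' y = 0 := by
    refine (h'.const_on h hd.symm).resolve_right fun h2 => ?_
    obtain ⟨R, hR⟩ := h.far
    obtain ⟨R', hR'⟩ := h'.far
    obtain ⟨y, hy⟩ := exists_norm_eq E (c := |R| + |R'| + 1) (by positivity)
    have h3 := hR y (by linarith [le_abs_self R, abs_nonneg R'])
    have h4 := hR' y (by linarith [le_abs_self R', abs_nonneg R])
    have := key 1 h2 y h3.2 h3.1
    rw [h4.1] at this
    exact zero_ne_one this
  have hle : ∀ y, Ψ' y ≤ Ψ y := by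
    intro y
    by_cases hy : y ∈ C
    · rw [h0 y (h.sub hy)]; exact h.nonneg y
    · rcases h.val y hy with h3 | h3
      · rw [key 0 h0 y hy h3, h3]
      · rw [h3]; exact h'.le_one y
  have h5 : ∫ y, (Ψ y - Ψ' y) ∂μ = 0 := by
    rw [integral_sub h.integrable h'.integrable, h.int, h'.int, sub_self]
  have h6 := (integral_eq_zero_iff_of_nonneg (fun y => sub_nonneg.mpr (hle y))
    (h.integrable.sub h'.integrable)).mp h5
  have h7 := (Continuous.ae_eq_iff_eq μ (h.cont.sub h'.cont) continuous_const).mp h6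
  obtain ⟨y, hy, hy'⟩ := h.one
  have : Ψ y - Ψ' y = 0 := congrFun h7 y
  simp [hy', h0 y hy] at this

theorem Filled.mul_eq_zero [Nontrivial E] {Ω C Ω' C' : Set E} {v : ℝ} {Ψ Ψ' : E → ℝ}
    (h : Filled μ Ω C v Ψ) (h' : Filled μ Ω' C' v Ψ') (hd : Disjoint Ω Ω') (y : E) :
    Ψ y = 0 ∨ Ψ' y = 0 := by
  have h1 := h.not_nested h' hd
  have h2 := h'.not_nested h hd.symm
  by_cases hy : y ∈ C
  · exact Or.inr (h2 y (h.sub hy))
  · rcases h.val y hy with h3 | h3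
    · exact Or.inl h3
    · exact Or.inr (h.side h' (fun y hy => by rw [h1 y hy]; exact zero_ne_one) h2 y hy h3)

omit [FiniteDimensional ℝ E] [BorelSpace E] [μ.IsAddHaarMeasure] in
theorem Filled.eq_zero_of_convex {Ω C X : Set E} {v : ℝ} {Ψ : E → ℝ} (h : Filled μ Ω C v Ψ)
    (hX : Convex ℝ X) (hΩ : Ω ⊆ X) {y : E} (hy : y ∉ X) : Ψ y = 0 := by
  obtain ⟨x₀, hx₀, -⟩ := h.one
  have hx₀ := hΩ hx₀
  have hne : 0 < ‖y - x₀‖ := norm_pos_iff.mpr (sub_ne_zero.mpr fun e => hy (e ▸ hx₀))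
  have hT : IsPreconnected ((fun t : ℝ => y + t • (y - x₀)) '' Ici 0) :=
    isPreconnected_Ici.image _ (by fun_prop)
  have hTX : ∀ z ∈ (fun t : ℝ => y + t • (y - x₀)) '' Ici 0, z ∉ C := by
    rintro _ ⟨t, ht, rfl⟩ hz
    have ht' : 0 < 1 + t := by linarith [mem_Ici.mp ht]
    have := hX hx₀ (hΩ (h.sub hz)) (a := t / (1 + t)) (b := 1 / (1 + t))
      (div_nonneg ht ht'.le) (by positivity) (by field_simp; ring)
    apply hy
    have e : (t / (1 + t)) • x₀ + (1 / (1 + t)) • (y + t • (y - x₀)) = y := by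
      have : (t / (1 + t)) • x₀ + (1 / (1 + t)) • (y + t • (y - x₀)) =
          ((1 / (1 + t)) * (1 + t)) • y := by
        rw [div_eq_mul_one_div t]; module
      rw [this, one_div_mul_cancel ht'.ne', one_smul]
    rwa [e] at this
  obtain ⟨R, hR⟩ := h.far
  have h1 := eq_of_locally_const hT (fun z hz => h.loc z (hTX z hz)) (x := y)
    ⟨0, mem_Ici.mpr le_rfl, by simp⟩ ⟨(|R| + ‖y‖ + 1) / ‖y - x₀‖, mem_Ici.mpr (by positivity), rfl⟩
  rw [h1]
  refine (hR _ ?_).1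
  have h2 := norm_sub_le (y + ((|R| + ‖y‖ + 1) / ‖y - x₀‖) • (y - x₀)) y
  rw [add_sub_cancel_left, norm_smul, Real.norm_of_nonneg (by positivity),
    div_mul_cancel₀ _ hne.ne'] at h2
  linarith [le_abs_self R]

variable (μ)

/-- Disjoint symplectic copies of a shell in a convex set need as much volume as the same number of
solid balls. -/
theorem packing_bound {J : E →L[ℝ] E} (hJ : ∀ u v, ⟪J u, v⟫ = -⟪u, J v⟫)
    (hJ2 : ∀ v, J (J v) = -v) (hN : 2 < finrank ℝ E) {a b : ℝ} (ha : 0 < a) (hab : a < b)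
    {X : Set E} (hX : Convex ℝ X) (hXm : MeasurableSet X) {k : ℕ} {φ : Fin k → E → E}
    (h : ∀ i, Symp J {x | ‖x‖ ∈ Ioo a b} (φ i)) (hφX : ∀ i, MapsTo (φ i) {x | ‖x‖ ∈ Ioo a b} X)
    (hd : Pairwise fun i j =>
      Disjoint (φ i '' {x | ‖x‖ ∈ Ioo a b}) (φ j '' {x | ‖x‖ ∈ Ioo a b})) :
    k * μ (ball 0 b) ≤ μ X := by
  have : Nontrivial E := Module.nontrivial_of_finrank_pos (R := ℝ) (by omega)
  have key : ∀ r ∈ Ioo a b, k * μ (ball 0 r) ≤ μ X := by
    intro r hr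
    let χ : ContDiffBump (0 : E) := ⟨r, (r + b) / 2, ha.trans hr.1, by linarith [hr.2]⟩
    choose C Ψ hF using fun i => exists_filled μ hJ hJ2 hN ha χ hr.1
      (by simp only [χ]; linarith [hr.2]) (h i)
    have h1 : ∀ y, ∑ i, ENNReal.ofReal (Ψ i y) ≤ X.indicator 1 y := by
      intro y
      by_cases hy : y ∈ X
      · rw [indicator_of_mem hy, Pi.one_apply]
        by_cases h0 : ∃ i, Ψ i y ≠ 0
        · obtain ⟨i, hi⟩ := h0
          rw [Finset.sum_eq_single i (fun j _ hj => by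
            rw [((hF i).mul_eq_zero (hF j) (hd hj.symm) y).resolve_left hi]; simp) (by simp)]
          exact ENNReal.ofReal_le_one.mpr ((hF i).le_one y)
        · push Not at h0
          simp [h0]
      · simp [fun i => (hF i).eq_zero_of_convex hX (hφX i).image_subset hy]
    have h2 : ∀ i, μ (ball 0 r) ≤ ∫⁻ y, ENNReal.ofReal (Ψ i y) ∂μ := by
      intro i
      rw [← ofReal_integral_eq_lintegral_ofReal (hF i).integrable
        (Eventually.of_forall (hF i).nonneg), (hF i).int,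
        ofReal_integral_eq_lintegral_ofReal χ.integrable (Eventually.of_forall fun _ => χ.nonneg),
        ← lintegral_indicator_one measurableSet_ball]
      refine lintegral_mono fun x => ?_
      by_cases hx : x ∈ ball (0 : E) r
      · rw [indicator_of_mem hx, χ.one_of_mem_closedBall (ball_subset_closedBall hx)]; simp
      · rw [indicator_of_notMem hx]; exact zero_le
    calc k * μ (ball 0 r) = ∑ _i : Fin k, μ (ball 0 r) := by simp
      _ ≤ ∑ i, ∫⁻ y, ENNReal.ofReal (Ψ i y) ∂μ := Finset.sum_le_sum fun i _ => h2 i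
      _ = ∫⁻ y, ∑ i, ENNReal.ofReal (Ψ i y) ∂μ := (lintegral_finsetSum _ fun i _ =>
          (hF i).cont.measurable.ennreal_ofReal).symm
      _ ≤ ∫⁻ y, X.indicator 1 y ∂μ := lintegral_mono h1
      _ = μ X := lintegral_indicator_one hXm
  have hb : 0 < b := ha.trans hab
  have hcont : Tendsto (fun r : ℝ => k * (ENNReal.ofReal (r ^ finrank ℝ E) * μ (ball 0 1)))
      (𝓝[<] b) (𝓝 (k * (ENNReal.ofReal (b ^ finrank ℝ E) * μ (ball 0 1)))) := by
    refine ENNReal.Tendsto.const_mul (ENNReal.Tendsto.mul_const ?_ (Or.inr measure_ball_lt_top.ne))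
      (Or.inr (ENNReal.natCast_ne_top k))
    exact (ENNReal.continuous_ofReal.comp (continuous_pow _)).continuousAt.tendsto.mono_left
      nhdsWithin_le_nhds
  rw [μ.addHaar_ball _ hb.le]
  refine le_of_tendsto hcont ?_
  filter_upwards [Ioo_mem_nhdsLT hab] with r hr
  rw [← μ.addHaar_ball (0 : E) (ha.trans hr.1).le]
  exact key r hr

end Pool.Agent.Lib.MP_6b8987_gt
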